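import Mathlib
import Pool.Agent.Q256.CI.Cnt

set_option autoImplicit false

namespace Pool.Agent.Q256.UP

open Finset MvPolynomial Pool.Agent.Q256.CI

/-- small multiples of generators of `ℤ/q` have many different sums. -/
theorem residues {q m : ℕ} [NeZero q] (Y : Fin m → ZMod q)
    (hY : ∃ c : Fin m → ZMod q, ∑ k, c k * Y k = 1) (H : ℕ) :
    ∃ w : Fin (min (H + 1) q) → Fin m → ℕ, (∀ t k, w t k ≤ H) ∧
      Function.Injective (fun t => ∑ k, (w t k : ZMod q) * Y k) := by
  classical
  by_cases h : ∃ k, H + 1 ≤ addOrderOf (Y k)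
  · obtain ⟨k0, hk0⟩ := h
    refine ⟨fun t k => if k = k0 then t.1 else 0, fun t k => ?_, ?_⟩
    · beta_reduce
      split_ifs
      · have := t.2
        have h2 := min_le_left (H + 1) q
        omega
      · omega
    · intro s t hst
      have h1 : ∀ t : Fin (min (H + 1) q),
          ∑ k, (((if k = k0 then t.1 else 0 : ℕ)) : ZMod q) * Y k = t.1 • Y k0 := by
        intro t
        rw [Finset.sum_eq_single k0]
        · rw [if_pos rfl, nsmul_eq_mul]
        · intro b _ hb
          rw [if_neg hb]; simp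
        · intro h; exact absurd (mem_univ _) h
      simp only [h1] at hst
      have hs : s.1 < addOrderOf (Y k0) := lt_of_lt_of_le s.2 ((min_le_left _ _).trans hk0)
      have ht : t.1 < addOrderOf (Y k0) := lt_of_lt_of_le t.2 ((min_le_left _ _).trans hk0)
      exact Fin.ext (nsmul_injOn_Iio_addOrderOf hs ht hst)
  · push Not at h
    obtain ⟨c, hc⟩ := hY
    refine ⟨fun t k => (c k * (t.1 : ZMod q)).val % addOrderOf (Y k), fun t k => ?_, ?_⟩
    · have h1 : 0 < addOrderOf (Y k) := addOrderOf_pos (Y k)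
      have h2 := Nat.mod_lt (c k * (t.1 : ZMod q)).val h1
      have h3 := h k
      beta_reduce
      omega
    · intro s t hst
      have h1 : ∀ t : Fin (min (H + 1) q),
          ∑ k, (((c k * (t.1 : ZMod q)).val % addOrderOf (Y k) : ℕ) : ZMod q) * Y k =
            (t.1 : ZMod q) := by
        intro t
        have h2 : ∀ k, (((c k * (t.1 : ZMod q)).val % addOrderOf (Y k) : ℕ) : ZMod q) * Y k =
            (t.1 : ZMod q) * (c k * Y k) := by
          intro k
          rw [← nsmul_eq_mul, mod_addOrderOf_nsmul, nsmul_eq_mul, ZMod.natCast_val, ZMod.cast_id]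
          ring
        rw [sum_congr rfl (fun k _ => h2 k), ← mul_sum, hc, mul_one]
      simp only [h1] at hst
      have hs : s.1 < q := lt_of_lt_of_le s.2 (min_le_right _ _)
      have ht : t.1 < q := lt_of_lt_of_le t.2 (min_le_right _ _)
      have h3 := (ZMod.natCast_eq_natCast_iff' _ _ _).1 hst
      rw [Nat.mod_eq_of_lt hs, Nat.mod_eq_of_lt ht] at h3
      exact Fin.ext h3

/-- powers of the coordinates of a primitive vector. -/
theorem residues_pow {n : ℕ} (y : Fin (n + 1) → ℤ)
    (hprim : ∃ a : Fin (n + 1) → ℤ, ∑ k, a k * y k = 1) (q : ℕ) (hq1 : 1 ≤ q) (H e : ℕ) :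
    ∃ w : Fin (min (H + 1) q) → Fin (n + 1) → ℕ, (∀ t k, w t k ≤ H) ∧
      ∀ s t, (q : ℤ) ∣ ∑ k, ((w s k : ℤ) - w t k) * y k ^ e → s = t := by
  classical
  have : NeZero q := ⟨by omega⟩
  have hspan : Ideal.span (Set.range y) = ⊤ := by
    rw [Ideal.eq_top_iff_one]
    obtain ⟨a, ha⟩ := hprim
    exact Ideal.mem_span_range_iff_exists_fun.2 ⟨a, ha⟩
  have hspan2 : Ideal.span (Set.range (fun k => y k ^ e)) = ⊤ := by
    have h := Ideal.span_pow_eq_top (Set.range y) hspan e
    rw [← Set.range_comp] at h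
    exact h
  obtain ⟨c, hc⟩ := Ideal.mem_span_range_iff_exists_fun.1 ((Ideal.eq_top_iff_one _).1 hspan2)
  obtain ⟨w, hw1, hw2⟩ := residues (q := q) (fun k => ((y k ^ e : ℤ) : ZMod q))
    ⟨fun k => ((c k : ℤ) : ZMod q), by
      have := congrArg (Int.cast : ℤ → ZMod q) hc
      push_cast at this ⊢
      exact this⟩ H
  refine ⟨w, hw1, fun s t hst => hw2 ?_⟩
  have h1 := (ZMod.intCast_zmod_eq_zero_iff_dvd _ q).2 hst
  push_cast at h1
  simp only
  rw [← sub_eq_zero, ← sum_sub_distrib, ← h1]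
  refine sum_congr rfl (fun k _ => ?_)
  push_cast
  ring

/-- uniqueness of digits. -/
theorem digits (b : ℤ) (hb : b ≠ 0) : ∀ (d : ℕ) (e : Fin d → ℤ) (f : ℤ),
    (∀ j, b ∣ e j → e j = 0) → ∑ i : Fin d, b ^ (i : ℕ) * e i + b ^ d * f = 0 →
    (∀ j, e j = 0) ∧ f = 0 := by
  intro d
  induction d with
  | zero =>
    intro e f _ h
    refine ⟨fun j => j.elim0, ?_⟩
    simpa using h
  | succ d ih =>
    intro e f he h
    rw [Fin.sum_univ_succ] at h
    have h1 : ∑ i : Fin d, b ^ ((i.succ : Fin (d + 1)) : ℕ) * e i.succ + b ^ (d + 1) * f =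
        b * (∑ i : Fin d, b ^ (i : ℕ) * e i.succ + b ^ d * f) := by
      rw [mul_add, mul_sum]
      congr 1
      · refine sum_congr rfl (fun i _ => ?_)
        rw [Fin.val_succ, pow_succ]; ring
      · ring
    rw [add_assoc, h1] at h
    simp only [Fin.val_zero, pow_zero, one_mul] at h
    have h2 : e 0 = 0 := by
      apply he 0
      refine ⟨-(∑ i : Fin d, b ^ (i : ℕ) * e i.succ + b ^ d * f), ?_⟩
      linarith
    rw [h2, zero_add] at h
    have h3 := (mul_eq_zero.1 h).resolve_left hb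
    obtain ⟨h4, h5⟩ := ih (fun i => e i.succ) f (fun j => he j.succ) h3
    exact ⟨fun j => by
      refine Fin.cases h2 (fun i => h4 i) j, h5⟩

/-- forms with prescribed value at `y`. -/
def VanV (n d H : ℕ) (y : Fin (n + 1) → ℤ) (c : ℤ) : Set (MvPolynomial (Fin (n + 1)) ℤ) :=
  {F | F ∈ Box n d H ∧ eval y F = c}

theorem finite_vanV (n d H : ℕ) (y : Fin (n + 1) → ℤ) (c : ℤ) : (VanV n d H y c).Finite :=
  (finite_box n d H).subset (fun _ h => h.1)

theorem box_add {n d A B : ℕ} {F G : MvPolynomial (Fin (n + 1)) ℤ} (hF : F ∈ Box n d A)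
    (hG : G ∈ Box n d B) : F + G ∈ Box n d (A + B) := by
  refine ⟨hF.1.add hG.1, fun α => ?_⟩
  rw [coeff_add]
  refine (abs_add_le _ _).trans ?_
  push_cast
  exact add_le_add (hF.2 α) (hG.2 α)

theorem box_sum {n d B : ℕ} {ι : Type} (s : Finset ι) (G : ι → MvPolynomial (Fin (n + 1)) ℤ)
    (hG : ∀ i ∈ s, G i ∈ Box n d B) : ∑ i ∈ s, G i ∈ Box n d (#s * B) := by
  classical
  induction s using Finset.induction_on with
  | empty =>
    simp only [sum_empty, card_empty, zero_mul]
    refine ⟨isHomogeneous_zero _ _ _, fun α => by simp⟩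
  | insert a s ha ih =>
    rw [sum_insert ha, card_insert_of_notMem ha]
    have h1 := box_add (hG a (mem_insert_self a s)) (ih (fun i hi => hG i (mem_insert_of_mem hi)))
    have h2 : (#s + 1) * B = B + #s * B := by ring
    rw [h2]
    exact h1

theorem box_monomial {n d B : ℕ} (k l : Fin (n + 1)) (i j : ℕ) (hij : i + j = d) (a : ℕ)
    (ha : a ≤ B) : monomial (Finsupp.single k i + Finsupp.single l j) (a : ℤ) ∈ Box n d B := by
  classical
  refine ⟨isHomogeneous_monomial _ ?_, fun α => ?_⟩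
  · rw [map_add, Finsupp.degree_single, Finsupp.degree_single, hij]
  · rw [coeff_monomial]
    split_ifs
    · rw [Nat.abs_cast]; exact_mod_cast ha
    · simp

theorem eval_mono {n : ℕ} (y : Fin (n + 1) → ℤ) (k l : Fin (n + 1)) (i j : ℕ) (a : ℤ) :
    eval y (monomial (Finsupp.single k i + Finsupp.single l j) a) = a * (y k ^ i * y l ^ j) := by
  classical
  rw [eval_monomial, Finsupp.prod_add_index']
  · rw [Finsupp.prod_single_index (by simp), Finsupp.prod_single_index (by simp)]
  · intro a; simp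
  · intro a b c; exact pow_add _ _ _

/-- **The number of forms with a given value at a primitive vector.** -/
theorem count_prim {n : ℕ} (y : Fin (n + 1) → ℤ)
    (hprim : ∃ a : Fin (n + 1) → ℤ, ∑ k, a k * y k = 1)
    (q : ℕ) (hq1 : 1 ≤ q) (k0 : Fin (n + 1)) (hq : |y k0| = q) (d H : ℕ) (c : ℤ) :
    Nat.card (VanV n d H y c) * ((min (H + 1) q) ^ d * (H + 1)) ≤
      (2 * ((d * (n + 1) + 2) * H) + 1) ^ (n + d).choose n := by
  classical
  set μ := min (H + 1) q with hμ
  choose w hw1 hw2 using fun j : Fin d => residues_pow y hprim q hq1 H (d - j.1)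
  have hb : y k0 ≠ 0 := by
    intro h
    rw [h, abs_zero] at hq
    have : q = 0 := by exact_mod_cast hq.symm
    omega
  let G : (Fin d → Fin μ) × Fin (H + 1) → MvPolynomial (Fin (n + 1)) ℤ := fun p =>
    (∑ j : Fin d, ∑ k, monomial (Finsupp.single k0 j.1 + Finsupp.single k (d - j.1))
      ((w j (p.1 j) k : ℕ) : ℤ)) +
    monomial (Finsupp.single k0 d + Finsupp.single k0 0) ((p.2.1 : ℕ) : ℤ)
  have hG : ∀ p, G p ∈ Box n d ((d * (n + 1) + 1) * H) := by
    intro p
    have h1 : ∑ j : Fin d, ∑ k, monomial (Finsupp.single k0 j.1 + Finsupp.single k (d - j.1))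
        ((w j (p.1 j) k : ℕ) : ℤ) ∈ Box n d (d * ((n + 1) * H)) := by
      have hj : ∀ j : Fin d, ∑ k, monomial (Finsupp.single k0 j.1 +
          Finsupp.single k (d - j.1)) ((w j (p.1 j) k : ℕ) : ℤ) ∈ Box n d ((n + 1) * H) := by
        intro j
        have h2 := box_sum (univ : Finset (Fin (n + 1))) (fun k => monomial
            (Finsupp.single k0 j.1 + Finsupp.single k (d - j.1)) ((w j (p.1 j) k : ℕ) : ℤ))
            (B := H) (d := d) (fun k _ => box_monomial k0 k j.1 (d - j.1)
              (Nat.add_sub_cancel' j.2.le) _ (hw1 j _ k))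
        rwa [card_univ, Fintype.card_fin] at h2
      have := box_sum (univ : Finset (Fin d)) (fun j => ∑ k, monomial (Finsupp.single k0 j.1 +
        Finsupp.single k (d - j.1)) ((w j (p.1 j) k : ℕ) : ℤ)) (B := (n + 1) * H) (fun j _ => hj j)
      rwa [card_univ, Fintype.card_fin] at this
    have h2 := box_monomial (d := d) (B := H) k0 k0 d 0 (Nat.add_zero d) p.2.1
      (Nat.lt_succ_iff.1 p.2.2)
    have h3 := box_add h1 h2
    have h4 : (d * (n + 1) + 1) * H = d * ((n + 1) * H) + H := by ring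
    rw [h4]
    exact h3
  have hev : ∀ p, eval y (G p) = ∑ j : Fin d, (y k0) ^ (j : ℕ) * (∑ k, (w j (p.1 j) k : ℤ) *
      y k ^ (d - j.1)) + (y k0) ^ d * (p.2.1 : ℤ) := by
    intro p
    simp only [G, map_add, map_sum, eval_mono]
    congr 1
    · refine sum_congr rfl (fun j _ => ?_)
      rw [mul_sum]
      refine sum_congr rfl (fun k _ => ?_)
      ring
    · rw [pow_zero]; ring
  have hinj : ∀ p p', eval y (G p) = eval y (G p') → p = p' := by
    intro p p' h
    rw [hev, hev] at h
    have h1 := digits (y k0) hb d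
      (fun j => ∑ k, ((w j (p.1 j) k : ℤ) - w j (p'.1 j) k) * y k ^ (d - j.1))
      ((p.2.1 : ℤ) - p'.2.1) (fun j hj => by
        have h2 : (q : ℤ) ∣ ∑ k, ((w j (p.1 j) k : ℤ) - w j (p'.1 j) k) * y k ^ (d - j.1) := by
          rw [← hq]; exact (abs_dvd _ _).2 hj
        have h3 := hw2 j _ _ h2
        rw [h3]; simp) (by
        have h2 : ∀ j : Fin d, (y k0) ^ (j : ℕ) *
            (∑ k, ((w j (p.1 j) k : ℤ) - w j (p'.1 j) k) * y k ^ (d - j.1)) =
            (y k0) ^ (j : ℕ) * (∑ k, (w j (p.1 j) k : ℤ) * y k ^ (d - j.1)) -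
            (y k0) ^ (j : ℕ) * (∑ k, (w j (p'.1 j) k : ℤ) * y k ^ (d - j.1)) := by
          intro j
          rw [← mul_sub, ← sum_sub_distrib]
          congr 1
          refine sum_congr rfl (fun k _ => ?_)
          ring
        rw [sum_congr rfl (fun j _ => h2 j), sum_sub_distrib]
        linarith)
    obtain ⟨h4, h5⟩ := h1
    refine Prod.ext (funext fun j => ?_) (Fin.ext ?_)
    · apply hw2 j
      rw [h4 j]
      exact dvd_zero _
    · omega
  rw [← card_box]
  have hcard : Nat.card (VanV n d H y c) * (μ ^ d * (H + 1)) =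
      Nat.card (VanV n d H y c × ((Fin d → Fin μ) × Fin (H + 1))) := by
    rw [Nat.card_prod, Nat.card_prod, Nat.card_fun, Nat.card_fin, Nat.card_fin, Nat.card_fin]
  rw [hcard]
  have hmem : ∀ p : VanV n d H y c × ((Fin d → Fin μ) × Fin (H + 1)),
      p.1.1 + G p.2 ∈ Box n d ((d * (n + 1) + 2) * H) := by
    intro p
    have h1 := box_add p.1.2.1 (hG p.2)
    have h2 : (d * (n + 1) + 2) * H = H + (d * (n + 1) + 1) * H := by ring
    rw [h2]
    exact h1
  have : Finite (Box n d ((d * (n + 1) + 2) * H)) := (finite_box _ _ _).to_subtype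
  refine Nat.card_le_card_of_injective (fun p => (⟨_, hmem p⟩ :
    Box n d ((d * (n + 1) + 2) * H))) ?_
  rintro ⟨⟨F, hF⟩, m⟩ ⟨⟨F', hF'⟩, m'⟩ h
  have h1 : F + G m = F' + G m' := congrArg Subtype.val h
  have h2 := congrArg (eval y) h1
  have h21 : eval y (F + G m) = eval y F + eval y (G m) := map_add _ _ _
  have h22 : eval y (F' + G m') = eval y F' + eval y (G m') := map_add _ _ _
  rw [h21, h22, hF.2, hF'.2] at h2
  have h3 : m = m' := hinj m m' (by linarith)
  subst h3
  have h4 : F = F' := add_right_cancel h1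
  subst h4
  rfl

end Pool.Agent.Q256.UP
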