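import Mathlib
import Pool.Agent.Q256.UP.Res

set_option autoImplicit false

namespace Pool.Agent.Q256.UP

open Finset MvPolynomial Pool.Agent.Q256.CI

/-- polynomials in two variables of degree at most `d` with integral coefficients of absolute
value at most `B`. -/
def PBox (d B : ℕ) : Set (MvPolynomial (Fin 2) ℤ) :=
  {F | F.totalDegree ≤ d ∧ ∀ α, |F.coeff α| ≤ B}

/-- exponents of degree at most `d`. -/
noncomputable def PS (d : ℕ) : Finset (Fin 2 →₀ ℕ) :=
  (range (d + 1)).biUnion (fun k => Finset.finsuppAntidiag (univ : Finset (Fin (1 + 1))) k)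

theorem mem_PS {d : ℕ} (α : Fin 2 →₀ ℕ) : α ∈ PS d ↔ α.degree ≤ d := by
  unfold PS
  rw [mem_biUnion]
  constructor
  · rintro ⟨k, hk, h⟩
    rw [mem_range] at hk
    have := (mem_anti (n := 1) (d := k) α).1 h
    omega
  · intro h
    exact ⟨α.degree, mem_range.2 (by omega), (mem_anti (n := 1) α).2 rfl⟩

theorem card_PS (d : ℕ) : #(PS d) = (d + 2).choose 2 := by
  unfold PS
  rw [card_biUnion]
  · have h : ∀ k, #(Finset.finsuppAntidiag (univ : Finset (Fin (1 + 1))) k) = k + 1 := by
      intro k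
      rw [card_anti 1 k, Nat.choose_one_right]; omega
    rw [sum_congr rfl (fun k _ => h k)]
    induction d with
    | zero => rfl
    | succ d ih =>
      rw [sum_range_succ, ih]
      have h2 : (d + 1 + 2).choose 2 = (d + 2).choose 1 + (d + 2).choose 2 :=
        Nat.choose_succ_succ (d + 2) 1
      rw [h2, Nat.choose_one_right]; omega
  · intro i _ j _ hij
    rw [Function.onFun, Finset.disjoint_left]
    intro α h1 h2
    apply hij
    rw [← (mem_anti (n := 1) α).1 h1, ← (mem_anti (n := 1) α).1 h2]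

theorem pbox_eq (d B : ℕ) : PBox d B = SBox (PS d) B := by
  ext F
  constructor
  · rintro ⟨h1, h2⟩
    refine ⟨h2, fun α hα => ?_⟩
    rw [mem_PS]
    have h3 := le_totalDegree hα
    have h4 : (α.sum fun _ e => e) = α.degree := rfl
    omega
  · rintro ⟨h1, h2⟩
    refine ⟨?_, h1⟩
    unfold totalDegree
    apply Finset.sup_le
    intro α hα
    exact (mem_PS α).1 (h2 hα)

theorem card_pbox (d B : ℕ) : Nat.card (PBox d B) = (2 * B + 1) ^ (d + 2).choose 2 := by
  rw [pbox_eq, card_sbox, card_PS]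

theorem finite_pbox (d B : ℕ) : (PBox d B).Finite := by
  rw [pbox_eq]; exact finite_sbox _ _

theorem pbox_add {d A B : ℕ} {F G : MvPolynomial (Fin 2) ℤ} (hF : F ∈ PBox d A)
    (hG : G ∈ PBox d B) : F + G ∈ PBox d (A + B) := by
  refine ⟨(totalDegree_add _ _).trans (max_le hF.1 hG.1), fun α => ?_⟩
  rw [coeff_add]
  refine (abs_add_le _ _).trans ?_
  push_cast
  exact add_le_add (hF.2 α) (hG.2 α)

theorem pbox_sum {d B : ℕ} {ι : Type} (s : Finset ι) (G : ι → MvPolynomial (Fin 2) ℤ)
    (hG : ∀ i ∈ s, G i ∈ PBox d B) : ∑ i ∈ s, G i ∈ PBox d (#s * B) := by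
  classical
  induction s using Finset.induction_on with
  | empty =>
    simp only [sum_empty, card_empty, zero_mul]
    exact ⟨by simp, fun α => by simp⟩
  | insert a s ha ih =>
    rw [sum_insert ha, card_insert_of_notMem ha]
    have h1 := pbox_add (hG a (mem_insert_self a s)) (ih (fun i hi => hG i (mem_insert_of_mem hi)))
    have h2 : (#s + 1) * B = B + #s * B := by ring
    rw [h2]
    exact h1

theorem pbox_monomial {d B : ℕ} (k : Fin 2) (i : ℕ) (hi : i ≤ d) (a : ℤ) (ha : |a| ≤ B) :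
    monomial (Finsupp.single k i) a ∈ PBox d B := by
  classical
  refine ⟨?_, fun α => ?_⟩
  · refine (totalDegree_monomial_le _ _).trans ?_
    rw [Finsupp.sum_single_index rfl]
    exact hi
  · rw [coeff_monomial]
    split_ifs
    · exact ha
    · simp

theorem eval_single (P : Fin 2 → ℤ) (k : Fin 2) (i : ℕ) (a : ℤ) :
    eval P (monomial (Finsupp.single k i) a) = a * P k ^ i := by
  rw [eval_monomial, Finsupp.prod_single_index (by simp)]

/-- the value of a polynomial in the box. -/
theorem eval_le {d B : ℕ} {F : MvPolynomial (Fin 2) ℤ} (hF : F ∈ PBox d B) (P : Fin 2 → ℤ) (T : ℕ)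
    (hT : 1 ≤ T) (hP : ∀ k, |P k| ≤ T) :
    |eval P F| ≤ ((d + 2).choose 2 * B * T ^ d : ℕ) := by
  rw [pbox_eq] at hF
  rw [eval_eq']
  refine (abs_sum_le_sum_abs _ _).trans ?_
  have h1 : ∀ α ∈ F.support, |F.coeff α * ∏ i, P i ^ α i| ≤ ((B * T ^ d : ℕ) : ℤ) := by
    intro α hα
    rw [abs_mul, abs_prod]
    push_cast
    refine mul_le_mul (hF.1 α) ?_ (by positivity) (by positivity)
    have h2 := (mem_PS α).1 (hF.2 hα)
    rw [Finsupp.degree_eq_sum] at h2
    have h3 : ∏ i, |P i ^ α i| ≤ ∏ i, (T : ℤ) ^ α i := by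
      refine prod_le_prod (fun i _ => abs_nonneg _) (fun i _ => ?_)
      rw [abs_pow]
      exact pow_le_pow_left₀ (abs_nonneg _) (hP i) _
    refine h3.trans ?_
    rw [prod_pow_eq_pow_sum]
    exact pow_le_pow_right₀ (by exact_mod_cast hT) h2
  refine (sum_le_sum h1).trans ?_
  rw [sum_const, nsmul_eq_mul]
  have h2 : #F.support ≤ (d + 2).choose 2 := by
    rw [← card_PS]; exact card_le_card hF.2
  have h3 : ((#F.support : ℕ) : ℤ) ≤ (((d + 2).choose 2 : ℕ) : ℤ) := by exact_mod_cast h2
  push_cast at h3 ⊢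
  rw [mul_assoc]
  exact mul_le_mul_of_nonneg_right h3 (by positivity)

/-- **The modification principle.** -/
theorem modify {d H K : ℕ} (V : Set (MvPolynomial (Fin 2) ℤ)) (hV : V ⊆ PBox d H)
    {M : Type} [Finite M] (G : M → MvPolynomial (Fin 2) ℤ) (hG : ∀ m, G m ∈ PBox d (K * H))
    (hinj : ∀ F ∈ V, ∀ F' ∈ V, ∀ m m', F + G m = F' + G m' → m = m') :
    Nat.card V * Nat.card M ≤ (2 * ((K + 1) * H) + 1) ^ (d + 2).choose 2 := by
  classical
  rw [← card_pbox]
  have hmem : ∀ p : V × M, p.1.1 + G p.2 ∈ PBox d ((K + 1) * H) := by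
    intro p
    have h1 := pbox_add (hV p.1.2) (hG p.2)
    have h2 : (K + 1) * H = H + K * H := by ring
    rw [h2]
    exact h1
  rw [← Nat.card_prod]
  have : Finite (PBox d ((K + 1) * H)) := (finite_pbox _ _).to_subtype
  refine Nat.card_le_card_of_injective (fun p => (⟨_, hmem p⟩ : PBox d ((K + 1) * H))) ?_
  rintro ⟨⟨F, hF⟩, m⟩ ⟨⟨F', hF'⟩, m'⟩ h
  have h1 : F + G m = F' + G m' := congrArg Subtype.val h
  have h3 : m = m' := hinj F hF F' hF' m m' h1
  subst h3
  have h4 : F = F' := add_right_cancel h1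
  subst h4
  rfl

/-- digits: modifications by polynomials in one variable. -/
noncomputable def dig (k : Fin 2) (s e μ H : ℕ) (p : (Fin e → Fin μ) × Fin (H + 1)) :
    MvPolynomial (Fin 2) ℤ :=
  ∑ j : Fin e, monomial (Finsupp.single k (j.1 + s)) ((p.1 j : ℕ) : ℤ) +
    monomial (Finsupp.single k (e + s)) ((p.2 : ℕ) : ℤ)

theorem dig_mem {d : ℕ} (k : Fin 2) (s e μ H : ℕ) (hd : e + s ≤ d) (hμ : μ ≤ H + 1)
    (p : (Fin e → Fin μ) × Fin (H + 1)) : dig k s e μ H p ∈ PBox d ((e + 1) * H) := by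
  have h1 := pbox_sum (d := d) (B := H) (univ : Finset (Fin e))
    (fun j => monomial (Finsupp.single k (j.1 + s)) ((p.1 j : ℕ) : ℤ)) (fun j _ =>
      pbox_monomial k (j.1 + s) (by have := j.2; omega) _ (by
        rw [Nat.abs_cast]; have := (p.1 j).2; exact_mod_cast (by omega : (p.1 j : ℕ) ≤ H)))
  have h2 := pbox_monomial (d := d) (B := H) k (e + s) hd ((p.2 : ℕ) : ℤ) (by
        rw [Nat.abs_cast]; have := p.2.2; exact_mod_cast (by omega : (p.2 : ℕ) ≤ H))
  have h3 := pbox_add h1 h2
  rw [card_univ, Fintype.card_fin] at h3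
  have h4 : (e + 1) * H = e * H + H := by ring
  rw [h4]
  exact h3

theorem dig_eval (P : Fin 2 → ℤ) (k : Fin 2) (s e μ H : ℕ)
    (p : (Fin e → Fin μ) × Fin (H + 1)) : eval P (dig k s e μ H p) =
      P k ^ s * (∑ j : Fin e, P k ^ (j : ℕ) * ((p.1 j : ℕ) : ℤ) + P k ^ e * ((p.2 : ℕ) : ℤ)) := by
  unfold dig
  rw [map_add, map_sum, eval_single, mul_add, mul_sum]
  congr 1
  · refine sum_congr rfl (fun j _ => ?_)
    rw [eval_single, pow_add]; ring
  · rw [pow_add]; ring

theorem dig_inj (P : Fin 2 → ℤ) (k : Fin 2) (s e H q : ℕ) (hq : |P k| = q) (hq1 : 1 ≤ q)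
    (μ : ℕ) (hμ : μ ≤ q) (p p' : (Fin e → Fin μ) × Fin (H + 1))
    (h : eval P (dig k s e μ H p) = eval P (dig k s e μ H p')) : p = p' := by
  have hb : P k ≠ 0 := by
    intro h0
    rw [h0, abs_zero] at hq
    omega
  rw [dig_eval, dig_eval] at h
  have h1 := mul_left_cancel₀ (pow_ne_zero s hb) h
  have h2 := digits (P k) hb e (fun j => ((p.1 j : ℕ) : ℤ) - ((p'.1 j : ℕ) : ℤ))
    (((p.2 : ℕ) : ℤ) - ((p'.2 : ℕ) : ℤ)) (fun j hj => by
      have h3 : (q : ℤ) ∣ ((p.1 j : ℕ) : ℤ) - ((p'.1 j : ℕ) : ℤ) := by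
        rw [← hq]; exact (abs_dvd _ _).2 hj
      apply Int.eq_zero_of_abs_lt_dvd h3
      rw [abs_lt]
      have h4 := (p.1 j).2
      have h5 := (p'.1 j).2
      constructor <;> omega) (by
      have h3 : ∑ j : Fin e, P k ^ (j : ℕ) * (((p.1 j : ℕ) : ℤ) - ((p'.1 j : ℕ) : ℤ)) =
          ∑ j : Fin e, P k ^ (j : ℕ) * ((p.1 j : ℕ) : ℤ) -
          ∑ j : Fin e, P k ^ (j : ℕ) * ((p'.1 j : ℕ) : ℤ) := by
        rw [← sum_sub_distrib]
        exact sum_congr rfl (fun j _ => by ring)
      rw [h3]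
      linarith)
  refine Prod.ext (funext fun j => Fin.ext ?_) (Fin.ext ?_)
  · have := h2.1 j
    omega
  · have := h2.2
    omega

/-- L1: one point. -/
theorem count_pt (d H : ℕ) (P : Fin 2 → ℤ) (k : Fin 2) (q : ℕ) (hq : |P k| = q) (hq1 : 1 ≤ q) :
    Nat.card {F | F ∈ PBox d H ∧ eval P F = 0} * (min (H + 1) q ^ d * (H + 1)) ≤
      (2 * ((d + 2) * H) + 1) ^ (d + 2).choose 2 := by
  have h := modify (d := d) (H := H) (K := d + 1) {F | F ∈ PBox d H ∧ eval P F = 0}
    (fun F hF => hF.1) (dig k 0 d (min (H + 1) q) H)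
    (dig_mem k 0 d _ H (by omega) (min_le_left _ _)) (by
      intro F hF F' hF' m m' h
      apply dig_inj P k 0 d H q hq hq1 _ (min_le_right _ _)
      have h1 := congrArg (eval P) h
      have h21 : eval P (F + dig k 0 d (min (H + 1) q) H m) =
        eval P F + eval P (dig k 0 d (min (H + 1) q) H m) := map_add _ _ _
      have h22 : eval P (F' + dig k 0 d (min (H + 1) q) H m') =
        eval P F' + eval P (dig k 0 d (min (H + 1) q) H m') := map_add _ _ _
      rw [h21, h22, hF.2, hF'.2, zero_add, zero_add] at h1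
      exact h1)
  rw [Nat.card_prod, Nat.card_fun, Nat.card_fin, Nat.card_fin, Nat.card_fin] at h
  exact h

/-- L1 at the origin. -/
theorem count_origin (d H : ℕ) (P : Fin 2 → ℤ) :
    Nat.card {F | F ∈ PBox d H ∧ eval P F = 0} * (H + 1) ≤
      (2 * (2 * H) + 1) ^ (d + 2).choose 2 := by
  have h := modify (d := d) (H := H) (K := 1) {F | F ∈ PBox d H ∧ eval P F = 0}
    (fun F hF => hF.1) (fun m : Fin (H + 1) => monomial (Finsupp.single 0 0) ((m : ℕ) : ℤ))
    (fun m => pbox_monomial 0 0 (by omega) _ (by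
      rw [one_mul, Nat.abs_cast]; have := m.2; exact_mod_cast (by omega : (m : ℕ) ≤ H))) (by
      intro F hF F' hF' m m' h
      have h1 := congrArg (eval P) h
      have h21 : ∀ (F : MvPolynomial (Fin 2) ℤ) (m : Fin (H + 1)),
          eval P (F + monomial (Finsupp.single 0 0) ((m : ℕ) : ℤ)) = eval P F + ((m : ℕ) : ℤ) := by
        intro F m
        rw [map_add, eval_single, pow_zero, mul_one]
      simp only [h21] at h1
      rw [hF.2, hF'.2, zero_add, zero_add] at h1
      exact Fin.ext (by exact_mod_cast h1))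
  rw [Nat.card_fin] at h
  exact h

/-- L4: two points. -/
theorem count_two (d H : ℕ) (hd : 1 ≤ d) (P P' : Fin 2 → ℤ) (hne : P ≠ P') :
    Nat.card {F | F ∈ PBox d H ∧ eval P F = 0 ∧ eval P' F = 0} * ((H + 1) * (H + 1)) ≤
      (2 * (3 * H) + 1) ^ (d + 2).choose 2 := by
  obtain ⟨k, hk⟩ := Function.ne_iff.1 hne
  have h := modify (d := d) (H := H) (K := 2)
    {F | F ∈ PBox d H ∧ eval P F = 0 ∧ eval P' F = 0}
    (fun F hF => hF.1) (fun m : Fin (H + 1) × Fin (H + 1) =>
      monomial (Finsupp.single k 0) ((m.1 : ℕ) : ℤ) + monomial (Finsupp.single k 1) ((m.2 : ℕ) : ℤ))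
    (fun m => by
      have h1 := pbox_add (pbox_monomial (d := d) (B := H) k 0 (by omega) ((m.1 : ℕ) : ℤ) (by
        rw [Nat.abs_cast]; have := m.1.2; exact_mod_cast (by omega : (m.1 : ℕ) ≤ H)))
        (pbox_monomial (d := d) (B := H) k 1 hd ((m.2 : ℕ) : ℤ) (by
        rw [Nat.abs_cast]; have := m.2.2; exact_mod_cast (by omega : (m.2 : ℕ) ≤ H)))
      rw [two_mul]
      exact h1) (by
      intro F hF F' hF' m m' h
      have h21 : ∀ (Q : Fin 2 → ℤ) (F : MvPolynomial (Fin 2) ℤ) (m : Fin (H + 1) × Fin (H + 1)),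
          eval Q (F + (monomial (Finsupp.single k 0) ((m.1 : ℕ) : ℤ) +
            monomial (Finsupp.single k 1) ((m.2 : ℕ) : ℤ))) =
          eval Q F + (((m.1 : ℕ) : ℤ) + ((m.2 : ℕ) : ℤ) * Q k) := by
        intro Q F m
        rw [map_add, map_add, eval_single, eval_single, pow_zero, mul_one, pow_one]
      have h1 := congrArg (eval P) h
      have h2 := congrArg (eval P') h
      simp only [h21] at h1 h2
      rw [hF.2.1, hF'.2.1, zero_add, zero_add] at h1
      rw [hF.2.2, hF'.2.2, zero_add, zero_add] at h2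
      have h3 : (((m.2 : ℕ) : ℤ) - ((m'.2 : ℕ) : ℤ)) * (P k - P' k) = 0 := by
        linear_combination h1 - h2
      have h4 : ((m.2 : ℕ) : ℤ) = ((m'.2 : ℕ) : ℤ) := by
        rcases mul_eq_zero.1 h3 with h5 | h5
        · linarith
        · exact absurd (by linarith) hk
      rw [h4] at h1
      have h6 : ((m.1 : ℕ) : ℤ) = ((m'.1 : ℕ) : ℤ) := by linarith
      exact Prod.ext (Fin.ext (by exact_mod_cast h6)) (Fin.ext (by exact_mod_cast h4)))
  rw [Nat.card_prod, Nat.card_fin] at h
  exact h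

theorem eval_add' (Q : Fin 2 → ℤ) (F G : MvPolynomial (Fin 2) ℤ) :
    eval Q (F + G) = eval Q F + eval Q G := map_add _ _ _

/-- L3: `F(x, 0) = F(x, y) = 0` with `|y| > H`. -/
theorem count_zero {ι : Type} [Finite ι] (d H K : ℕ) (hd : 1 ≤ d) (P : Fin 2 → ℤ) (k : Fin 2)
    (q : ℕ) (hq : |P k| = q) (hq1 : H + 1 ≤ q) (A : ι → MvPolynomial (Fin 2) ℤ)
    (hA : ∀ i, A i ∈ PBox d (K * H))
    (hAinj : ∀ i j, eval (Function.update P k 0) (A i) = eval (Function.update P k 0) (A j) →
      i = j) :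
    Nat.card {F | F ∈ PBox d H ∧ eval P F = 0 ∧ eval (Function.update P k 0) F = 0} *
      (Nat.card ι * (H + 1) ^ d) ≤ (2 * ((K + d + 1) * H) + 1) ^ (d + 2).choose 2 := by
  have h := modify (d := d) (H := H) (K := K + d)
    {F | F ∈ PBox d H ∧ eval P F = 0 ∧ eval (Function.update P k 0) F = 0}
    (fun F hF => hF.1) (fun p : ι × ((Fin (d - 1) → Fin (H + 1)) × Fin (H + 1)) =>
      A p.1 + dig k 1 (d - 1) (H + 1) H p.2)
    (fun p => by
      have h1 := pbox_add (hA p.1) (dig_mem (d := d) k 1 (d - 1) (H + 1) H (by omega) le_rfl p.2)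
      have h2 : (K + d) * H = K * H + (d - 1 + 1) * H := by
        rw [Nat.sub_add_cancel hd]; ring
      rw [h2]
      exact h1) (by
      intro F hF F' hF' m m' h
      have hz : ∀ m, eval (Function.update P k 0) (dig k 1 (d - 1) (H + 1) H m) = 0 := by
        intro m
        rw [dig_eval, Function.update_self]
        ring
      have h1 := congrArg (eval (Function.update P k 0)) h
      rw [eval_add', eval_add', eval_add', eval_add', hF.2.2, hF'.2.2, hz, hz] at h1
      have h2 := hAinj m.1 m'.1 (by linarith)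
      have h3 := congrArg (eval P) h
      rw [eval_add', eval_add', eval_add', eval_add', hF.2.1, hF'.2.1, h2] at h3
      have h4 := dig_inj P k 1 (d - 1) H q hq (by omega) (H + 1) hq1 m.2 m'.2 (by linarith)
      exact Prod.ext h2 h4)
  rw [Nat.card_prod, Nat.card_prod, Nat.card_fun, Nat.card_fin, Nat.card_fin, ← pow_succ,
    Nat.sub_add_cancel hd] at h
  exact h

/-- L2: `F(x, 0) ≠ 0 = F(x, y)`, summed over `|y| > H`. -/
theorem count_div (d H : ℕ) (hd : 1 ≤ d) (P : Fin 2 → ℤ) (k : Fin 2) (T : ℕ) (hT : 1 ≤ T)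
    (hPT : ∀ j, |Function.update P k 0 j| ≤ T) (τ : ℕ)
    (hτ : ∀ m : ℕ, 1 ≤ m → m ≤ (d + 2).choose 2 * H * T ^ d → #m.divisors ≤ τ)
    (Y : Finset ℤ) (hY : ∀ y ∈ Y, (H : ℤ) + 1 ≤ |y|) :
    (∑ y ∈ Y, Nat.card {F | F ∈ PBox d H ∧ eval (Function.update P k y) F = 0 ∧
      eval (Function.update P k 0) F ≠ 0}) * (H + 1) ^ d ≤
      2 * τ * (2 * ((d + 1) * H) + 1) ^ (d + 2).choose 2 := by
  classical
  let V : ℤ → Set (MvPolynomial (Fin 2) ℤ) := fun y =>
    {F | F ∈ PBox d H ∧ eval (Function.update P k y) F = 0 ∧ eval (Function.update P k 0) F ≠ 0}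
  have hVfin : ∀ y, (V y).Finite := fun y => (finite_pbox d H).subset (fun F hF => hF.1)
  let D := (Fin (d - 1) → Fin (H + 1)) × Fin (H + 1)
  let s : Finset (Σ _ : ℤ, MvPolynomial (Fin 2) ℤ × D) :=
    Y.sigma (fun y => (hVfin y).toFinset ×ˢ (univ : Finset D))
  have hs : #s = (∑ y ∈ Y, Nat.card (V y)) * (H + 1) ^ d := by
    simp only [s]
    rw [card_sigma, sum_mul]
    refine sum_congr rfl (fun y _ => ?_)
    rw [card_product, card_univ, Fintype.card_prod, Fintype.card_fun, Fintype.card_fin,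
      Fintype.card_fin, ← pow_succ, Nat.sub_add_cancel hd, Nat.card_coe_set_eq,
      Set.ncard_eq_toFinset_card _ (hVfin y)]
  let f : (Σ _ : ℤ, MvPolynomial (Fin 2) ℤ × D) → MvPolynomial (Fin 2) ℤ := fun t =>
    t.2.1 + dig k 1 (d - 1) (H + 1) H t.2.2
  have hz : ∀ m, eval (Function.update P k 0) (dig k 1 (d - 1) (H + 1) H m) = 0 := by
    intro m
    rw [dig_eval, Function.update_self]
    ring
  have himg : #(s.image f) ≤ (2 * ((d + 1) * H) + 1) ^ (d + 2).choose 2 := by
    rw [← card_pbox, Nat.card_coe_set_eq, Set.ncard_eq_toFinset_card _ (finite_pbox _ _)]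
    apply card_le_card
    intro G hG
    rw [mem_image] at hG
    obtain ⟨t, ht, rfl⟩ := hG
    rw [Set.Finite.mem_toFinset]
    simp only [s, mem_sigma, mem_product, Set.Finite.mem_toFinset] at ht
    have h1 := pbox_add ht.2.1.1 (dig_mem (d := d) k 1 (d - 1) (H + 1) H (by omega) le_rfl t.2.2)
    have h2 : (d + 1) * H = H + (d - 1 + 1) * H := by
      rw [Nat.sub_add_cancel hd]; ring
    rw [h2]
    exact h1
  have hfib : ∀ G ∈ s.image f, #{t ∈ s | f t = G} ≤ 2 * τ := by
    intro G hG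
    by_cases hG0 : ∃ t ∈ s, f t = G
    · obtain ⟨t0, ht0, ht0G⟩ := hG0
      simp only [s, mem_sigma, mem_product, Set.Finite.mem_toFinset] at ht0
      set g := eval (Function.update P k 0) G with hg
      have hgt : ∀ t ∈ s, f t = G → eval (Function.update P k 0) t.2.1 = g := by
        intro t _ ht
        rw [hg, ← ht]
        simp only [f]
        rw [eval_add', hz, add_zero]
      have hg0 : g ≠ 0 := by
        rw [← hgt t0 (by simp only [s, mem_sigma, mem_product, Set.Finite.mem_toFinset]; exact ht0)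
          ht0G]
        exact ht0.2.1.2.2
      have hgle : g.natAbs ≤ (d + 2).choose 2 * H * T ^ d := by
        have h1 := eval_le ht0.2.1.1 (Function.update P k 0) T hT hPT
        rw [hgt t0 (by simp only [s, mem_sigma, mem_product, Set.Finite.mem_toFinset]; exact ht0)
          ht0G] at h1
        have h2 : ((g.natAbs : ℕ) : ℤ) ≤ (((d + 2).choose 2 * H * T ^ d : ℕ) : ℤ) := by
          rw [Int.natCast_natAbs]; exact h1
        exact_mod_cast h2
      let E : Finset ℤ := (g.natAbs.divisors.image (fun k : ℕ => (k : ℤ))) ∪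
        (g.natAbs.divisors.image (fun k : ℕ => -(k : ℤ)))
      have hE : #E ≤ 2 * τ := by
        refine (card_union_le _ _).trans ?_
        have h1 := card_image_le (s := g.natAbs.divisors) (f := fun k : ℕ => (k : ℤ))
        have h2 := card_image_le (s := g.natAbs.divisors) (f := fun k : ℕ => -(k : ℤ))
        have h3 := hτ g.natAbs (Int.natAbs_pos.2 hg0) hgle
        omega
      refine le_trans ?_ hE
      apply card_le_card_of_injOn (fun t => t.1)
      · intro t ht
        rw [coe_filter] at ht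
        obtain ⟨ht1, ht2⟩ := ht
        have h3 := hgt t ht1 ht2
        simp only [s, mem_sigma, mem_product, Set.Finite.mem_toFinset] at ht1
        have h4 : t.1 ∣ g := by
          rw [← h3]
          have h5 : t.1 ∣ eval (Function.update P k t.1) t.2.1 -
              eval (Function.update P k 0) t.2.1 := by
            rw [eval_eq', eval_eq', ← sum_sub_distrib]
            refine dvd_sum (fun α _ => ?_)
            rw [← mul_sub]
            refine Dvd.dvd.mul_left ?_ _
            have h6 : ∀ c : ℤ, ∏ i, (Function.update P k c) i ^ α i =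
                c ^ α k * ∏ i ∈ univ.erase k, P i ^ α i := by
              intro c
              rw [← mul_prod_erase univ _ (mem_univ k), Function.update_self]
              congr 1
              refine prod_congr rfl (fun i hi => ?_)
              rw [Function.update_of_ne (ne_of_mem_erase hi)]
            rw [h6, h6, ← sub_mul]
            refine Dvd.dvd.mul_right ?_ _
            have := sub_dvd_pow_sub_pow t.1 0 (α k)
            rwa [sub_zero] at this
          rw [ht1.2.1.2.1, zero_sub, dvd_neg] at h5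
          exact h5
        have h7 : t.1.natAbs ∈ g.natAbs.divisors :=
          Nat.mem_divisors.2 ⟨Int.natAbs_dvd_natAbs.2 h4, by rw [Int.natAbs_ne_zero]; exact hg0⟩
        simp only [E, coe_union, coe_image, Set.mem_union, Set.mem_image]
        rcases Int.natAbs_eq t.1 with h8 | h8
        · left; exact ⟨_, h7, h8.symm⟩
        · right; exact ⟨_, h7, h8.symm⟩
      · intro t ht t' ht' htt
        rw [coe_filter] at ht ht'
        obtain ⟨y, F, m⟩ := t
        obtain ⟨y', F', m'⟩ := t'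
        simp only at htt
        subst htt
        obtain ⟨ht1, ht2⟩ := ht
        obtain ⟨ht1', ht2'⟩ := ht'
        simp only [s, mem_sigma, mem_product, Set.Finite.mem_toFinset] at ht1 ht1'
        have h1 : f ⟨y, F, m⟩ = f ⟨y, F', m'⟩ := by rw [ht2, ht2']
        simp only [f] at h1
        have h2 := congrArg (eval (Function.update P k y)) h1
        rw [eval_add', eval_add', ht1.2.1.2.1, ht1'.2.1.2.1, zero_add, zero_add] at h2
        have hyq := hY y ht1.1
        rw [Int.abs_eq_natAbs] at hyq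
        have h3 : m = m' := dig_inj (Function.update P k y) k 1 (d - 1) H y.natAbs (by
          rw [Function.update_self, Int.natCast_natAbs]) (by omega) (H + 1) (by omega) m m' h2
        subst h3
        have h4 : F = F' := add_right_cancel h1
        subst h4
        rfl
    · push Not at hG0
      rw [filter_false_of_mem (fun t ht => hG0 t ht)]
      simp
  rw [← hs]
  exact (card_le_mul_card_image s (2 * τ) hfib).trans (Nat.mul_le_mul_left _ himg)

end Pool.Agent.Q256.UP
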