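import Mathlib
import Pool.Agent.Q256.UP.PlA
import Pool.Agent.H510R2.Div

set_option autoImplicit false

namespace Pool.Agent.Q256.UP

open Finset MvPolynomial Pool.Agent.Q256.CI

/-- union bound. -/
theorem card_le_sum {α ι : Type} (S : Set α) (I : Finset ι) (A : ι → Set α)
    (hfin : ∀ i ∈ I, (A i).Finite) (h : ∀ F ∈ S, ∃ i ∈ I, F ∈ A i) :
    (Nat.card S : ℝ) ≤ ∑ i ∈ I, (Nat.card (A i) : ℝ) := by
  classical
  have hS : S ⊆ ⋃ i ∈ I, A i := by
    intro F hF
    obtain ⟨i, hi, hFi⟩ := h F hF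
    exact Set.mem_biUnion hi hFi
  have hfin2 : (⋃ i ∈ I, A i).Finite := Set.Finite.biUnion I.finite_toSet hfin
  have h1 : Nat.card S ≤ ∑ i ∈ I, Nat.card (A i) := by
    simp only [Nat.card_coe_set_eq]
    refine (Set.ncard_le_ncard hS hfin2).trans ?_
    clear hS h hfin2
    induction I using Finset.induction_on with
    | empty => simp
    | insert a s ha ih =>
      rw [sum_insert ha, Finset.set_biUnion_insert]
      refine (Set.ncard_union_le _ _).trans ?_
      exact Nat.add_le_add_left (ih (fun i hi => hfin i (mem_insert_of_mem hi))) _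
  exact_mod_cast h1

/-- the point with `k`-th coordinate `y` and other coordinate `x`. -/
def pt (k : Fin 2) (x y : ℤ) : Fin 2 → ℤ := Function.update (fun _ => x) k y

theorem exists_pt (P : Fin 2 → ℤ) : ∃ k x y, P = pt k x y ∧ |x| ≤ |y| ∧ max |P 0| |P 1| = |y| := by
  rcases le_total |P 0| |P 1| with h | h
  · refine ⟨1, P 0, P 1, ?_, h, max_eq_right h⟩
    funext j
    fin_cases j <;> simp [pt]
  · refine ⟨0, P 1, P 0, ?_, h, max_eq_left h⟩
    funext j
    fin_cases j <;> simp [pt]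

theorem real_of_nat {A M c H N : ℕ} (hH : 1 ≤ H) (hN : 1 ≤ N) (h : A * (M * (H + 1)) ≤
    (2 * (c * H) + 1) ^ N) (hM : 1 ≤ M) :
    (A : ℝ) ≤ (2 * c + 1 : ℝ) ^ N * (H : ℝ) ^ (N - 1) * (M : ℝ)⁻¹ := by
  have hH0 : (0 : ℝ) < H := by exact_mod_cast hH
  have hM0 : (0 : ℝ) < M := by exact_mod_cast hM
  have h1 : (A : ℝ) * (M * H) ≤ ((2 * c + 1 : ℝ) * H) ^ N := by
    have h2 : ((A * (M * (H + 1)) : ℕ) : ℝ) ≤ (((2 * (c * H) + 1) ^ N : ℕ) : ℝ) := by
      exact_mod_cast h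
    push_cast at h2
    have h3 : (1 : ℝ) ≤ H := by exact_mod_cast hH
    calc (A : ℝ) * (M * H) ≤ A * (M * (H + 1)) := by
          apply mul_le_mul_of_nonneg_left _ (Nat.cast_nonneg _)
          apply mul_le_mul_of_nonneg_left _ hM0.le
          linarith
      _ ≤ (2 * (c * H) + 1 : ℝ) ^ N := h2
      _ ≤ _ := by
          apply pow_le_pow_left₀ (by positivity)
          nlinarith
  rw [mul_pow] at h1
  have h4 : (H : ℝ) ^ N = (H : ℝ) ^ (N - 1) * H := by
    rw [← pow_succ, Nat.sub_add_cancel hN]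
  rw [h4] at h1
  rw [← div_eq_mul_inv, le_div_iff₀ hM0]
  have h5 : (A * M : ℝ) * H ≤ ((2 * c + 1 : ℝ) ^ N * (H : ℝ) ^ (N - 1)) * H := by
    calc (A * M : ℝ) * H = A * (M * H) := by ring
      _ ≤ _ := h1
      _ = _ := by ring
  exact le_of_mul_le_mul_right h5 hH0

theorem one_le_choose (d : ℕ) : 1 ≤ (d + 2).choose 2 := Nat.choose_pos (by omega)

theorem real_pt (d H : ℕ) (hH : 1 ≤ H) (P : Fin 2 → ℤ) (k : Fin 2) (q : ℕ) (hq : |P k| = q)
    (hqH : q ≤ H) :
    (Nat.card {F | F ∈ PBox d H ∧ eval P F = 0} : ℝ) ≤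
      ((2 * d + 5 : ℝ) ^ (d + 2).choose 2 * 2 ^ d) * (H : ℝ) ^ ((d + 2).choose 2 - 1) *
        (((q : ℝ) + 1) ^ d)⁻¹ := by
  rcases Nat.eq_zero_or_pos q with h0 | h1
  · subst h0
    have h := count_origin d H P
    have h0 : Nat.card {F | F ∈ PBox d H ∧ eval P F = 0} * (1 * (H + 1)) ≤
      (2 * (2 * H) + 1) ^ (d + 2).choose 2 := by rw [one_mul]; exact h
    have h2 := real_of_nat (M := 1) hH (one_le_choose d) h0 le_rfl
    refine h2.trans ?_
    simp only [CharP.cast_eq_zero, zero_add, one_pow, inv_one, mul_one, Nat.cast_one, Nat.cast_ofNat]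
    apply mul_le_mul_of_nonneg_right _ (by positivity)
    calc (2 * 2 + 1 : ℝ) ^ (d + 2).choose 2 ≤ (2 * d + 5 : ℝ) ^ (d + 2).choose 2 := by
          apply pow_le_pow_left₀ (by norm_num)
          have : (0 : ℝ) ≤ d := Nat.cast_nonneg _
          linarith
      _ = (2 * d + 5 : ℝ) ^ (d + 2).choose 2 * 1 := (mul_one _).symm
      _ ≤ _ := mul_le_mul_of_nonneg_left (one_le_pow₀ (by norm_num)) (by positivity)
  · have h := count_pt d H P k q hq h1
    rw [min_eq_right (by omega)] at h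
    have h2 := real_of_nat hH (one_le_choose d) h (Nat.one_le_pow _ _ h1)
    refine h2.trans ?_
    have hq0 : (1 : ℝ) ≤ q := by exact_mod_cast h1
    have h3 : (((q ^ d : ℕ) : ℝ))⁻¹ ≤ 2 ^ d * (((q : ℝ) + 1) ^ d)⁻¹ := by
      push_cast
      rw [← div_eq_mul_inv, le_div_iff₀ (by positivity), inv_mul_le_iff₀ (by positivity),
        ← mul_pow]
      exact pow_le_pow_left₀ (by positivity) (by linarith) _
    have h4 : (2 * ((d + 2 : ℕ) : ℝ) + 1) = 2 * d + 5 := by push_cast; ring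
    rw [h4]
    calc (2 * d + 5 : ℝ) ^ (d + 2).choose 2 * (H : ℝ) ^ ((d + 2).choose 2 - 1) *
          (((q ^ d : ℕ) : ℝ))⁻¹ ≤ (2 * d + 5 : ℝ) ^ (d + 2).choose 2 *
          (H : ℝ) ^ ((d + 2).choose 2 - 1) * (2 ^ d * (((q : ℝ) + 1) ^ d)⁻¹) :=
          mul_le_mul_of_nonneg_left h3 (by positivity)
      _ = _ := by ring

theorem real_two (d H : ℕ) (hd : 1 ≤ d) (hH : 1 ≤ H) (P P' : Fin 2 → ℤ) (hne : P ≠ P') :
    (Nat.card {F | F ∈ PBox d H ∧ eval P F = 0 ∧ eval P' F = 0} : ℝ) ≤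
      (7 : ℝ) ^ (d + 2).choose 2 * (H : ℝ) ^ ((d + 2).choose 2 - 1) * (H : ℝ)⁻¹ := by
  have h := real_of_nat hH (one_le_choose d) (count_two d H hd P P' hne) (by omega)
  refine h.trans ?_
  have hH0 : (0 : ℝ) < H := by exact_mod_cast hH
  have h1 : (2 * ((3 : ℕ) : ℝ) + 1) = 7 := by norm_num
  rw [h1]
  apply mul_le_mul_of_nonneg_left _ (by positivity)
  apply inv_anti₀ hH0
  push_cast
  linarith

theorem real_zero (d H : ℕ) (hd : 2 ≤ d) (hH : 1 ≤ H) (k : Fin 2) (x y : ℤ)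
    (hy : (H : ℤ) + 1 ≤ |y|) :
    (Nat.card {F | F ∈ PBox d H ∧ eval (pt k x y) F = 0 ∧ eval (pt k x 0) F = 0} : ℝ) ≤
      (4 * d + 5 : ℝ) ^ (d + 2).choose 2 * (H : ℝ) ^ ((d + 2).choose 2 - 1) *
        (((H : ℝ) ^ d)⁻¹ * (4 * ((((x.natAbs : ℕ) : ℝ) + 1) ^ 2)⁻¹ + ((H : ℝ) ^ d)⁻¹)) := by
  have hH0 : (0 : ℝ) < H := by exact_mod_cast hH
  have hup : ∀ c, Function.update (pt k x y) k c = pt k x c := by
    intro c; unfold pt; rw [Function.update_idem]
  have hptk : ∀ c, pt k x c k = c := fun c => by unfold pt; rw [Function.update_self]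
  obtain ⟨l, hl⟩ : ∃ l : Fin 2, l ≠ k := ⟨k + 1, by fin_cases k <;> simp⟩
  have hptl : ∀ c, pt k x c l = x := fun c => by
    unfold pt; rw [Function.update_of_ne hl]
  have hyq : |pt k x y k| = y.natAbs := by rw [hptk, Int.abs_eq_natAbs]
  have hyq2 : H + 1 ≤ y.natAbs := by
    rw [Int.abs_eq_natAbs] at hy; exact_mod_cast hy
  rcases eq_or_ne x 0 with hx | hx
  · subst hx
    have h := count_zero (ι := Fin (H + 1)) d H 1 (by omega) (pt k 0 y) k y.natAbs hyq hyq2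
      (fun m : Fin (H + 1) => monomial (Finsupp.single 0 0) ((m : ℕ) : ℤ))
      (fun m => pbox_monomial 0 0 (by omega) _ (by
        rw [one_mul, Nat.abs_cast]; have := m.2; exact_mod_cast (by omega : (m : ℕ) ≤ H))) (by
        intro i j hij
        rw [eval_single, eval_single, pow_zero, mul_one, mul_one] at hij
        exact Fin.ext (by exact_mod_cast hij))
    rw [hup, Nat.card_fin, mul_comm (H + 1) ((H + 1) ^ d)] at h
    have h2 := real_of_nat hH (one_le_choose d) h (Nat.one_le_pow _ _ (by omega))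
    refine h2.trans ?_
    have h3 : (2 * ((1 + d + 1 : ℕ) : ℝ) + 1) = 2 * d + 5 := by push_cast; ring
    rw [h3]
    have h4 : (2 * d + 5 : ℝ) ^ (d + 2).choose 2 ≤ (4 * d + 5 : ℝ) ^ (d + 2).choose 2 := by
      apply pow_le_pow_left₀ (by positivity)
      have : (0 : ℝ) ≤ d := Nat.cast_nonneg _
      linarith
    have h5 : (((H + 1) ^ d : ℕ) : ℝ)⁻¹ ≤ ((H : ℝ) ^ d)⁻¹ * (4 * (((((0 : ℤ).natAbs : ℕ) : ℝ) + 1) ^
        2)⁻¹ + ((H : ℝ) ^ d)⁻¹) := by
      have h6 : (((H + 1) ^ d : ℕ) : ℝ)⁻¹ ≤ ((H : ℝ) ^ d)⁻¹ * 1 := by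
        rw [mul_one]
        apply inv_anti₀ (by positivity)
        push_cast
        exact pow_le_pow_left₀ hH0.le (by linarith) _
      refine h6.trans (mul_le_mul_of_nonneg_left ?_ (by positivity))
      have h7 : (0 : ℝ) ≤ ((H : ℝ) ^ d)⁻¹ := by positivity
      simp only [Int.natAbs_zero, CharP.cast_eq_zero, zero_add, one_pow, inv_one, mul_one]
      linarith
    exact mul_le_mul (mul_le_mul_of_nonneg_right h4 (by positivity)) h5 (by positivity)
      (by positivity)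
  · have hx1 : 1 ≤ x.natAbs := Int.natAbs_pos.2 hx
    have h := count_zero (ι := (Fin d → Fin (min (H + 1) x.natAbs)) × Fin (H + 1)) d H (d + 1)
      (by omega) (pt k x y) k y.natAbs hyq hyq2
      (dig l 0 d (min (H + 1) x.natAbs) H)
      (dig_mem l 0 d _ H (by omega) (min_le_left _ _)) (by
        intro i j hij
        rw [hup] at hij
        exact dig_inj (pt k x 0) l 0 d H x.natAbs (by rw [hptl, Int.abs_eq_natAbs]) hx1 _
          (min_le_right _ _) i j hij)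
    rw [hup, Nat.card_prod, Nat.card_fun, Nat.card_fin, Nat.card_fin, Nat.card_fin] at h
    have h1 : min (H + 1) x.natAbs ^ d * (H + 1) * (H + 1) ^ d =
        (min (H + 1) x.natAbs ^ d * (H + 1) ^ d) * (H + 1) := by ring
    rw [h1] at h
    have hmin : 1 ≤ min (H + 1) x.natAbs := le_min (by omega) hx1
    have h2 := real_of_nat hH (one_le_choose d) h (Nat.one_le_iff_ne_zero.2 (by positivity))
    refine h2.trans ?_
    have h3 : (2 * ((d + 1 + d + 1 : ℕ) : ℝ) + 1) = 4 * d + 5 := by push_cast; ring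
    rw [h3]
    apply mul_le_mul_of_nonneg_left _ (by positivity)
    push_cast
    rw [mul_inv, mul_comm]
    have hxr : (1 : ℝ) ≤ ((x.natAbs : ℕ) : ℝ) := by exact_mod_cast hx1
    apply mul_le_mul
    · apply inv_anti₀ (by positivity)
      exact pow_le_pow_left₀ hH0.le (by linarith) _
    · have h7 : (((x.natAbs : ℕ) : ℝ) ^ d)⁻¹ ≤ 4 * ((((x.natAbs : ℕ) : ℝ) + 1) ^ 2)⁻¹ := by
        rw [← div_eq_mul_inv, le_div_iff₀ (by positivity), inv_mul_le_iff₀ (by positivity)]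
        have h9 : ((x.natAbs : ℕ) : ℝ) ^ 2 ≤ ((x.natAbs : ℕ) : ℝ) ^ d :=
          pow_le_pow_right₀ hxr hd
        nlinarith
      rcases le_total (H + 1) x.natAbs with h8 | h8
      · rw [min_eq_left (by exact_mod_cast h8)]
        have h9 : (((H : ℝ) + 1) ^ d)⁻¹ ≤ ((H : ℝ) ^ d)⁻¹ :=
          inv_anti₀ (by positivity) (pow_le_pow_left₀ hH0.le (by linarith) _)
        have h10 : (0 : ℝ) ≤ 4 * ((((x.natAbs : ℕ) : ℝ) + 1) ^ 2)⁻¹ := by positivity
        linarith
      · rw [min_eq_right (by exact_mod_cast h8)]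
        have h10 : (0 : ℝ) ≤ ((H : ℝ) ^ d)⁻¹ := by positivity
        linarith
    · positivity
    · positivity

end Pool.Agent.Q256.UP
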