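import Mathlib
import Pool.Agent.Q256.UP.PlB

set_option autoImplicit false

namespace Pool.Agent.Q256.UP

open Finset MvPolynomial Pool.Agent.Q256.CI

/-- polynomials of the box with an integral zero of size in `(R, T]`. -/
def ZS (d H R T : ℕ) : Set (MvPolynomial (Fin 2) ℤ) :=
  {F | F ∈ PBox d H ∧ ∃ P : Fin 2 → ℤ, (R : ℤ) < max |P 0| |P 1| ∧ max |P 0| |P 1| ≤ T ∧
    eval P F = 0}

/-- polynomials of the box with two different integral zeros of size at most `T`. -/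
def Z2 (d H T : ℕ) : Set (MvPolynomial (Fin 2) ℤ) :=
  {F | F ∈ PBox d H ∧ ∃ P P' : Fin 2 → ℤ, P ≠ P' ∧ max |P 0| |P 1| ≤ T ∧ max |P' 0| |P' 1| ≤ T ∧
    eval P F = 0 ∧ eval P' F = 0}

theorem sumA (R H : ℕ) : ∑ q ∈ Ioc R H, (((q : ℝ) + 1) ^ 2)⁻¹ ≤ 2 / ((R : ℝ) + 1) := by
  have h := sum_Ioo_inv_sq_le (α := ℝ) (R + 1) (H + 2)
  have h1 : ∑ q ∈ Ioc R H, (((q : ℝ) + 1) ^ 2)⁻¹ =
      ∑ i ∈ Ioo (R + 1) (H + 2), ((i : ℝ) ^ 2)⁻¹ := by
    refine sum_nbij' (fun q => q + 1) (fun i => i - 1) ?_ ?_ ?_ ?_ ?_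
    · intro q hq; rw [mem_Ioc] at hq; rw [mem_Ioo]; omega
    · intro i hi; rw [mem_Ioo] at hi; rw [mem_Ioc]; omega
    · intro q _; simp
    · intro i hi; rw [mem_Ioo] at hi; show i - 1 + 1 = i; omega
    · intro q _; push_cast; rfl
  rw [h1]
  refine h.trans ?_
  push_cast
  apply div_le_div_of_nonneg_left (by norm_num) (by positivity)
  linarith

theorem sumB (T : ℕ) : ∑ x ∈ Icc (-(T : ℤ)) T, ((((x.natAbs : ℕ) : ℝ) + 1) ^ 2)⁻¹ ≤ 6 := by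
  classical
  have h1 : Icc (-(T : ℤ)) T ⊆ (range (T + 1)).image (fun k : ℕ => (k : ℤ)) ∪
      (range (T + 1)).image (fun k : ℕ => -(k : ℤ)) := by
    intro x hx
    rw [mem_Icc] at hx
    rw [mem_union, mem_image, mem_image]
    rcases Int.natAbs_eq x with h | h
    · left; exact ⟨x.natAbs, mem_range.2 (by omega), h.symm⟩
    · right; exact ⟨x.natAbs, mem_range.2 (by omega), h.symm⟩
  have h0 : ∑ k ∈ range (T + 1), (((k : ℝ) + 1) ^ 2)⁻¹ ≤ 3 := by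
    rw [range_eq_Ico, sum_eq_sum_Ico_succ_bot (by omega)]
    have h2 := sumA 0 T
    have h3 : Ioc 0 T = Ico (0 + 1) (T + 1) := by ext a; rw [mem_Ioc, mem_Ico]; omega
    rw [h3] at h2
    norm_num at h2 ⊢
    linarith
  calc ∑ x ∈ Icc (-(T : ℤ)) T, ((((x.natAbs : ℕ) : ℝ) + 1) ^ 2)⁻¹ ≤
      ∑ x ∈ (range (T + 1)).image (fun k : ℕ => (k : ℤ)) ∪
        (range (T + 1)).image (fun k : ℕ => -(k : ℤ)), ((((x.natAbs : ℕ) : ℝ) + 1) ^ 2)⁻¹ :=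
        sum_le_sum_of_subset_of_nonneg h1 (fun _ _ _ => by positivity)
    _ ≤ ∑ x ∈ (range (T + 1)).image (fun k : ℕ => (k : ℤ)), ((((x.natAbs : ℕ) : ℝ) + 1) ^ 2)⁻¹ +
        ∑ x ∈ (range (T + 1)).image (fun k : ℕ => -(k : ℤ)),
          ((((x.natAbs : ℕ) : ℝ) + 1) ^ 2)⁻¹ := by
        rw [← sum_union_inter]
        have : 0 ≤ ∑ x ∈ (range (T + 1)).image (fun k : ℕ => (k : ℤ)) ∩
          (range (T + 1)).image (fun k : ℕ => -(k : ℤ)), ((((x.natAbs : ℕ) : ℝ) + 1) ^ 2)⁻¹ :=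
          sum_nonneg (fun _ _ => by positivity)
        linarith
    _ ≤ 3 + 3 := by
        apply add_le_add
        · rw [sum_image (by intro a _ b _ h; exact Nat.cast_injective (R := ℤ) h)]
          simpa using h0
        · rw [sum_image (by intro a _ b _ h; simpa using h)]
          simpa using h0
    _ = 6 := by norm_num

theorem pt_self (k : Fin 2) (x y : ℤ) : pt k x y k = y := by
  unfold pt; rw [Function.update_self]

/-- zeros of size exactly `q`. -/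
theorem card_sphere (d H : ℕ) (hH : 1 ≤ H) (q : ℕ) (hqH : q ≤ H) :
    (Nat.card {F | F ∈ PBox d H ∧ ∃ (k : Fin 2) (x y : ℤ), |x| ≤ q ∧ |y| = q ∧
      eval (pt k x y) F = 0} : ℝ) ≤
      8 * ((2 * d + 5 : ℝ) ^ (d + 2).choose 2 * 2 ^ d) * (H : ℝ) ^ ((d + 2).choose 2 - 1) *
        (((q : ℝ) + 1) * (((q : ℝ) + 1) ^ d)⁻¹) := by
  classical
  let I : Finset (Fin 2 × ℤ × ℤ) := univ ×ˢ (Icc (-(q : ℤ)) q) ×ˢ ({(q : ℤ), -(q : ℤ)} : Finset ℤ)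
  have h := card_le_sum {F | F ∈ PBox d H ∧ ∃ (k : Fin 2) (x y : ℤ), |x| ≤ q ∧ |y| = q ∧
      eval (pt k x y) F = 0} I (fun i => {F | F ∈ PBox d H ∧ eval (pt i.1 i.2.1 i.2.2) F = 0})
      (fun i _ => (finite_pbox d H).subset (fun F hF => hF.1)) (by
        rintro F ⟨hF, k, x, y, hx, hy, h0⟩
        refine ⟨(k, x, y), ?_, hF, h0⟩
        simp only [I, mem_product, mem_univ, mem_Icc, mem_insert, mem_singleton, true_and]
        refine ⟨abs_le.1 hx, ?_⟩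
        rcases abs_choice y with h1 | h1
        · left; rw [← hy, h1]
        · right; rw [← hy, h1, neg_neg])
  refine h.trans ?_
  have h2 : ∀ i ∈ I, (Nat.card {F | F ∈ PBox d H ∧ eval (pt i.1 i.2.1 i.2.2) F = 0} : ℝ) ≤
      ((2 * d + 5 : ℝ) ^ (d + 2).choose 2 * 2 ^ d) * (H : ℝ) ^ ((d + 2).choose 2 - 1) *
        (((q : ℝ) + 1) ^ d)⁻¹ := by
    rintro ⟨k, x, y⟩ hi
    simp only [I, mem_product, mem_univ, mem_Icc, mem_insert, mem_singleton, true_and] at hi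
    apply real_pt d H hH (pt k x y) k q _ hqH
    rw [pt_self]
    rcases hi.2 with h1 | h1
    · rw [h1, Nat.abs_cast]
    · rw [h1, abs_neg, Nat.abs_cast]
  refine (sum_le_sum h2).trans ?_
  rw [sum_const, nsmul_eq_mul]
  have hI : (#I : ℝ) ≤ 8 * ((q : ℝ) + 1) := by
    have h3 : #I ≤ 2 * ((2 * q + 1) * 2) := by
      simp only [I]
      rw [card_product, card_product, card_univ, Fintype.card_fin, Int.card_Icc]
      have h4 : #({(q : ℤ), -(q : ℤ)} : Finset ℤ) ≤ 2 := card_le_two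
      have h5 : ((q : ℤ) + 1 - -(q : ℤ)).toNat = 2 * q + 1 := by omega
      rw [h5]
      exact Nat.mul_le_mul_left _ (Nat.mul_le_mul_left _ h4)
    have h6 : (#I : ℝ) ≤ ((2 * ((2 * q + 1) * 2) : ℕ) : ℝ) := by exact_mod_cast h3
    refine h6.trans ?_
    push_cast
    nlinarith [(Nat.cast_nonneg q : (0 : ℝ) ≤ q)]
  calc (#I : ℝ) * (((2 * d + 5 : ℝ) ^ (d + 2).choose 2 * 2 ^ d) *
        (H : ℝ) ^ ((d + 2).choose 2 - 1) * (((q : ℝ) + 1) ^ d)⁻¹) ≤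
      (8 * ((q : ℝ) + 1)) * (((2 * d + 5 : ℝ) ^ (d + 2).choose 2 * 2 ^ d) *
        (H : ℝ) ^ ((d + 2).choose 2 - 1) * (((q : ℝ) + 1) ^ d)⁻¹) :=
        mul_le_mul_of_nonneg_right hI (by positivity)
    _ = _ := by ring

/-- the part of the zeros of size at most `H`. -/
theorem part_small (d H : ℕ) (hd : 3 ≤ d) (hH : 1 ≤ H) (R : ℕ) :
    (Nat.card {F | F ∈ PBox d H ∧ ∃ q ∈ Ioc R H, ∃ (k : Fin 2) (x y : ℤ), |x| ≤ q ∧ |y| = q ∧
      eval (pt k x y) F = 0} : ℝ) ≤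
      16 * ((2 * d + 5 : ℝ) ^ (d + 2).choose 2 * 2 ^ d) * (H : ℝ) ^ ((d + 2).choose 2 - 1) *
        (((R : ℝ) + 1) ^ (d - 2))⁻¹ := by
  have h := card_le_sum {F | F ∈ PBox d H ∧ ∃ q ∈ Ioc R H, ∃ (k : Fin 2) (x y : ℤ), |x| ≤ q ∧
      |y| = q ∧ eval (pt k x y) F = 0} (Ioc R H) (fun q => {F | F ∈ PBox d H ∧
      ∃ (k : Fin 2) (x y : ℤ), |x| ≤ q ∧ |y| = q ∧ eval (pt k x y) F = 0})
      (fun i _ => (finite_pbox d H).subset (fun F hF => hF.1)) (by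
        rintro F ⟨hF, q, hq, h0⟩
        exact ⟨q, hq, hF, h0⟩)
  refine h.trans ?_
  have h1 : ∀ q ∈ Ioc R H, (Nat.card {F | F ∈ PBox d H ∧
      ∃ (k : Fin 2) (x y : ℤ), |x| ≤ q ∧ |y| = q ∧ eval (pt k x y) F = 0} : ℝ) ≤
      8 * ((2 * d + 5 : ℝ) ^ (d + 2).choose 2 * 2 ^ d) * (H : ℝ) ^ ((d + 2).choose 2 - 1) *
        (((R : ℝ) + 1) ^ (d - 3))⁻¹ * (((q : ℝ) + 1) ^ 2)⁻¹ := by
    intro q hq
    rw [mem_Ioc] at hq
    refine (card_sphere d H hH q hq.2).trans ?_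
    rw [mul_assoc _ (((R : ℝ) + 1) ^ (d - 3))⁻¹]
    apply mul_le_mul_of_nonneg_left _ (by positivity)
    obtain ⟨e, rfl⟩ : ∃ e, d = e + 3 := ⟨d - 3, by omega⟩
    rw [Nat.add_sub_cancel]
    have hq1 : (0 : ℝ) < (q : ℝ) + 1 := by positivity
    have h2 : ((q : ℝ) + 1) * (((q : ℝ) + 1) ^ (e + 3))⁻¹ =
        (((q : ℝ) + 1) ^ e)⁻¹ * (((q : ℝ) + 1) ^ 2)⁻¹ := by
      field_simp
      ring
    rw [h2]
    apply mul_le_mul_of_nonneg_right _ (by positivity)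
    apply inv_anti₀ (by positivity)
    apply pow_le_pow_left₀ (by positivity)
    have : (R : ℝ) ≤ q := by exact_mod_cast hq.1.le
    linarith
  refine (sum_le_sum h1).trans ?_
  rw [← mul_sum]
  have h2 := sumA R H
  obtain ⟨e, rfl⟩ : ∃ e, d = e + 3 := ⟨d - 3, by omega⟩
  have h3 : e + 3 - 3 = e := by omega
  have h4 : e + 3 - 2 = e + 1 := by omega
  rw [h3, h4]
  refine (mul_le_mul_of_nonneg_left h2 (by positivity)).trans (le_of_eq ?_)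
  have h5 : (((R : ℝ) + 1) ^ (e + 1))⁻¹ = (((R : ℝ) + 1) ^ e)⁻¹ * ((R : ℝ) + 1)⁻¹ := by
    rw [pow_succ, mul_inv]
  rw [h5]
  ring

end Pool.Agent.Q256.UP
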