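import Mathlib
import Pool.Agent.Q256.UP.PlC

set_option autoImplicit false

namespace Pool.Agent.Q256.UP

open Finset MvPolynomial Pool.Agent.Q256.CI

/-- large second coordinates. -/
noncomputable def YT (H T : ℕ) : Finset ℤ := (Icc (-(T : ℤ)) T).filter (fun y => (H : ℤ) + 1 ≤ |y|)

theorem card_icc_le (T : ℕ) (hT : 1 ≤ T) : (#(Icc (-(T : ℤ)) T) : ℝ) ≤ 3 * T := by
  rw [Int.card_Icc]
  have h5 : ((T : ℤ) + 1 - -(T : ℤ)).toNat = 2 * T + 1 := by omega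
  rw [h5]
  push_cast
  have : (1 : ℝ) ≤ T := by exact_mod_cast hT
  linarith

theorem part_div (d H : ℕ) (hd : 1 ≤ d) (hH : 1 ≤ H) (T : ℕ) (hT : 1 ≤ T) (τ : ℕ)
    (hτ : ∀ m : ℕ, 1 ≤ m → m ≤ (d + 2).choose 2 * H * T ^ d → #m.divisors ≤ τ) :
    (Nat.card {F | F ∈ PBox d H ∧ ∃ (k : Fin 2), ∃ x ∈ Icc (-(T : ℤ)) T, ∃ y ∈ YT H T,
      eval (pt k x y) F = 0 ∧ eval (pt k x 0) F ≠ 0} : ℝ) ≤
      12 * (2 * d + 3 : ℝ) ^ (d + 2).choose 2 * (H : ℝ) ^ ((d + 2).choose 2 - 1) *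
        (T * τ * ((H : ℝ) ^ (d - 1))⁻¹) := by
  classical
  have hH0 : (0 : ℝ) < H := by exact_mod_cast hH
  have hN := one_le_choose d
  have h := card_le_sum {F | F ∈ PBox d H ∧ ∃ (k : Fin 2), ∃ x ∈ Icc (-(T : ℤ)) T, ∃ y ∈ YT H T,
      eval (pt k x y) F = 0 ∧ eval (pt k x 0) F ≠ 0}
      ((univ : Finset (Fin 2)) ×ˢ (Icc (-(T : ℤ)) T))
      (fun i => {F | F ∈ PBox d H ∧ ∃ y ∈ YT H T,
        eval (pt i.1 i.2 y) F = 0 ∧ eval (pt i.1 i.2 0) F ≠ 0})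
      (fun i _ => (finite_pbox d H).subset (fun F hF => hF.1)) (by
        rintro F ⟨hF, k, x, hx, h0⟩
        exact ⟨(k, x), by simp only [mem_product, mem_univ, true_and]; exact hx, hF, h0⟩)
  refine h.trans ?_
  have h1 : ∀ i ∈ (univ : Finset (Fin 2)) ×ˢ (Icc (-(T : ℤ)) T), (Nat.card
      {F | F ∈ PBox d H ∧ ∃ y ∈ YT H T, eval (pt i.1 i.2 y) F = 0 ∧ eval (pt i.1 i.2 0) F ≠ 0} : ℝ)
      ≤ 2 * τ * ((2 * d + 3 : ℝ) ^ (d + 2).choose 2 * (H : ℝ) ^ (d + 2).choose 2) *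
        ((H : ℝ) ^ d)⁻¹ := by
    rintro ⟨k, x⟩ hi
    simp only [mem_product, mem_univ, true_and] at hi
    have h2 := card_le_sum {F | F ∈ PBox d H ∧ ∃ y ∈ YT H T, eval (pt k x y) F = 0 ∧
      eval (pt k x 0) F ≠ 0} (YT H T) (fun y => {F | F ∈ PBox d H ∧ eval (pt k x y) F = 0 ∧
      eval (pt k x 0) F ≠ 0})
      (fun i _ => (finite_pbox d H).subset (fun F hF => hF.1)) (by
        rintro F ⟨hF, y, hy, h0⟩
        exact ⟨y, hy, hF, h0⟩)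
    refine h2.trans ?_
    have h3 := count_div d H hd (fun _ => x) k T hT (fun j => by
      by_cases hj : j = k
      · subst hj
        rw [Function.update_self]; simp
      · rw [Function.update_of_ne hj]
        exact abs_le.2 (mem_Icc.1 hi)) τ hτ (YT H T) (fun y hy => (mem_filter.1 hy).2)
    have h4 : (∑ y ∈ YT H T, (Nat.card {F | F ∈ PBox d H ∧ eval (pt k x y) F = 0 ∧
      eval (pt k x 0) F ≠ 0} : ℝ)) * ((H : ℝ) + 1) ^ d ≤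
        2 * τ * (2 * ((d + 1) * H) + 1) ^ (d + 2).choose 2 := by
      have h5 : (((∑ y ∈ YT H T, Nat.card {F | F ∈ PBox d H ∧ eval (pt k x y) F = 0 ∧
        eval (pt k x 0) F ≠ 0}) * (H + 1) ^ d : ℕ) : ℝ) ≤
        ((2 * τ * (2 * ((d + 1) * H) + 1) ^ (d + 2).choose 2 : ℕ) : ℝ) := by exact_mod_cast h3
      push_cast at h5
      exact h5
    rw [← div_eq_mul_inv, le_div_iff₀ (by positivity)]
    refine le_trans ?_ (h4.trans ?_)
    · apply mul_le_mul_of_nonneg_left _ (sum_nonneg (fun _ _ => Nat.cast_nonneg _))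
      exact pow_le_pow_left₀ hH0.le (by linarith) _
    · apply mul_le_mul_of_nonneg_left _ (by positivity)
      rw [← mul_pow]
      apply pow_le_pow_left₀ (by positivity)
      have : (1 : ℝ) ≤ H := by exact_mod_cast hH
      nlinarith
  refine (sum_le_sum h1).trans ?_
  rw [sum_const, nsmul_eq_mul, card_product, card_univ, Fintype.card_fin]
  have h2 := card_icc_le T hT
  have h3 : (H : ℝ) ^ (d + 2).choose 2 * ((H : ℝ) ^ d)⁻¹ =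
      (H : ℝ) ^ ((d + 2).choose 2 - 1) * ((H : ℝ) ^ (d - 1))⁻¹ := by
    have h4 : (H : ℝ) ^ (d + 2).choose 2 = (H : ℝ) ^ ((d + 2).choose 2 - 1) * H := by
      rw [← pow_succ, Nat.sub_add_cancel hN]
    have h5 : (H : ℝ) ^ d = (H : ℝ) ^ (d - 1) * H := by
      rw [← pow_succ, Nat.sub_add_cancel hd]
    rw [h4, h5]
    field_simp
  push_cast
  calc 2 * (#(Icc (-(T : ℤ)) T) : ℝ) * (2 * τ * ((2 * d + 3 : ℝ) ^ (d + 2).choose 2 *
        (H : ℝ) ^ (d + 2).choose 2) * ((H : ℝ) ^ d)⁻¹) ≤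
      2 * (3 * T) * (2 * τ * ((2 * d + 3 : ℝ) ^ (d + 2).choose 2 *
        (H : ℝ) ^ (d + 2).choose 2) * ((H : ℝ) ^ d)⁻¹) := by
        apply mul_le_mul_of_nonneg_right _ (by positivity)
        linarith
    _ = 12 * (2 * d + 3 : ℝ) ^ (d + 2).choose 2 * T * τ *
        ((H : ℝ) ^ (d + 2).choose 2 * ((H : ℝ) ^ d)⁻¹) := by ring
    _ = _ := by rw [h3]; ring

theorem part_zero (d H : ℕ) (hd : 2 ≤ d) (hH : 1 ≤ H) (T : ℕ) (hT : 1 ≤ T) (hTH : T ≤ H ^ d) :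
    (Nat.card {F | F ∈ PBox d H ∧ ∃ (k : Fin 2), ∃ x ∈ Icc (-(T : ℤ)) T, ∃ y ∈ YT H T,
      eval (pt k x y) F = 0 ∧ eval (pt k x 0) F = 0} : ℝ) ≤
      162 * (4 * d + 5 : ℝ) ^ (d + 2).choose 2 * (H : ℝ) ^ ((d + 2).choose 2 - 1) *
        (T * ((H : ℝ) ^ (d - 1))⁻¹) := by
  classical
  have hH0 : (0 : ℝ) < H := by exact_mod_cast hH
  have h := card_le_sum {F | F ∈ PBox d H ∧ ∃ (k : Fin 2), ∃ x ∈ Icc (-(T : ℤ)) T, ∃ y ∈ YT H T,
      eval (pt k x y) F = 0 ∧ eval (pt k x 0) F = 0}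
      ((univ : Finset (Fin 2)) ×ˢ (Icc (-(T : ℤ)) T) ×ˢ YT H T)
      (fun i => {F | F ∈ PBox d H ∧ eval (pt i.1 i.2.1 i.2.2) F = 0 ∧
        eval (pt i.1 i.2.1 0) F = 0})
      (fun i _ => (finite_pbox d H).subset (fun F hF => hF.1)) (by
        rintro F ⟨hF, k, x, hx, y, hy, h0⟩
        exact ⟨(k, x, y), by simp only [mem_product, mem_univ, true_and]; exact ⟨hx, hy⟩, hF, h0⟩)
  refine h.trans ?_
  have h1 : ∀ i ∈ (univ : Finset (Fin 2)) ×ˢ (Icc (-(T : ℤ)) T) ×ˢ YT H T, (Nat.card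
      {F | F ∈ PBox d H ∧ eval (pt i.1 i.2.1 i.2.2) F = 0 ∧ eval (pt i.1 i.2.1 0) F = 0} : ℝ)
      ≤ (4 * d + 5 : ℝ) ^ (d + 2).choose 2 * (H : ℝ) ^ ((d + 2).choose 2 - 1) *
        (((H : ℝ) ^ d)⁻¹ * (4 * ((((i.2.1.natAbs : ℕ) : ℝ) + 1) ^ 2)⁻¹ + ((H : ℝ) ^ d)⁻¹)) := by
    rintro ⟨k, x, y⟩ hi
    simp only [mem_product, mem_univ, true_and] at hi
    exact real_zero d H hd hH k x y (mem_filter.1 hi.2).2
  refine (sum_le_sum h1).trans ?_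
  rw [← mul_sum, ← mul_sum, sum_product]
  simp only [sum_product, sum_const, card_univ, Fintype.card_fin, nsmul_eq_mul]
  have hY : (#(YT H T) : ℝ) ≤ 3 * T := by
    refine le_trans ?_ (card_icc_le T hT)
    exact_mod_cast card_le_card (filter_subset _ _)
  have hX := card_icc_le T hT
  have hTH' : (T : ℝ) * ((H : ℝ) ^ d)⁻¹ ≤ 1 := by
    rw [← div_eq_mul_inv, div_le_one (by positivity)]
    exact_mod_cast hTH
  rw [← mul_sum, sum_add_distrib, ← mul_sum, sum_const, nsmul_eq_mul]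
  have hS := sumB T
  have h2 : 4 * ∑ x ∈ Icc (-(T : ℤ)) T, ((((x.natAbs : ℕ) : ℝ) + 1) ^ 2)⁻¹ +
      (#(Icc (-(T : ℤ)) T) : ℝ) * ((H : ℝ) ^ d)⁻¹ ≤ 27 := by
    have h3 : (#(Icc (-(T : ℤ)) T) : ℝ) * ((H : ℝ) ^ d)⁻¹ ≤ 3 := by
      calc _ ≤ (3 * T) * ((H : ℝ) ^ d)⁻¹ := mul_le_mul_of_nonneg_right hX (by positivity)
        _ = 3 * (T * ((H : ℝ) ^ d)⁻¹) := by ring
        _ ≤ 3 * 1 := mul_le_mul_of_nonneg_left hTH' (by norm_num)
        _ = 3 := by norm_num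
    linarith
  have h5 : ((H : ℝ) ^ d)⁻¹ ≤ ((H : ℝ) ^ (d - 1))⁻¹ := by
    apply inv_anti₀ (by positivity)
    apply pow_le_pow_right₀ (by exact_mod_cast hH)
    omega
  push_cast
  calc (4 * d + 5 : ℝ) ^ (d + 2).choose 2 * (H : ℝ) ^ ((d + 2).choose 2 - 1) *
        (((H : ℝ) ^ d)⁻¹ * (2 * ((#(YT H T) : ℝ) *
        (4 * ∑ x ∈ Icc (-(T : ℤ)) T, ((((x.natAbs : ℕ) : ℝ) + 1) ^ 2)⁻¹ +
        (#(Icc (-(T : ℤ)) T) : ℝ) * ((H : ℝ) ^ d)⁻¹)))) ≤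
      (4 * d + 5 : ℝ) ^ (d + 2).choose 2 * (H : ℝ) ^ ((d + 2).choose 2 - 1) *
        (((H : ℝ) ^ (d - 1))⁻¹ * (2 * ((3 * T) * 27))) := by
        apply mul_le_mul_of_nonneg_left _ (by positivity)
        apply mul_le_mul h5 _ (by positivity) (by positivity)
        apply mul_le_mul_of_nonneg_left _ (by norm_num)
        exact mul_le_mul hY h2 (by positivity) (by positivity)
    _ = _ := by ring

end Pool.Agent.Q256.UP
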