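import Mathlib
import Pool.Agent.Q256.UP.PlD

set_option autoImplicit false

namespace Pool.Agent.Q256.UP

open Finset MvPolynomial Pool.Agent.Q256.CI

theorem card_union3 {α : Type} (S A B C : Set α) (hA : A.Finite) (hB : B.Finite) (hC : C.Finite)
    (h : S ⊆ A ∪ B ∪ C) :
    (Nat.card S : ℝ) ≤ Nat.card A + Nat.card B + Nat.card C := by
  have h1 : Nat.card S ≤ Nat.card A + Nat.card B + Nat.card C := by
    simp only [Nat.card_coe_set_eq]
    refine (Set.ncard_le_ncard h ((hA.union hB).union hC)).trans ?_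
    refine (Set.ncard_union_le _ _).trans ?_
    exact Nat.add_le_add_right (Set.ncard_union_le _ _) _
  exact_mod_cast h1

theorem card_le_total (d H : ℕ) (hH : 1 ≤ H) (S : Set (MvPolynomial (Fin 2) ℤ))
    (hS : S ⊆ PBox d H) : (Nat.card S : ℝ) ≤ 3 ^ (d + 2).choose 2 *
      (H : ℝ) ^ ((d + 2).choose 2 - 1) * H := by
  have h1 : Nat.card S ≤ Nat.card (PBox d H) := by
    simp only [Nat.card_coe_set_eq]
    exact Set.ncard_le_ncard hS (finite_pbox d H)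
  rw [card_pbox] at h1
  have h2 : (Nat.card S : ℝ) ≤ (((2 * H + 1) ^ (d + 2).choose 2 : ℕ) : ℝ) := by exact_mod_cast h1
  refine h2.trans ?_
  rw [mul_assoc, ← pow_succ, Nat.sub_add_cancel (one_le_choose d), ← mul_pow]
  push_cast
  apply pow_le_pow_left₀ (by positivity)
  have : (1 : ℝ) ≤ H := by exact_mod_cast hH
  linarith

theorem tail_main (d : ℕ) (hd : 3 ≤ d) (ε : ℝ) (hε : 0 < ε) : ∃ C : ℝ, 0 < C ∧
    ∀ H R T : ℕ, 1 ≤ H → (Nat.card (ZS d H R T) : ℝ) ≤ C * (H : ℝ) ^ ((d + 2).choose 2 - 1) *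
      ((((R : ℝ) + 1) ^ (d - 2))⁻¹ + T * (H : ℝ) ^ ε * ((H : ℝ) ^ (d - 1))⁻¹) := by
  classical
  have hε1 : 0 < ε / (1 + (d : ℝ) ^ 2) := by positivity
  obtain ⟨C0, hC0, hdiv⟩ := Pool.Agent.H510R2.divisor_bound (ε / (1 + (d : ℝ) ^ 2)) hε1
  set N := (d + 2).choose 2 with hN
  set K0 : ℝ := C0 * (N : ℝ) ^ (ε / (1 + (d : ℝ) ^ 2)) with hK0
  have hN1 : 1 ≤ N := one_le_choose d
  have hNr : (0 : ℝ) < N := by exact_mod_cast hN1
  have hK0pos : 0 < K0 := by positivity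
  set C : ℝ := 16 * ((2 * d + 5 : ℝ) ^ N * 2 ^ d) + 12 * (2 * d + 3 : ℝ) ^ N * K0 +
    162 * (4 * d + 5 : ℝ) ^ N + 3 ^ N with hC
  refine ⟨C, by positivity, ?_⟩
  intro H R T hH
  have hH0 : (0 : ℝ) < H := by exact_mod_cast hH
  have hH1 : (1 : ℝ) ≤ H := by exact_mod_cast hH
  have hHε : (1 : ℝ) ≤ (H : ℝ) ^ ε := Real.one_le_rpow hH1 hε.le
  rcases Nat.eq_zero_or_pos T with hT | hT
  · have hem : ZS d H R T = ∅ := by
      rw [Set.eq_empty_iff_forall_notMem]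
      rintro F ⟨_, P, h1, h2, _⟩
      subst hT
      have : (R : ℤ) < ((0 : ℕ) : ℤ) := lt_of_lt_of_le h1 h2
      omega
    rw [hem]
    simp only [Nat.card_eq_fintype_card, Fintype.card_of_isEmpty, Nat.cast_zero]
    positivity
  rcases le_total T (H ^ d) with hTH | hTH
  · -- main case
    set τ : ℕ := ⌊K0 * (H : ℝ) ^ ε⌋₊ with hτ
    have hτ1 : (τ : ℝ) ≤ K0 * (H : ℝ) ^ ε := Nat.floor_le (by positivity)
    have hdiv2 : ∀ m : ℕ, 1 ≤ m → m ≤ N * H * T ^ d → #m.divisors ≤ τ := by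
      intro m hm1 hm2
      apply Nat.le_floor
      refine (hdiv m hm1).trans ?_
      have h1 : (m : ℝ) ≤ N * (H : ℝ) ^ (1 + d ^ 2) := by
        have h2 : m ≤ N * H ^ (1 + d ^ 2) := by
          refine hm2.trans ?_
          rw [mul_assoc]
          apply Nat.mul_le_mul_left
          calc H * T ^ d ≤ H * (H ^ d) ^ d :=
                Nat.mul_le_mul_left _ (Nat.pow_le_pow_left hTH d)
            _ = H ^ (1 + d ^ 2) := by rw [← pow_mul, pow_add, pow_one]; ring_nf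
        exact_mod_cast h2
      have h3 : (m : ℝ) ^ (ε / (1 + (d : ℝ) ^ 2)) ≤
          (N : ℝ) ^ (ε / (1 + (d : ℝ) ^ 2)) * (H : ℝ) ^ ε := by
        refine (Real.rpow_le_rpow (Nat.cast_nonneg _) h1 hε1.le).trans ?_
        rw [Real.mul_rpow hNr.le (by positivity)]
        have h4 : ((H : ℝ) ^ (1 + d ^ 2)) ^ (ε / (1 + (d : ℝ) ^ 2)) = (H : ℝ) ^ ε := by
          rw [← Real.rpow_natCast (H : ℝ) (1 + d ^ 2), ← Real.rpow_mul hH0.le]
          congr 1
          push_cast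
          field_simp
        rw [h4]
      calc C0 * (m : ℝ) ^ (ε / (1 + (d : ℝ) ^ 2)) ≤
            C0 * ((N : ℝ) ^ (ε / (1 + (d : ℝ) ^ 2)) * (H : ℝ) ^ ε) :=
            mul_le_mul_of_nonneg_left h3 hC0.le
        _ = K0 * (H : ℝ) ^ ε := by rw [hK0]; ring
    have h1 := card_union3 (ZS d H R T)
      {F | F ∈ PBox d H ∧ ∃ q ∈ Ioc R H, ∃ (k : Fin 2) (x y : ℤ), |x| ≤ q ∧ |y| = q ∧
        eval (pt k x y) F = 0}
      {F | F ∈ PBox d H ∧ ∃ (k : Fin 2), ∃ x ∈ Icc (-(T : ℤ)) T, ∃ y ∈ YT H T,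
        eval (pt k x y) F = 0 ∧ eval (pt k x 0) F ≠ 0}
      {F | F ∈ PBox d H ∧ ∃ (k : Fin 2), ∃ x ∈ Icc (-(T : ℤ)) T, ∃ y ∈ YT H T,
        eval (pt k x y) F = 0 ∧ eval (pt k x 0) F = 0}
      ((finite_pbox d H).subset (fun F hF => hF.1)) ((finite_pbox d H).subset (fun F hF => hF.1))
      ((finite_pbox d H).subset (fun F hF => hF.1)) (by
        rintro F ⟨hF, P, hR, hT2, h0⟩
        obtain ⟨k, x, y, rfl, hxy, hmax⟩ := exists_pt P
        rw [hmax] at hR hT2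
        rcases lt_or_ge (H : ℤ) |y| with hy | hy
        · have hxI : x ∈ Icc (-(T : ℤ)) T := mem_Icc.2 (abs_le.1 (hxy.trans hT2))
          have hyI : y ∈ YT H T := mem_filter.2 ⟨mem_Icc.2 (abs_le.1 hT2), hy⟩
          by_cases hx0 : eval (pt k x 0) F = 0
          · right
            exact ⟨hF, k, x, hxI, y, hyI, h0, hx0⟩
          · left; right
            exact ⟨hF, k, x, hxI, y, hyI, h0, hx0⟩
        · left; left
          rw [Int.abs_eq_natAbs y] at hxy hR hy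
          refine ⟨hF, y.natAbs, mem_Ioc.2 ⟨by omega, by omega⟩, k, x, y, hxy,
            Int.abs_eq_natAbs y, h0⟩)
    have h2 := part_small d H hd hH R
    have h3 := part_div d H (by omega) hH T hT τ hdiv2
    have h4 := part_zero d H (by omega) hH T hT hTH
    refine h1.trans ((add_le_add (add_le_add h2 h3) h4).trans ?_)
    rw [← hN]
    set a : ℝ := (((R : ℝ) + 1) ^ (d - 2))⁻¹ with ha
    set b : ℝ := ((H : ℝ) ^ (d - 1))⁻¹ with hb
    set e : ℝ := (H : ℝ) ^ ε with he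
    set M : ℝ := (H : ℝ) ^ (N - 1) with hM
    have ha0 : 0 ≤ a := by positivity
    have hb0 : 0 ≤ b := by positivity
    have hM0 : 0 ≤ M := by positivity
    have hT0 : (0 : ℝ) ≤ T := Nat.cast_nonneg _
    set c1 : ℝ := 16 * ((2 * d + 5 : ℝ) ^ N * 2 ^ d) with hc1
    set c2 : ℝ := 12 * (2 * d + 3 : ℝ) ^ N with hc2
    set c3 : ℝ := 162 * (4 * d + 5 : ℝ) ^ N with hc3
    have hc10 : 0 ≤ c1 := by positivity
    have hc20 : 0 ≤ c2 := by positivity
    have hc30 : 0 ≤ c3 := by positivity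
    have hTb : 0 ≤ T * b := mul_nonneg hT0 hb0
    have i1 : c2 * M * (T * τ * b) ≤ c2 * M * (T * (K0 * e) * b) := by
      apply mul_le_mul_of_nonneg_left _ (mul_nonneg hc20 hM0)
      apply mul_le_mul_of_nonneg_right _ hb0
      exact mul_le_mul_of_nonneg_left hτ1 hT0
    have i2 : c3 * M * (T * b) ≤ c3 * M * (T * e * b) := by
      apply mul_le_mul_of_nonneg_left _ (mul_nonneg hc30 hM0)
      apply mul_le_mul_of_nonneg_right _ hb0
      nlinarith
    calc c1 * M * a + c2 * M * (T * τ * b) + c3 * M * (T * b) ≤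
        c1 * M * a + c2 * M * (T * (K0 * e) * b) + c3 * M * (T * e * b) := by linarith
      _ ≤ C * M * (a + T * e * b) := by
        have e0 : 0 ≤ T * e * b := by
          have : 0 ≤ e := by linarith
          exact mul_nonneg (mul_nonneg hT0 this) hb0
        have k1 : 0 ≤ M * a := mul_nonneg hM0 ha0
        have k2 : 0 ≤ M * (T * e * b) := mul_nonneg hM0 e0
        have k3 : C * M * (a + T * e * b) - (c1 * M * a + c2 * M * (T * (K0 * e) * b) +
            c3 * M * (T * e * b)) = (c2 * K0 + c3 + 3 ^ N) * (M * a) +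
            (c1 + 3 ^ N) * (M * (T * e * b)) := by
          rw [hC]; ring
        have k4 : 0 ≤ (c2 * K0 + c3 + 3 ^ N) * (M * a) := mul_nonneg (by positivity) k1
        have k5 : 0 ≤ (c1 + 3 ^ N) * (M * (T * e * b)) := mul_nonneg (by positivity) k2
        linarith
  · have h1 := card_le_total d H hH (ZS d H R T) (fun F hF => hF.1)
    refine h1.trans ?_
    rw [← hN]
    have h2 : (H : ℝ) ≤ T * (H : ℝ) ^ ε * ((H : ℝ) ^ (d - 1))⁻¹ := by
      have h3 : (H : ℝ) * (H : ℝ) ^ (d - 1) ≤ T := by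
        rw [← pow_succ', Nat.sub_add_cancel (by omega)]
        exact_mod_cast hTH
      have h4 : (0 : ℝ) < (H : ℝ) ^ (d - 1) := by positivity
      rw [← div_eq_mul_inv, le_div_iff₀ h4]
      refine h3.trans ?_
      have : (0 : ℝ) ≤ T := Nat.cast_nonneg _
      nlinarith
    have h5 : (3 : ℝ) ^ N ≤ C := by
      rw [hC]
      have : 0 ≤ 16 * ((2 * d + 5 : ℝ) ^ N * 2 ^ d) + 12 * (2 * d + 3 : ℝ) ^ N * K0 +
        162 * (4 * d + 5 : ℝ) ^ N := by positivity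
      linarith
    have h6 : (0 : ℝ) ≤ (((R : ℝ) + 1) ^ (d - 2))⁻¹ := by positivity
    calc (3 : ℝ) ^ N * (H : ℝ) ^ (N - 1) * H ≤ C * (H : ℝ) ^ (N - 1) * H := by
          apply mul_le_mul_of_nonneg_right _ hH0.le
          exact mul_le_mul_of_nonneg_right h5 (by positivity)
      _ ≤ _ := by
          apply mul_le_mul_of_nonneg_left _ (by positivity)
          linarith

theorem two_main (d : ℕ) (hd : 3 ≤ d) (ε : ℝ) (hε : 0 < ε) : ∃ C : ℝ, 0 < C ∧
    ∀ H T : ℕ, 1 ≤ H → (Nat.card (Z2 d H T) : ℝ) ≤ C * (H : ℝ) ^ ((d + 2).choose 2 - 1) *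
      ((H : ℝ) ^ (-(((d : ℝ) - 2) / (d + 2))) + T * (H : ℝ) ^ ε * ((H : ℝ) ^ (d - 1))⁻¹) := by
  classical
  obtain ⟨C, hC, htail⟩ := tail_main d hd ε hε
  refine ⟨C + 81 * 7 ^ (d + 2).choose 2, by positivity, ?_⟩
  intro H T hH
  have hH0 : (0 : ℝ) < H := by exact_mod_cast hH
  have hH1 : (1 : ℝ) ≤ H := by exact_mod_cast hH
  have hd3 : (3 : ℝ) ≤ d := by exact_mod_cast hd
  set R : ℕ := ⌊(H : ℝ) ^ (1 / ((d : ℝ) + 2))⌋₊ with hR
  have hρ1 : (1 : ℝ) ≤ (H : ℝ) ^ (1 / ((d : ℝ) + 2)) := Real.one_le_rpow hH1 (by positivity)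
  have hR1 : (R : ℝ) ≤ (H : ℝ) ^ (1 / ((d : ℝ) + 2)) := Nat.floor_le (by positivity)
  have hR2 : (H : ℝ) ^ (1 / ((d : ℝ) + 2)) < R + 1 := Nat.lt_floor_add_one _
  have hR3 : 1 ≤ R := Nat.le_floor (by exact_mod_cast hρ1)
  let I : Finset (Fin 2 → ℤ) := Fintype.piFinset (fun _ => Icc (-(R : ℤ)) R)
  have hI : (#I : ℝ) ≤ (3 * R) ^ 2 := by
    simp only [I]
    rw [Fintype.card_piFinset]
    simp only [prod_const, card_univ, Fintype.card_fin]
    push_cast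
    exact pow_le_pow_left₀ (Nat.cast_nonneg _) (card_icc_le R hR3) 2
  have hmemI : ∀ P : Fin 2 → ℤ, max |P 0| |P 1| ≤ R → P ∈ I := by
    intro P hP
    simp only [I, Fintype.mem_piFinset]
    intro i
    rw [mem_Icc, ← abs_le]
    fin_cases i
    · exact (le_max_left _ _).trans hP
    · exact (le_max_right _ _).trans hP
  let V : (Fin 2 → ℤ) × (Fin 2 → ℤ) → Set (MvPolynomial (Fin 2) ℤ) := fun i =>
    {F | F ∈ PBox d H ∧ i.1 ≠ i.2 ∧ eval i.1 F = 0 ∧ eval i.2 F = 0}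
  have h1 := card_union3 (Z2 d H T) (ZS d H R T)
    {F | F ∈ PBox d H ∧ ∃ i ∈ I ×ˢ I, F ∈ V i} ∅
    ((finite_pbox d H).subset (fun F hF => hF.1)) ((finite_pbox d H).subset (fun F hF => hF.1))
    Set.finite_empty (by
      rintro F ⟨hF, P, P', hne, hT1, hT2, h0, h0'⟩
      left
      rcases lt_or_ge (R : ℤ) (max |P 0| |P 1|) with h | h
      · left; exact ⟨hF, P, h, hT1, h0⟩
      rcases lt_or_ge (R : ℤ) (max |P' 0| |P' 1|) with h' | h'
      · left; exact ⟨hF, P', h', hT2, h0'⟩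
      right
      exact ⟨hF, (P, P'), mem_product.2 ⟨hmemI P h, hmemI P' h'⟩, hF, hne, h0, h0'⟩)
  have h2 := card_le_sum {F | F ∈ PBox d H ∧ ∃ i ∈ I ×ˢ I, F ∈ V i} (I ×ˢ I) V
    (fun i _ => (finite_pbox d H).subset (fun F hF => hF.1)) (fun F hF => hF.2)
  have h3 : ∀ i ∈ I ×ˢ I, (Nat.card (V i) : ℝ) ≤ (7 : ℝ) ^ (d + 2).choose 2 *
      (H : ℝ) ^ ((d + 2).choose 2 - 1) * (H : ℝ)⁻¹ := by
    rintro ⟨P, P'⟩ _
    by_cases hne : P = P'
    · have hem : V (P, P') = ∅ := by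
        rw [Set.eq_empty_iff_forall_notMem]
        rintro F ⟨_, h, _⟩
        exact h hne
      rw [hem]
      simp only [Nat.card_eq_fintype_card, Fintype.card_of_isEmpty, Nat.cast_zero]
      positivity
    · refine le_trans ?_ (real_two d H (by omega) hH P P' hne)
      have h4 : Nat.card (V (P, P')) ≤ Nat.card
          {F | F ∈ PBox d H ∧ eval P F = 0 ∧ eval P' F = 0} := by
        simp only [Nat.card_coe_set_eq]
        exact Set.ncard_le_ncard (fun F hF => ⟨hF.1, hF.2.2⟩)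
          ((finite_pbox d H).subset (fun F hF => hF.1))
      exact_mod_cast h4
  have h5 : (Nat.card {F | F ∈ PBox d H ∧ ∃ i ∈ I ×ˢ I, F ∈ V i} : ℝ) ≤
      81 * 7 ^ (d + 2).choose 2 * (H : ℝ) ^ ((d + 2).choose 2 - 1) *
        (H : ℝ) ^ (-(((d : ℝ) - 2) / (d + 2))) := by
    refine h2.trans ((sum_le_sum h3).trans ?_)
    rw [sum_const, nsmul_eq_mul, card_product]
    push_cast
    have h6 : (#I : ℝ) * #I ≤ 81 * (H : ℝ) ^ (4 / ((d : ℝ) + 2)) := by
      calc (#I : ℝ) * #I ≤ (3 * R) ^ 2 * (3 * R) ^ 2 :=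
            mul_le_mul hI hI (Nat.cast_nonneg _) (by positivity)
        _ = 81 * (R : ℝ) ^ 4 := by ring
        _ ≤ 81 * ((H : ℝ) ^ (1 / ((d : ℝ) + 2))) ^ 4 := by
            apply mul_le_mul_of_nonneg_left _ (by norm_num)
            exact pow_le_pow_left₀ (Nat.cast_nonneg _) hR1 4
        _ = _ := by
            rw [← Real.rpow_natCast, ← Real.rpow_mul hH0.le]
            congr 2
            push_cast; ring
    have h7 : (H : ℝ) ^ (4 / ((d : ℝ) + 2)) * (H : ℝ)⁻¹ =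
        (H : ℝ) ^ (-(((d : ℝ) - 2) / (d + 2))) := by
      rw [← Real.rpow_neg_one, ← Real.rpow_add hH0]
      congr 1
      have : (d : ℝ) + 2 ≠ 0 := by positivity
      field_simp
      ring
    calc (#I : ℝ) * #I * (7 ^ (d + 2).choose 2 * (H : ℝ) ^ ((d + 2).choose 2 - 1) * (H : ℝ)⁻¹) ≤
          (81 * (H : ℝ) ^ (4 / ((d : ℝ) + 2))) *
          (7 ^ (d + 2).choose 2 * (H : ℝ) ^ ((d + 2).choose 2 - 1) * (H : ℝ)⁻¹) :=
          mul_le_mul_of_nonneg_right h6 (by positivity)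
      _ = 81 * 7 ^ (d + 2).choose 2 * (H : ℝ) ^ ((d + 2).choose 2 - 1) *
          ((H : ℝ) ^ (4 / ((d : ℝ) + 2)) * (H : ℝ)⁻¹) := by ring
      _ = _ := by rw [h7]
  have h8 := htail H R T hH
  have h9 : (((R : ℝ) + 1) ^ (d - 2))⁻¹ ≤ (H : ℝ) ^ (-(((d : ℝ) - 2) / (d + 2))) := by
    rw [Real.rpow_neg hH0.le]
    apply inv_anti₀ (by positivity)
    calc (H : ℝ) ^ (((d : ℝ) - 2) / (d + 2)) = ((H : ℝ) ^ (1 / ((d : ℝ) + 2))) ^ (d - 2) := by
          rw [← Real.rpow_natCast, ← Real.rpow_mul hH0.le]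
          congr 1
          rw [Nat.cast_sub (by omega)]
          push_cast
          ring
      _ ≤ _ := pow_le_pow_left₀ (by positivity) hR2.le _
  have h10 : (Nat.card (∅ : Set (MvPolynomial (Fin 2) ℤ)) : ℝ) = 0 := by simp
  rw [h10, add_zero] at h1
  refine h1.trans ((add_le_add h8 h5).trans ?_)
  set u : ℝ := (H : ℝ) ^ (-(((d : ℝ) - 2) / (d + 2))) with hu
  set M : ℝ := (H : ℝ) ^ ((d + 2).choose 2 - 1) with hM
  set v : ℝ := T * (H : ℝ) ^ ε * ((H : ℝ) ^ (d - 1))⁻¹ with hv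
  have hM0 : 0 ≤ M := by positivity
  have hv0 : 0 ≤ v := by positivity
  have hu0 : 0 ≤ u := by positivity
  have i1 : C * M * ((((R : ℝ) + 1) ^ (d - 2))⁻¹ + v) ≤ C * M * (u + v) := by
    apply mul_le_mul_of_nonneg_left _ (mul_nonneg hC.le hM0)
    linarith
  have i2 : 0 ≤ 81 * 7 ^ (d + 2).choose 2 * M * v := by positivity
  have i3 : (C + 81 * 7 ^ (d + 2).choose 2) * M * (u + v) = C * M * (u + v) +
      81 * 7 ^ (d + 2).choose 2 * M * u + 81 * 7 ^ (d + 2).choose 2 * M * v := by ring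
  rw [i3]
  linarith

end Pool.Agent.Q256.UP
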