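import Mathlib
import Pool.Agent.Q256.UP.Res
import Pool.Agent.Q256.UP.PlB

set_option autoImplicit false

namespace Pool.Agent.Q256.UP

open Finset MvPolynomial Pool.Agent.Q256.CI

/-- primitive integral vectors. -/
def IsPrim {n : ℕ} (y : Fin (n + 1) → ℤ) : Prop := ∃ a : Fin (n + 1) → ℤ, ∑ k, a k * y k = 1

/-- systems of forms in the box. -/
def SysBox {r : ℕ} (n : ℕ) (d : Fin r → ℕ) (H : ℕ) :
    Set (Fin r → MvPolynomial (Fin (n + 1)) ℤ) :=
  {F | ∀ i, F i ∈ Box n (d i) H}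

theorem finite_sys {r : ℕ} (n : ℕ) (d : Fin r → ℕ) (H : ℕ) : (SysBox n d H).Finite := by
  exact Set.Finite.pi' (fun i => finite_box n (d i) H)

theorem card_sys_eq {r : ℕ} (n : ℕ) (V : Fin r → Set (MvPolynomial (Fin (n + 1)) ℤ)) :
    Nat.card {F : Fin r → MvPolynomial (Fin (n + 1)) ℤ | ∀ i, F i ∈ V i} =
      ∏ i, Nat.card (V i) := by
  rw [← Nat.card_pi]
  exact Nat.card_congr (Equiv.subtypePiEquivPi (p := fun i F => F ∈ V i))

theorem one_le_N (n d : ℕ) : 1 ≤ (n + d).choose n := Nat.choose_pos (Nat.le_add_right _ _)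

/-- one point. -/
theorem real_prim {n : ℕ} (y : Fin (n + 1) → ℤ) (hprim : IsPrim y)
    (q : ℕ) (hq1 : 1 ≤ q) (k0 : Fin (n + 1)) (hq : |y k0| = q) (d H : ℕ) (hH : 1 ≤ H) (c : ℤ) :
    (Nat.card (VanV n d H y c) : ℝ) ≤
      (2 * ((d * (n + 1) + 2 : ℕ) : ℝ) + 1) ^ (n + d).choose n *
        (H : ℝ) ^ ((n + d).choose n - 1) * (((min H q : ℕ) : ℝ)⁻¹) ^ d := by
  have h := count_prim y hprim q hq1 k0 hq d H c
  have h1 := real_of_nat hH (one_le_N n d) h (Nat.one_le_pow _ _ (le_min (by omega) hq1))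
  refine h1.trans ?_
  apply mul_le_mul_of_nonneg_left _ (by positivity)
  rw [Nat.cast_pow, ← inv_pow]
  apply pow_le_pow_left₀ (by positivity)
  have h2 : (0 : ℝ) < ((min H q : ℕ) : ℝ) := by
    have : 1 ≤ min H q := le_min hH hq1
    exact_mod_cast this
  apply inv_anti₀ h2
  have : min H q ≤ min (H + 1) q := min_le_min_right _ (Nat.le_succ _)
  exact_mod_cast this

/-- one point, systems. -/
theorem real_sys {n r : ℕ} (d : Fin r → ℕ) (y : Fin (n + 1) → ℤ) (hprim : IsPrim y)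
    (q : ℕ) (hq1 : 1 ≤ q) (k0 : Fin (n + 1)) (hq : |y k0| = q) (H : ℕ) (hH : 1 ≤ H) :
    (Nat.card {F | F ∈ SysBox n d H ∧ ∀ i, eval y (F i) = 0} : ℝ) ≤
      (∏ i, (2 * ((d i * (n + 1) + 2 : ℕ) : ℝ) + 1) ^ (n + d i).choose n) *
        (H : ℝ) ^ (∑ i, ((n + d i).choose n - 1)) *
        (((q : ℝ) ^ (∑ i, d i))⁻¹ + ((H : ℝ) ^ (∑ i, d i))⁻¹) := by
  have hH0 : (0 : ℝ) < H := by exact_mod_cast hH
  have hq0 : (0 : ℝ) < q := by exact_mod_cast hq1
  have h1 : {F | F ∈ SysBox n d H ∧ ∀ i, eval y (F i) = 0} =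
      {F : Fin r → MvPolynomial (Fin (n + 1)) ℤ | ∀ i, F i ∈ VanV n (d i) H y 0} := by
    ext F
    constructor
    · rintro ⟨h1, h2⟩ i
      exact ⟨h1 i, h2 i⟩
    · intro h
      exact ⟨fun i => (h i).1, fun i => (h i).2⟩
  rw [h1, card_sys_eq, Nat.cast_prod]
  refine (prod_le_prod (fun i _ => Nat.cast_nonneg _)
    (fun i _ => real_prim y hprim q hq1 k0 hq (d i) H hH 0)).trans ?_
  rw [prod_mul_distrib, prod_mul_distrib, prod_pow_eq_pow_sum, prod_pow_eq_pow_sum]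
  apply mul_le_mul_of_nonneg_left _ (by positivity)
  rcases le_total H q with h | h
  · rw [min_eq_left h, inv_pow]
    have : (0 : ℝ) ≤ ((q : ℝ) ^ (∑ i, d i))⁻¹ := by positivity
    linarith
  · rw [min_eq_right h, inv_pow]
    have : (0 : ℝ) ≤ ((H : ℝ) ^ (∑ i, d i))⁻¹ := by positivity
    linarith

/-- two monomials which separate two non-proportional vectors. -/
theorem two_mono {n : ℕ} (d : ℕ) (hd : 1 ≤ d) (y z : Fin (n + 1) → ℤ)
    (hne : ∃ i j, y i * z j - y j * z i ≠ 0) :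
    ∃ k l k' l' : Fin (n + 1), ∃ e e' : ℕ, e ≤ d ∧ e' ≤ d ∧
      (y k ^ e * y l ^ (d - e)) * (z k' ^ e' * z l' ^ (d - e')) -
      (y k' ^ e' * y l' ^ (d - e')) * (z k ^ e * z l ^ (d - e)) ≠ 0 := by
  by_cases h : ∃ i, y i ≠ 0 ∧ z i ≠ 0
  · obtain ⟨i, hyi, hzi⟩ := h
    have h2 : ∃ k, y i * z k - y k * z i ≠ 0 := by
      by_contra hcon
      push Not at hcon
      obtain ⟨a, b, hab⟩ := hne
      apply hab
      have h3 := hcon a
      have h4 := hcon b
      have h5 : y i * (y a * z b - y b * z a) = 0 := by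
        linear_combination y a * h4 - y b * h3
      exact (mul_eq_zero.1 h5).resolve_left hyi
    obtain ⟨k, hk⟩ := h2
    refine ⟨i, i, k, i, d, 1, le_rfl, hd, ?_⟩
    rw [Nat.sub_self, pow_zero, pow_zero, mul_one, mul_one, pow_one, pow_one]
    have h6 : y i ^ d = y i ^ (d - 1) * y i := by rw [← pow_succ, Nat.sub_add_cancel hd]
    have h7 : z i ^ d = z i ^ (d - 1) * z i := by rw [← pow_succ, Nat.sub_add_cancel hd]
    rw [h6, h7]
    have h8 : y i ^ (d - 1) * y i * (z k * z i ^ (d - 1)) -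
        y k * y i ^ (d - 1) * (z i ^ (d - 1) * z i) =
        y i ^ (d - 1) * z i ^ (d - 1) * (y i * z k - y k * z i) := by ring
    rw [h8]
    exact mul_ne_zero (mul_ne_zero (pow_ne_zero _ hyi) (pow_ne_zero _ hzi)) hk
  · push Not at h
    obtain ⟨a, b, hab⟩ := hne
    obtain ⟨i, hi⟩ : ∃ i, y i ≠ 0 := by
      by_contra hcon
      push Not at hcon
      apply hab; rw [hcon a, hcon b]; ring
    obtain ⟨j, hj⟩ : ∃ j, z j ≠ 0 := by
      by_contra hcon
      push Not at hcon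
      apply hab; rw [hcon a, hcon b]; ring
    have hyj : y j = 0 := by
      by_contra hcon
      exact hj (h j hcon)
    refine ⟨i, i, j, j, d, d, le_rfl, le_rfl, ?_⟩
    rw [Nat.sub_self, hyj, zero_pow (Nat.one_le_iff_ne_zero.1 hd), h i hi]
    simp only [pow_zero, mul_one, zero_mul, sub_zero]
    exact mul_ne_zero (pow_ne_zero _ hi) (pow_ne_zero _ hj)

theorem count_two_prim {n : ℕ} (d H : ℕ) (hd : 1 ≤ d) (y z : Fin (n + 1) → ℤ)
    (hne : ∃ i j, y i * z j - y j * z i ≠ 0) :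
    Nat.card {F | F ∈ Box n d H ∧ eval y F = 0 ∧ eval z F = 0} * ((H + 1) * (H + 1)) ≤
      (2 * (3 * H) + 1) ^ (n + d).choose n := by
  classical
  obtain ⟨k, l, k', l', e, e', he, he', hdet⟩ := two_mono d hd y z hne
  set V : Set (MvPolynomial (Fin (n + 1)) ℤ) := {F | F ∈ Box n d H ∧ eval y F = 0 ∧ eval z F = 0}
    with hV
  let G : Fin (H + 1) × Fin (H + 1) → MvPolynomial (Fin (n + 1)) ℤ := fun m =>
    monomial (Finsupp.single k e + Finsupp.single l (d - e)) ((m.1 : ℕ) : ℤ) +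
      monomial (Finsupp.single k' e' + Finsupp.single l' (d - e')) ((m.2 : ℕ) : ℤ)
  have hG : ∀ m, G m ∈ Box n d (2 * H) := by
    intro m
    have h1 := box_add (box_monomial (B := H) k l e (d - e) (Nat.add_sub_cancel' he) m.1.1
      (Nat.lt_succ_iff.1 m.1.2)) (box_monomial (B := H) k' l' e' (d - e')
      (Nat.add_sub_cancel' he') m.2.1 (Nat.lt_succ_iff.1 m.2.2))
    rw [two_mul]
    exact h1
  rw [← card_box]
  have hcard : Nat.card V * ((H + 1) * (H + 1)) =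
      Nat.card (V × (Fin (H + 1) × Fin (H + 1))) := by
    rw [Nat.card_prod, Nat.card_prod, Nat.card_fin]
  rw [hcard]
  have hmem : ∀ p : V × (Fin (H + 1) × Fin (H + 1)), p.1.1 + G p.2 ∈ Box n d (3 * H) := by
    intro p
    have h1 := box_add p.1.2.1 (hG p.2)
    have h2 : 3 * H = H + 2 * H := by ring
    rw [h2]
    exact h1
  have : Finite (Box n d (3 * H)) := (finite_box _ _ _).to_subtype
  refine Nat.card_le_card_of_injective (fun p => (⟨_, hmem p⟩ : Box n d (3 * H))) ?_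
  rintro ⟨⟨F, hF⟩, m⟩ ⟨⟨F', hF'⟩, m'⟩ h
  have h1 : F + G m = F' + G m' := congrArg Subtype.val h
  have hev : ∀ (Q : Fin (n + 1) → ℤ) (F : MvPolynomial (Fin (n + 1)) ℤ)
      (m : Fin (H + 1) × Fin (H + 1)), eval Q (F + G m) = eval Q F +
        (((m.1 : ℕ) : ℤ) * (Q k ^ e * Q l ^ (d - e)) +
          ((m.2 : ℕ) : ℤ) * (Q k' ^ e' * Q l' ^ (d - e'))) := by
    intro Q F m
    simp only [G]
    rw [map_add, map_add, eval_mono, eval_mono]
  have h2 := congrArg (eval y) h1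
  have h3 := congrArg (eval z) h1
  rw [hev, hev, hF.2.1, hF'.2.1, zero_add, zero_add] at h2
  rw [hev, hev, hF.2.2, hF'.2.2, zero_add, zero_add] at h3
  have h4 : (((m.1 : ℕ) : ℤ) - ((m'.1 : ℕ) : ℤ)) *
      ((y k ^ e * y l ^ (d - e)) * (z k' ^ e' * z l' ^ (d - e')) -
      (y k' ^ e' * y l' ^ (d - e')) * (z k ^ e * z l ^ (d - e))) = 0 := by
    linear_combination (z k' ^ e' * z l' ^ (d - e')) * h2 - (y k' ^ e' * y l' ^ (d - e')) * h3
  have h5 : (((m.2 : ℕ) : ℤ) - ((m'.2 : ℕ) : ℤ)) *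
      ((y k ^ e * y l ^ (d - e)) * (z k' ^ e' * z l' ^ (d - e')) -
      (y k' ^ e' * y l' ^ (d - e')) * (z k ^ e * z l ^ (d - e))) = 0 := by
    linear_combination (y k ^ e * y l ^ (d - e)) * h3 - (z k ^ e * z l ^ (d - e)) * h2
  have h6 := (mul_eq_zero.1 h4).resolve_right hdet
  have h7 := (mul_eq_zero.1 h5).resolve_right hdet
  have h8 : m = m' := Prod.ext (Fin.ext (by omega)) (Fin.ext (by omega))
  subst h8
  have h9 : F = F' := add_right_cancel h1
  subst h9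
  rfl

theorem real_two_sys {n r : ℕ} (d : Fin r → ℕ) (hd : ∀ i, 1 ≤ d i) (y z : Fin (n + 1) → ℤ)
    (hne : ∃ i j, y i * z j - y j * z i ≠ 0) (H : ℕ) (hH : 1 ≤ H) :
    (Nat.card {F | F ∈ SysBox n d H ∧ (∀ i, eval y (F i) = 0) ∧ ∀ i, eval z (F i) = 0} : ℝ) ≤
      (∏ i, (7 : ℝ) ^ (n + d i).choose n) *
        (H : ℝ) ^ (∑ i, ((n + d i).choose n - 1)) * ((H : ℝ) ^ r)⁻¹ := by
  have hH0 : (0 : ℝ) < H := by exact_mod_cast hH
  have h1 : {F | F ∈ SysBox n d H ∧ (∀ i, eval y (F i) = 0) ∧ ∀ i, eval z (F i) = 0} =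
      {F : Fin r → MvPolynomial (Fin (n + 1)) ℤ | ∀ i, F i ∈
        {F | F ∈ Box n (d i) H ∧ eval y F = 0 ∧ eval z F = 0}} := by
    ext F
    constructor
    · rintro ⟨h1, h2, h3⟩ i
      exact ⟨h1 i, h2 i, h3 i⟩
    · intro h
      exact ⟨fun i => (h i).1, fun i => (h i).2.1, fun i => (h i).2.2⟩
  rw [h1, card_sys_eq, Nat.cast_prod]
  have h2 : ∀ i ∈ (univ : Finset (Fin r)), (Nat.card
      {F | F ∈ Box n (d i) H ∧ eval y F = 0 ∧ eval z F = 0} : ℝ) ≤
      (7 : ℝ) ^ (n + d i).choose n * (H : ℝ) ^ ((n + d i).choose n - 1) * (H : ℝ)⁻¹ := by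
    intro i _
    have h := real_of_nat hH (one_le_N n (d i)) (count_two_prim (d i) H (hd i) y z hne) (by omega)
    refine h.trans ?_
    have h1 : (2 * ((3 : ℕ) : ℝ) + 1) = 7 := by norm_num
    rw [h1]
    apply mul_le_mul_of_nonneg_left _ (by positivity)
    apply inv_anti₀ hH0
    push_cast
    linarith
  refine (prod_le_prod (fun i _ => Nat.cast_nonneg _) h2).trans ?_
  have e1 : ∏ i, (H : ℝ) ^ ((n + d i).choose n - 1) =
      (H : ℝ) ^ (∑ i, ((n + d i).choose n - 1)) := prod_pow_eq_pow_sum _ _ _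
  rw [prod_mul_distrib, prod_mul_distrib, e1, prod_const, card_univ, Fintype.card_fin, inv_pow]

end Pool.Agent.Q256.UP
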