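import Mathlib
import Pool.Agent.Q256.UP.PrA
import Pool.Agent.Q256.UP.PlE

set_option autoImplicit false

namespace Pool.Agent.Q256.UP

open Finset MvPolynomial Pool.Agent.Q256.CI

/-- systems with a rational zero of height in `(R, T]`. -/
def PS1 {r : ℕ} (n : ℕ) (d : Fin r → ℕ) (H R T : ℕ) : Set (Fin r → MvPolynomial (Fin (n + 1)) ℤ) :=
  {F | F ∈ SysBox n d H ∧ ∃ y : Fin (n + 1) → ℤ, IsPrim y ∧ (∃ k, (R : ℤ) < |y k|) ∧
    (∀ k, |y k| ≤ T) ∧ ∀ i, eval y (F i) = 0}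

/-- systems with two different rational zeros of height at most `T`. -/
def PS2 {r : ℕ} (n : ℕ) (d : Fin r → ℕ) (H T : ℕ) : Set (Fin r → MvPolynomial (Fin (n + 1)) ℤ) :=
  {F | F ∈ SysBox n d H ∧ ∃ y z : Fin (n + 1) → ℤ, IsPrim y ∧ IsPrim z ∧
    (∃ i j, y i * z j - y j * z i ≠ 0) ∧
    (∀ k, |y k| ≤ T) ∧ (∀ k, |z k| ≤ T) ∧ (∀ i, eval y (F i) = 0) ∧ ∀ i, eval z (F i) = 0}

/-- the constant of one point. -/
noncomputable def C1 {r : ℕ} (n : ℕ) (d : Fin r → ℕ) : ℝ :=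
  ∏ i, (2 * ((d i * (n + 1) + 2 : ℕ) : ℝ) + 1) ^ (n + d i).choose n

theorem C1_pos {r : ℕ} (n : ℕ) (d : Fin r → ℕ) : 0 < C1 n d := prod_pos (fun i _ => by positivity)

theorem sphere_sys {n r : ℕ} (d : Fin r → ℕ) (H q : ℕ) (hH : 1 ≤ H) (hq1 : 1 ≤ q) :
    (Nat.card {F | F ∈ SysBox n d H ∧ ∃ (k : Fin (n + 1)) (y : Fin (n + 1) → ℤ), IsPrim y ∧
      |y k| = q ∧ (∀ j, |y j| ≤ q) ∧ ∀ i, eval y (F i) = 0} : ℝ) ≤
      (2 * (n + 1) * 3 ^ n * (q : ℝ) ^ n) * (C1 n d * (H : ℝ) ^ (∑ i, ((n + d i).choose n - 1)) *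
        (((q : ℝ) ^ (∑ i, d i))⁻¹ + ((H : ℝ) ^ (∑ i, d i))⁻¹)) := by
  classical
  let I : Finset (Fin (n + 1) × ℤ × (Fin n → ℤ)) :=
    univ ×ˢ ({(q : ℤ), -(q : ℤ)} : Finset ℤ) ×ˢ Fintype.piFinset (fun _ => Icc (-(q : ℤ)) q)
  let Y : Fin (n + 1) × ℤ × (Fin n → ℤ) → Fin (n + 1) → ℤ := fun i => i.1.insertNth i.2.1 i.2.2
  have h := card_le_sum {F | F ∈ SysBox n d H ∧ ∃ (k : Fin (n + 1)) (y : Fin (n + 1) → ℤ),
      IsPrim y ∧ |y k| = q ∧ (∀ j, |y j| ≤ q) ∧ ∀ i, eval y (F i) = 0} I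
      (fun i => {F | F ∈ SysBox n d H ∧ IsPrim (Y i) ∧ ∀ j, eval (Y i) (F j) = 0})
      (fun i _ => (finite_sys n d H).subset (fun F hF => hF.1)) (by
        rintro F ⟨hF, k, y, hp, hk, hy, h0⟩
        have hYy : Y (k, y k, fun j => y (k.succAbove j)) = y := by
          simp only [Y]
          exact Fin.insertNth_self_removeNth k y
        refine ⟨(k, y k, fun j => y (k.succAbove j)), ?_, hF, ?_, ?_⟩
        · simp only [I, mem_product, mem_univ, mem_insert, mem_singleton, true_and,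
            Fintype.mem_piFinset, mem_Icc]
          refine ⟨?_, fun j => abs_le.1 (hy _)⟩
          rcases abs_choice (y k) with h1 | h1
          · left; rw [← hk, h1]
          · right; rw [← hk, h1, neg_neg]
        · rw [hYy]; exact hp
        · rw [hYy]; exact h0)
  refine h.trans ?_
  have h2 : ∀ i ∈ I, (Nat.card {F | F ∈ SysBox n d H ∧ IsPrim (Y i) ∧
      ∀ j, eval (Y i) (F j) = 0} : ℝ) ≤
      C1 n d * (H : ℝ) ^ (∑ i, ((n + d i).choose n - 1)) *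
        (((q : ℝ) ^ (∑ i, d i))⁻¹ + ((H : ℝ) ^ (∑ i, d i))⁻¹) := by
    rintro ⟨k, a, z⟩ hi
    simp only [I, mem_product, mem_univ, mem_insert, mem_singleton, true_and,
            Fintype.mem_piFinset, mem_Icc] at hi
    by_cases hp : IsPrim (Y (k, a, z))
    · have h3 := real_sys d (Y (k, a, z)) hp q hq1 k (by
        simp only [Y, Fin.insertNth_apply_same]
        rcases hi.1 with h1 | h1
        · rw [h1, Nat.abs_cast]
        · rw [h1, abs_neg, Nat.abs_cast]) H hH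
      refine le_trans ?_ h3
      have h4 : Nat.card {F | F ∈ SysBox n d H ∧ IsPrim (Y (k, a, z)) ∧
          ∀ j, eval (Y (k, a, z)) (F j) = 0} ≤
          Nat.card {F | F ∈ SysBox n d H ∧ ∀ j, eval (Y (k, a, z)) (F j) = 0} := by
        simp only [Nat.card_coe_set_eq]
        exact Set.ncard_le_ncard (fun F hF => ⟨hF.1, hF.2.2⟩)
          ((finite_sys n d H).subset (fun F hF => hF.1))
      exact_mod_cast h4
    · have hem : {F | F ∈ SysBox n d H ∧ IsPrim (Y (k, a, z)) ∧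
          ∀ j, eval (Y (k, a, z)) (F j) = 0} = ∅ := by
        rw [Set.eq_empty_iff_forall_notMem]
        rintro F ⟨_, h, _⟩
        exact hp h
      rw [hem]
      have h0 : (Nat.card (∅ : Set (Fin r → MvPolynomial (Fin (n + 1)) ℤ)) : ℝ) = 0 := by simp
      rw [h0]
      have := C1_pos n d
      positivity
  refine (sum_le_sum h2).trans ?_
  rw [sum_const, nsmul_eq_mul]
  have hC := C1_pos n d
  apply mul_le_mul_of_nonneg_right _ (by positivity)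
  have h3 : #I ≤ (n + 1) * (2 * (2 * q + 1) ^ n) := by
    simp only [I]
    rw [card_product, card_product, card_univ, Fintype.card_fin, Fintype.card_piFinset]
    simp only [prod_const, card_univ, Fintype.card_fin, Int.card_Icc]
    have h4 : #({(q : ℤ), -(q : ℤ)} : Finset ℤ) ≤ 2 := card_le_two
    have h5 : ((q : ℤ) + 1 - -(q : ℤ)).toNat = 2 * q + 1 := by omega
    rw [h5]
    exact Nat.mul_le_mul_left _ (Nat.mul_le_mul_right _ h4)
  have h6 : (#I : ℝ) ≤ (((n + 1) * (2 * (2 * q + 1) ^ n) : ℕ) : ℝ) := by exact_mod_cast h3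
  refine h6.trans ?_
  push_cast
  have h7 : (2 * (q : ℝ) + 1) ^ n ≤ 3 ^ n * (q : ℝ) ^ n := by
    rw [← mul_pow]
    apply pow_le_pow_left₀ (by positivity)
    have : (1 : ℝ) ≤ q := by exact_mod_cast hq1
    linarith
  calc ((n : ℝ) + 1) * (2 * (2 * q + 1) ^ n) ≤ (n + 1) * (2 * (3 ^ n * (q : ℝ) ^ n)) := by
        apply mul_le_mul_of_nonneg_left _ (by positivity)
        linarith
    _ = _ := by ring

theorem sumQ (R T : ℕ) : ∑ q ∈ Ioc R T, ((q : ℝ) ^ 2)⁻¹ ≤ 2 / ((R : ℝ) + 1) := by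
  have h := sum_Ioo_inv_sq_le (α := ℝ) R (T + 1)
  have h1 : Ioc R T = Ioo R (T + 1) := by ext a; rw [mem_Ioc, mem_Ioo]; omega
  rw [h1]; exact h

theorem tail_proj {n r : ℕ} (d : Fin r → ℕ) (hD : n + 2 ≤ ∑ i, d i) (H R T : ℕ) (hH : 1 ≤ H) :
    (Nat.card (PS1 n d H R T) : ℝ) ≤
      (4 * (n + 1) * 3 ^ n * C1 n d) * (H : ℝ) ^ (∑ i, ((n + d i).choose n - 1)) *
        ((((R : ℝ) + 1) ^ (∑ i, d i - n - 1))⁻¹ + (T : ℝ) ^ (n + 1) * ((H : ℝ) ^ (∑ i, d i))⁻¹) := by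
  have hC := C1_pos n d
  have h := card_le_sum (PS1 n d H R T) (Ioc R T) (fun q => {F | F ∈ SysBox n d H ∧
      ∃ (k : Fin (n + 1)) (y : Fin (n + 1) → ℤ), IsPrim y ∧
      |y k| = q ∧ (∀ j, |y j| ≤ q) ∧ ∀ i, eval y (F i) = 0})
      (fun i _ => (finite_sys n d H).subset (fun F hF => hF.1)) (by
        rintro F ⟨hF, y, hp, ⟨k0, hk0⟩, hT, h0⟩
        obtain ⟨k, -, hk⟩ := exists_max_image (univ : Finset (Fin (n + 1))) (fun k => |y k|)
          ⟨0, mem_univ _⟩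
        have h1 : |y k| = ((y k).natAbs : ℤ) := Int.abs_eq_natAbs _
        refine ⟨(y k).natAbs, ?_, hF, k, y, hp, h1, fun j => ?_, h0⟩
        · have h2 := hk k0 (mem_univ _)
          have h3 := hT k
          rw [h1] at h2 h3
          rw [mem_Ioc]
          constructor
          · have : (R : ℤ) < ((y k).natAbs : ℤ) := lt_of_lt_of_le hk0 h2
            exact_mod_cast this
          · exact_mod_cast h3
        · rw [← h1]; exact hk j (mem_univ _))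
  refine h.trans ?_
  set M : ℝ := (H : ℝ) ^ (∑ i, ((n + d i).choose n - 1)) with hM
  set D : ℕ := ∑ i, d i with hDdef
  have h1 : ∀ q ∈ Ioc R T, (Nat.card {F | F ∈ SysBox n d H ∧
      ∃ (k : Fin (n + 1)) (y : Fin (n + 1) → ℤ), IsPrim y ∧
      |y k| = q ∧ (∀ j, |y j| ≤ q) ∧ ∀ i, eval y (F i) = 0} : ℝ) ≤
      (2 * (n + 1) * 3 ^ n * C1 n d * M) *
        ((((R : ℝ) + 1) ^ (D - n - 2))⁻¹ * ((q : ℝ) ^ 2)⁻¹ + (T : ℝ) ^ n * ((H : ℝ) ^ D)⁻¹) := by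
    intro q hq
    rw [mem_Ioc] at hq
    refine (sphere_sys d H q hH (by omega)).trans ?_
    rw [← hM, ← hDdef]
    have e1 : 2 * ((n : ℝ) + 1) * 3 ^ n * (q : ℝ) ^ n * (C1 n d * M * (((q : ℝ) ^ D)⁻¹ +
        ((H : ℝ) ^ D)⁻¹)) = (2 * (n + 1) * 3 ^ n * C1 n d * M) *
        ((q : ℝ) ^ n * ((q : ℝ) ^ D)⁻¹ + (q : ℝ) ^ n * ((H : ℝ) ^ D)⁻¹) := by ring
    rw [e1]
    apply mul_le_mul_of_nonneg_left _ (by positivity)
    have hq0 : (0 : ℝ) < q := by exact_mod_cast (by omega : 0 < q)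
    apply add_le_add
    · have e2 : (q : ℝ) ^ n * ((q : ℝ) ^ D)⁻¹ = ((q : ℝ) ^ (D - n - 2))⁻¹ * ((q : ℝ) ^ 2)⁻¹ := by
        have e3 : (q : ℝ) ^ D = (q : ℝ) ^ n * (q : ℝ) ^ (D - n - 2) * (q : ℝ) ^ 2 := by
          rw [← pow_add, ← pow_add]; congr 1; omega
        rw [e3]
        field_simp
      rw [e2]
      apply mul_le_mul_of_nonneg_right _ (by positivity)
      apply inv_anti₀ (by positivity)
      apply pow_le_pow_left₀ (by positivity)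
      have : R + 1 ≤ q := hq.1
      exact_mod_cast this
    · apply mul_le_mul_of_nonneg_right _ (by positivity)
      apply pow_le_pow_left₀ hq0.le
      exact_mod_cast hq.2
  refine (sum_le_sum h1).trans ?_
  rw [← mul_sum, sum_add_distrib, ← mul_sum, sum_const, nsmul_eq_mul]
  have h2 := sumQ R T
  have h3 : (#(Ioc R T) : ℝ) ≤ T := by
    rw [Nat.card_Ioc]; exact_mod_cast Nat.sub_le _ _
  have e4 : (((R : ℝ) + 1) ^ (D - n - 1))⁻¹ = (((R : ℝ) + 1) ^ (D - n - 2))⁻¹ * ((R : ℝ) + 1)⁻¹ := by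
    rw [← mul_inv, ← pow_succ]; congr 2; omega
  rw [e4]
  have hM0 : 0 ≤ M := by positivity
  calc 2 * ((n : ℝ) + 1) * 3 ^ n * C1 n d * M * ((((R : ℝ) + 1) ^ (D - n - 2))⁻¹ *
        ∑ q ∈ Ioc R T, ((q : ℝ) ^ 2)⁻¹ + (#(Ioc R T) : ℝ) * ((T : ℝ) ^ n * ((H : ℝ) ^ D)⁻¹)) ≤
      2 * ((n : ℝ) + 1) * 3 ^ n * C1 n d * M * ((((R : ℝ) + 1) ^ (D - n - 2))⁻¹ *
        (2 / ((R : ℝ) + 1)) + 2 * (T * ((T : ℝ) ^ n * ((H : ℝ) ^ D)⁻¹))) := by
        apply mul_le_mul_of_nonneg_left _ (by positivity)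
        apply add_le_add
        · exact mul_le_mul_of_nonneg_left h2 (by positivity)
        · have i1 : (#(Ioc R T) : ℝ) * ((T : ℝ) ^ n * ((H : ℝ) ^ D)⁻¹) ≤
              T * ((T : ℝ) ^ n * ((H : ℝ) ^ D)⁻¹) :=
            mul_le_mul_of_nonneg_right h3 (by positivity)
          have i2 : 0 ≤ T * ((T : ℝ) ^ n * ((H : ℝ) ^ D)⁻¹) := by positivity
          linarith
    _ = _ := by rw [pow_succ (T : ℝ) n]; ring

end Pool.Agent.Q256.UP
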