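import Mathlib
import Pool.Agent.Q256.UP.PrB

set_option autoImplicit false

namespace Pool.Agent.Q256.UP

open Finset MvPolynomial Pool.Agent.Q256.CI

/-- the constant of the main theorem. -/
noncomputable def C2 {r : ℕ} (n : ℕ) (d : Fin r → ℕ) : ℝ :=
  4 * (n + 1) * 3 ^ n * C1 n d + 9 ^ (n + 1) * ∏ i, (7 : ℝ) ^ (n + d i).choose n

theorem C2_pos {r : ℕ} (n : ℕ) (d : Fin r → ℕ) : 0 < C2 n d := by
  unfold C2
  have h1 := C1_pos n d
  have h2 : 0 < ∏ i, (7 : ℝ) ^ (n + d i).choose n := prod_pos (fun i _ => by positivity)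
  positivity

theorem two_proj {n r : ℕ} (d : Fin r → ℕ) (hd : ∀ i, 1 ≤ d i) (hD : n + 2 ≤ ∑ i, d i)
    (H T : ℕ) (hH : 1 ≤ H) :
    (Nat.card (PS2 n d H T) : ℝ) ≤ C2 n d * (H : ℝ) ^ (∑ i, ((n + d i).choose n - 1)) *
      ((H : ℝ) ^ (-((r : ℝ) * (((∑ i, d i : ℕ) : ℝ) - n - 1) / (((∑ i, d i : ℕ) : ℝ) + n + 1))) +
        (T : ℝ) ^ (n + 1) * ((H : ℝ) ^ (∑ i, d i))⁻¹) := by
  classical
  have hC := C1_pos n d
  have h7 : 0 < ∏ i, (7 : ℝ) ^ (n + d i).choose n := prod_pos (fun i _ => by positivity)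
  set D : ℕ := ∑ i, d i with hDdef
  have hH0 : (0 : ℝ) < H := by exact_mod_cast hH
  have hH1 : (1 : ℝ) ≤ H := by exact_mod_cast hH
  have hDr : (n : ℝ) + 2 ≤ (D : ℝ) := by exact_mod_cast hD
  have hDn : (0 : ℝ) < (D : ℝ) + n + 1 := by positivity
  set R : ℕ := ⌊(H : ℝ) ^ ((r : ℝ) / ((D : ℝ) + n + 1))⌋₊ with hR
  have hρ1 : (1 : ℝ) ≤ (H : ℝ) ^ ((r : ℝ) / ((D : ℝ) + n + 1)) :=
    Real.one_le_rpow hH1 (by positivity)
  have hR1 : (R : ℝ) ≤ (H : ℝ) ^ ((r : ℝ) / ((D : ℝ) + n + 1)) := Nat.floor_le (by positivity)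
  have hR2 : (H : ℝ) ^ ((r : ℝ) / ((D : ℝ) + n + 1)) < R + 1 := Nat.lt_floor_add_one _
  have hR3 : 1 ≤ R := Nat.le_floor (by exact_mod_cast hρ1)
  let I : Finset (Fin (n + 1) → ℤ) := Fintype.piFinset (fun _ => Icc (-(R : ℤ)) R)
  have hI : (#I : ℝ) ≤ (3 * R) ^ (n + 1) := by
    simp only [I]
    rw [Fintype.card_piFinset]
    simp only [prod_const, card_univ, Fintype.card_fin]
    push_cast
    exact pow_le_pow_left₀ (Nat.cast_nonneg _) (card_icc_le R hR3) _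
  have hmemI : ∀ P : Fin (n + 1) → ℤ, (∀ k, |P k| ≤ R) → P ∈ I := by
    intro P hP
    simp only [I, Fintype.mem_piFinset]
    intro i
    rw [mem_Icc, ← abs_le]
    exact hP i
  set M : ℝ := (H : ℝ) ^ (∑ i, ((n + d i).choose n - 1)) with hM
  let V : (Fin (n + 1) → ℤ) × (Fin (n + 1) → ℤ) → Set (Fin r → MvPolynomial (Fin (n + 1)) ℤ) :=
    fun i => {F | F ∈ SysBox n d H ∧ (∃ a b, i.1 a * i.2 b - i.1 b * i.2 a ≠ 0) ∧
      (∀ j, eval i.1 (F j) = 0) ∧ ∀ j, eval i.2 (F j) = 0}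
  have h1 := card_union3 (PS2 n d H T) (PS1 n d H R T)
    {F | F ∈ SysBox n d H ∧ ∃ i ∈ I ×ˢ I, F ∈ V i} ∅
    ((finite_sys n d H).subset (fun F hF => hF.1)) ((finite_sys n d H).subset (fun F hF => hF.1))
    Set.finite_empty (by
      rintro F ⟨hF, y, z, hy, hz, hne, hT1, hT2, h0, h0'⟩
      left
      by_cases h : ∃ k, (R : ℤ) < |y k|
      · left; exact ⟨hF, y, hy, h, hT1, h0⟩
      by_cases h' : ∃ k, (R : ℤ) < |z k|
      · left; exact ⟨hF, z, hz, h', hT2, h0'⟩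
      right
      push Not at h h'
      exact ⟨hF, (y, z), mem_product.2 ⟨hmemI y h, hmemI z h'⟩, hF, hne, h0, h0'⟩)
  have h2 := card_le_sum {F | F ∈ SysBox n d H ∧ ∃ i ∈ I ×ˢ I, F ∈ V i} (I ×ˢ I) V
    (fun i _ => (finite_sys n d H).subset (fun F hF => hF.1)) (fun F hF => hF.2)
  have h3 : ∀ i ∈ I ×ˢ I, (Nat.card (V i) : ℝ) ≤ (∏ i, (7 : ℝ) ^ (n + d i).choose n) *
      M * ((H : ℝ) ^ r)⁻¹ := by
    rintro ⟨y, z⟩ _
    by_cases hne : ∃ a b, y a * z b - y b * z a ≠ 0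
    · refine le_trans ?_ (real_two_sys d hd y z hne H hH)
      have h4 : Nat.card (V (y, z)) ≤ Nat.card
          {F | F ∈ SysBox n d H ∧ (∀ i, eval y (F i) = 0) ∧ ∀ i, eval z (F i) = 0} := by
        simp only [Nat.card_coe_set_eq]
        exact Set.ncard_le_ncard (fun F hF => ⟨hF.1, hF.2.2⟩)
          ((finite_sys n d H).subset (fun F hF => hF.1))
      exact_mod_cast h4
    · have hem : V (y, z) = ∅ := by
        rw [Set.eq_empty_iff_forall_notMem]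
        rintro F ⟨_, h, _⟩
        exact hne h
      rw [hem]
      have h0 : (Nat.card (∅ : Set (Fin r → MvPolynomial (Fin (n + 1)) ℤ)) : ℝ) = 0 := by simp
      rw [h0]
      positivity
  have h5 : (Nat.card {F | F ∈ SysBox n d H ∧ ∃ i ∈ I ×ˢ I, F ∈ V i} : ℝ) ≤
      (9 ^ (n + 1) * ∏ i, (7 : ℝ) ^ (n + d i).choose n) * M *
        (H : ℝ) ^ (-((r : ℝ) * ((D : ℝ) - n - 1) / ((D : ℝ) + n + 1))) := by
    refine h2.trans ((sum_le_sum h3).trans ?_)
    rw [sum_const, nsmul_eq_mul, card_product]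
    push_cast
    have h6 : (#I : ℝ) * #I ≤ 9 ^ (n + 1) *
        (H : ℝ) ^ ((r : ℝ) / ((D : ℝ) + n + 1) * (2 * (n + 1))) := by
      calc (#I : ℝ) * #I ≤ (3 * R) ^ (n + 1) * (3 * R) ^ (n + 1) :=
            mul_le_mul hI hI (Nat.cast_nonneg _) (by positivity)
        _ = 9 ^ (n + 1) * (R : ℝ) ^ (2 * (n + 1)) := by
            rw [← mul_pow, pow_mul (R : ℝ) 2 (n + 1), ← mul_pow]; congr 1; ring
        _ ≤ 9 ^ (n + 1) * ((H : ℝ) ^ ((r : ℝ) / ((D : ℝ) + n + 1))) ^ (2 * (n + 1)) := by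
            apply mul_le_mul_of_nonneg_left _ (by positivity)
            exact pow_le_pow_left₀ (Nat.cast_nonneg _) hR1 _
        _ = _ := by
            rw [← Real.rpow_natCast ((H : ℝ) ^ ((r : ℝ) / ((D : ℝ) + n + 1))) (2 * (n + 1)),
              ← Real.rpow_mul hH0.le]
            push_cast; rfl
    have h7' : (H : ℝ) ^ ((r : ℝ) / ((D : ℝ) + n + 1) * (2 * (n + 1))) * ((H : ℝ) ^ r)⁻¹ =
        (H : ℝ) ^ (-((r : ℝ) * ((D : ℝ) - n - 1) / ((D : ℝ) + n + 1))) := by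
      rw [← Real.rpow_natCast (H : ℝ) r, ← Real.rpow_neg hH0.le, ← Real.rpow_add hH0]
      congr 1
      field_simp
      ring
    calc (#I : ℝ) * #I * ((∏ i, (7 : ℝ) ^ (n + d i).choose n) * M * ((H : ℝ) ^ r)⁻¹) ≤
          (9 ^ (n + 1) * (H : ℝ) ^ ((r : ℝ) / ((D : ℝ) + n + 1) * (2 * (n + 1)))) *
          ((∏ i, (7 : ℝ) ^ (n + d i).choose n) * M * ((H : ℝ) ^ r)⁻¹) :=
          mul_le_mul_of_nonneg_right h6 (by positivity)
      _ = 9 ^ (n + 1) * (∏ i, (7 : ℝ) ^ (n + d i).choose n) * M *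
          ((H : ℝ) ^ ((r : ℝ) / ((D : ℝ) + n + 1) * (2 * (n + 1))) * ((H : ℝ) ^ r)⁻¹) := by ring
      _ = _ := by rw [h7']
  have h8 := tail_proj d hD H R T hH
  rw [← hM, ← hDdef] at h8
  have h9 : (((R : ℝ) + 1) ^ (D - n - 1))⁻¹ ≤
      (H : ℝ) ^ (-((r : ℝ) * ((D : ℝ) - n - 1) / ((D : ℝ) + n + 1))) := by
    rw [Real.rpow_neg hH0.le]
    apply inv_anti₀ (by positivity)
    calc (H : ℝ) ^ ((r : ℝ) * ((D : ℝ) - n - 1) / ((D : ℝ) + n + 1)) =
          ((H : ℝ) ^ ((r : ℝ) / ((D : ℝ) + n + 1))) ^ (D - n - 1) := by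
          rw [← Real.rpow_natCast ((H : ℝ) ^ ((r : ℝ) / ((D : ℝ) + n + 1))) (D - n - 1),
            ← Real.rpow_mul hH0.le]
          congr 1
          rw [Nat.cast_sub (by omega), Nat.cast_sub (by omega)]
          push_cast
          ring
      _ ≤ _ := pow_le_pow_left₀ (by positivity) hR2.le _
  have h10 : (Nat.card (∅ : Set (Fin r → MvPolynomial (Fin (n + 1)) ℤ)) : ℝ) = 0 := by simp
  rw [h10, add_zero] at h1
  refine h1.trans ((add_le_add h8 h5).trans ?_)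
  set u : ℝ := (H : ℝ) ^ (-((r : ℝ) * ((D : ℝ) - n - 1) / ((D : ℝ) + n + 1))) with hu
  set v : ℝ := (T : ℝ) ^ (n + 1) * ((H : ℝ) ^ D)⁻¹ with hv
  have hM0 : 0 ≤ M := by positivity
  have hv0 : 0 ≤ v := by positivity
  have hu0 : 0 ≤ u := by positivity
  set c1 : ℝ := 4 * (n + 1) * 3 ^ n * C1 n d with hc1
  set c2 : ℝ := 9 ^ (n + 1) * ∏ i, (7 : ℝ) ^ (n + d i).choose n with hc2
  have hc10 : 0 ≤ c1 := by positivity
  have hc20 : 0 ≤ c2 := by positivity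
  have i1 : c1 * M * ((((R : ℝ) + 1) ^ (D - n - 1))⁻¹ + v) ≤ c1 * M * (u + v) := by
    apply mul_le_mul_of_nonneg_left _ (mul_nonneg hc10 hM0)
    linarith
  have i2 : 0 ≤ c2 * M * v := by positivity
  have i3 : C2 n d * M * (u + v) = c1 * M * (u + v) + c2 * M * u + c2 * M * v := by
    have : C2 n d = c1 + c2 := rfl
    rw [this]; ring
  rw [i3]
  linarith

/-- systems vanishing at `(1, 0, ..., 0)`. -/
theorem lower_sys {n r : ℕ} (d : Fin r → ℕ) (H T : ℕ) (hT : 1 ≤ T) :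
    (2 * H + 1) ^ (∑ i, ((n + d i).choose n - 1)) ≤
      Nat.card {F | F ∈ SysBox n d H ∧ ∃ y : Fin (n + 1) → ℤ, IsPrim y ∧ (∀ k, |y k| ≤ T) ∧
        ∀ i, eval y (F i) = 0} := by
  classical
  let S : Fin r → Finset (Fin (n + 1) →₀ ℕ) := fun i =>
    (Finset.finsuppAntidiag (univ : Finset (Fin (n + 1))) (d i)).erase (Finsupp.single 0 (d i))
  have hS : ∀ i, #(S i) = (n + d i).choose n - 1 := by
    intro i
    rw [card_erase_of_mem, card_anti]
    rw [mem_anti]; simp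
  have h1 : (2 * H + 1) ^ (∑ i, ((n + d i).choose n - 1)) =
      Nat.card {F : Fin r → MvPolynomial (Fin (n + 1)) ℤ | ∀ i, F i ∈ SBox (S i) H} := by
    rw [card_sys_eq, ← prod_pow_eq_pow_sum]
    refine prod_congr rfl (fun i _ => ?_)
    rw [card_sbox, hS]
  rw [h1, Nat.card_coe_set_eq, Nat.card_coe_set_eq]
  apply Set.ncard_le_ncard _ ((finite_sys n d H).subset (fun F hF => hF.1))
  intro F hF
  refine ⟨fun i => ?_, Pi.single 0 1, ⟨Pi.single 0 1, ?_⟩, fun k => ?_, fun i => ?_⟩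
  · rw [box_eq]
    exact ⟨(hF i).1, (hF i).2.trans (erase_subset _ _)⟩
  · rw [Finset.sum_eq_single 0]
    · simp
    · intro b _ hb; rw [Pi.single_eq_of_ne hb]; simp
    · intro h; exact absurd (mem_univ _) h
  · have h2 : |(Pi.single (0 : Fin (n + 1)) (1 : ℤ) : Fin (n + 1) → ℤ) k| ≤ 1 := by
      by_cases h3 : k = 0
      · subst h3; simp
      · rw [Pi.single_eq_of_ne h3]; simp
    exact h2.trans (by exact_mod_cast hT)
  · rw [eval_eq']
    refine sum_eq_zero (fun α hα => ?_)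
    have h2 := (hF i).2 hα
    rw [Finset.mem_erase, mem_anti] at h2
    obtain ⟨h3, h4⟩ := h2
    obtain ⟨k, hk, hk2⟩ : ∃ k, k ≠ 0 ∧ α k ≠ 0 := by
      by_contra h
      push Not at h
      apply h3
      ext k
      by_cases hk : k = 0
      · subst hk
        rw [Finsupp.single_eq_same, ← h4, Finsupp.degree_eq_sum]
        rw [Finset.sum_eq_single 0]
        · intro b _ hb; exact h b hb
        · intro h5; exact absurd (mem_univ _) h5
      · rw [h k hk, Finsupp.single_eq_of_ne hk]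
    have h5 : ∏ k, (Pi.single (0 : Fin (n + 1)) (1 : ℤ) : Fin (n + 1) → ℤ) k ^ α k = 0 := by
      apply prod_eq_zero (mem_univ k)
      rw [Pi.single_eq_of_ne hk]
      simp [hk2]
    rw [h5, mul_zero]

end Pool.Agent.Q256.UP
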