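import Mathlib
import Pool.Agent.Q256.UP.PrC

set_option autoImplicit false

namespace Pool.Agent.Q256.UP

open Finset MvPolynomial Pool.Agent.Q256.CI

/-- integral points of size at most `T`. -/
def IPt {n r : ℕ} (J : Finset (Fin (n + 1))) (A : Fin r → Finset ℤ)
    (F : Fin r → MvPolynomial (Fin (n + 1)) ℤ) (T : ℕ) : Set (Fin (n + 1) → ℤ) :=
  {y | IsPrim y ∧ (∀ k, |y k| ≤ T) ∧ (∀ j ∈ J, |y j| = 1) ∧ ∀ i, eval y (F i) ∈ A i}

/-- the vectors with maximum `q` at `k`. -/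
noncomputable def boxK {n : ℕ} (J : Finset (Fin (n + 1))) (q : ℕ) (k : Fin (n + 1)) :
    Finset (Fin (n + 1) → ℤ) :=
  Fintype.piFinset (fun j => if j = k then ({(q : ℤ), -(q : ℤ)} : Finset ℤ) else
    if j ∈ J then ({(1 : ℤ), -1} : Finset ℤ) else Icc (-(q : ℤ)) q)

theorem card_pm (q : ℕ) : #({(q : ℤ), -(q : ℤ)} : Finset ℤ) ≤ 2 := card_le_two

theorem card_boxK {n : ℕ} (J : Finset (Fin (n + 1))) (q : ℕ) (k : Fin (n + 1)) (hk : k ∉ J) :
    #(boxK J q k) ≤ 2 ^ (#J + 1) * (2 * q + 1) ^ (n - #J) := by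
  unfold boxK
  rw [Fintype.card_piFinset]
  have h1 : ∀ j ∈ (univ : Finset (Fin (n + 1))),
      #(if j = k then ({(q : ℤ), -(q : ℤ)} : Finset ℤ) else
      if j ∈ J then ({(1 : ℤ), -1} : Finset ℤ) else Icc (-(q : ℤ)) q) ≤
      if j ∈ insert k J then 2 else 2 * q + 1 := by
    intro j _
    by_cases hj : j = k
    · rw [if_pos hj, if_pos (by rw [hj]; exact mem_insert_self _ _)]
      exact card_le_two
    · rw [if_neg hj]
      by_cases hJ : j ∈ J
      · rw [if_pos hJ, if_pos (mem_insert_of_mem hJ)]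
        exact card_le_two
      · rw [if_neg hJ, if_neg (by rw [mem_insert]; tauto), Int.card_Icc]
        omega
  refine (prod_le_prod' h1).trans ?_
  rw [prod_ite, prod_const, prod_const]
  have h2 : #{x ∈ (univ : Finset (Fin (n + 1))) | x ∈ insert k J} = #J + 1 := by
    rw [filter_mem_eq_inter, univ_inter, card_insert_of_notMem hk]
  have h3 : #{x ∈ (univ : Finset (Fin (n + 1))) | x ∉ insert k J} = n - #J := by
    have h4 := card_filter_add_card_filter_not (s := (univ : Finset (Fin (n + 1))))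
      (fun x => x ∈ insert k J)
    rw [h2, card_univ, Fintype.card_fin] at h4
    omega
  rw [h2, h3]

/-- vectors of size exactly `q`. -/
noncomputable def sph {n : ℕ} (J : Finset (Fin (n + 1))) (q : ℕ) : Finset (Fin (n + 1) → ℤ) := by
  classical
  exact if q ≤ 1 then Fintype.piFinset (fun _ => Icc (-(1 : ℤ)) 1) else
    (univ.filter (fun k => k ∉ J)).biUnion (boxK J q)

theorem mem_sph {n : ℕ} (J : Finset (Fin (n + 1))) (y : Fin (n + 1) → ℤ) (q : ℕ)
    (k : Fin (n + 1)) (hk : |y k| = q) (hy : ∀ j, |y j| ≤ q) (hJ : ∀ j ∈ J, |y j| = 1) :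
    y ∈ sph J q := by
  classical
  unfold sph
  split_ifs with h
  · rw [Fintype.mem_piFinset]
    intro j
    rw [mem_Icc, ← abs_le]
    exact (hy j).trans (by exact_mod_cast h)
  · rw [mem_biUnion]
    refine ⟨k, ?_, ?_⟩
    · rw [mem_filter]
      refine ⟨mem_univ _, fun hkJ => ?_⟩
      have := hJ k hkJ
      rw [hk] at this
      apply h
      have h2 : q = 1 := by exact_mod_cast this
      omega
    · unfold boxK
      rw [Fintype.mem_piFinset]
      intro j
      by_cases hj : j = k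
      · rw [if_pos hj, hj, mem_insert, mem_singleton]
        rcases abs_choice (y k) with h1 | h1
        · left; rw [← hk, h1]
        · right; rw [← hk, h1, neg_neg]
      · rw [if_neg hj]
        by_cases hjJ : j ∈ J
        · rw [if_pos hjJ, mem_insert, mem_singleton]
          have h0 := hJ j hjJ
          rcases abs_choice (y j) with h1 | h1
          · left; rw [← h0, h1]
          · right; rw [← h0, h1, neg_neg]
        · rw [if_neg hjJ, mem_Icc, ← abs_le]
          exact hy j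

theorem card_sph {n : ℕ} (J : Finset (Fin (n + 1))) (q : ℕ) (hq : 1 ≤ q) :
    (#(sph J q) : ℝ) ≤ (n + 1) * 12 ^ (n + 1) * (q : ℝ) ^ (n - #J) := by
  classical
  have hq1 : (1 : ℝ) ≤ q := by exact_mod_cast hq
  have hqp : (1 : ℝ) ≤ (q : ℝ) ^ (n - #J) := one_le_pow₀ hq1
  unfold sph
  split_ifs with h
  · rw [Fintype.card_piFinset]
    simp only [prod_const, card_univ, Fintype.card_fin, Int.card_Icc]
    have h5 : ((1 : ℤ) + 1 - -1).toNat = 3 := by rfl
    rw [h5]
    push_cast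
    calc (3 : ℝ) ^ (n + 1) ≤ 1 * 12 ^ (n + 1) := by
          rw [one_mul]; exact pow_le_pow_left₀ (by norm_num) (by norm_num) _
      _ ≤ (n + 1) * 12 ^ (n + 1) := by
          apply mul_le_mul_of_nonneg_right _ (by positivity)
          have : (0 : ℝ) ≤ n := Nat.cast_nonneg _
          linarith
      _ = (n + 1) * 12 ^ (n + 1) * 1 := by ring
      _ ≤ _ := mul_le_mul_of_nonneg_left hqp (by positivity)
  · have h1 : #((univ.filter (fun k => k ∉ J)).biUnion (boxK J q)) ≤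
        (n + 1) * (2 ^ (n + 1) * 2 * (2 * q + 1) ^ (n - #J)) := by
      refine card_biUnion_le.trans ?_
      have h2 : ∀ k ∈ univ.filter (fun k => k ∉ J), #(boxK J q k) ≤
          2 ^ (n + 1) * 2 * (2 * q + 1) ^ (n - #J) := by
        intro k hk
        refine (card_boxK J q k (mem_filter.1 hk).2).trans ?_
        apply Nat.mul_le_mul_right
        rw [← pow_succ]
        apply Nat.pow_le_pow_right (by norm_num)
        have := card_le_univ J
        rw [Fintype.card_fin] at this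
        omega
      refine (sum_le_sum h2).trans ?_
      rw [sum_const, smul_eq_mul]
      apply Nat.mul_le_mul_right
      refine (card_filter_le _ _).trans ?_
      rw [card_univ, Fintype.card_fin]
    have h2 : (#((univ.filter (fun k => k ∉ J)).biUnion (boxK J q)) : ℝ) ≤
        (((n + 1) * (2 ^ (n + 1) * 2 * (2 * q + 1) ^ (n - #J)) : ℕ) : ℝ) := by exact_mod_cast h1
    refine h2.trans ?_
    push_cast
    have h3 : (2 * (q : ℝ) + 1) ^ (n - #J) ≤ 3 ^ n * (q : ℝ) ^ (n - #J) := by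
      calc (2 * (q : ℝ) + 1) ^ (n - #J) ≤ (3 * q) ^ (n - #J) :=
            pow_le_pow_left₀ (by positivity) (by linarith) _
        _ = 3 ^ (n - #J) * (q : ℝ) ^ (n - #J) := mul_pow _ _ _
        _ ≤ _ := by
            apply mul_le_mul_of_nonneg_right _ (by positivity)
            exact pow_le_pow_right₀ (by norm_num) (Nat.sub_le _ _)
    have h4 : (2 : ℝ) ^ (n + 1) * 2 * 3 ^ n ≤ 12 ^ (n + 1) := by
      have e1 : (2 : ℝ) ^ (n + 1) * 2 * 3 ^ n ≤ 2 ^ (n + 1) * 2 ^ (n + 1) * 3 ^ (n + 1) := by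
        apply mul_le_mul
        · apply mul_le_mul_of_nonneg_left _ (by positivity)
          calc (2 : ℝ) = 2 ^ 1 := (pow_one _).symm
            _ ≤ 2 ^ (n + 1) := pow_le_pow_right₀ (by norm_num) (by omega)
        · exact pow_le_pow_right₀ (by norm_num) (by omega)
        · positivity
        · positivity
      refine e1.trans (le_of_eq ?_)
      rw [← mul_pow, ← mul_pow]; norm_num
    calc ((n : ℝ) + 1) * (2 ^ (n + 1) * 2 * (2 * q + 1) ^ (n - #J)) ≤
          (n + 1) * (2 ^ (n + 1) * 2 * (3 ^ n * (q : ℝ) ^ (n - #J))) := by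
          apply mul_le_mul_of_nonneg_left _ (by positivity)
          exact mul_le_mul_of_nonneg_left h3 (by positivity)
      _ = (n + 1) * (2 ^ (n + 1) * 2 * 3 ^ n) * (q : ℝ) ^ (n - #J) := by ring
      _ ≤ _ := by
          apply mul_le_mul_of_nonneg_right _ (by positivity)
          exact mul_le_mul_of_nonneg_left h4 (by positivity)

/-- one point, systems with values in finite sets. -/
theorem real_sysA {n r : ℕ} (d : Fin r → ℕ) (A : Fin r → Finset ℤ) (y : Fin (n + 1) → ℤ)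
    (hprim : IsPrim y) (q : ℕ) (hq1 : 1 ≤ q) (k0 : Fin (n + 1)) (hq : |y k0| = q) (H : ℕ)
    (hH : 1 ≤ H) :
    (Nat.card {F | F ∈ SysBox n d H ∧ ∀ i, eval y (F i) ∈ A i} : ℝ) ≤
      ((∏ i, (#(A i) : ℝ)) * C1 n d) *
        (H : ℝ) ^ (∑ i, ((n + d i).choose n - 1)) *
        (((q : ℝ) ^ (∑ i, d i))⁻¹ + ((H : ℝ) ^ (∑ i, d i))⁻¹) := by
  have hH0 : (0 : ℝ) < H := by exact_mod_cast hH
  have hq0 : (0 : ℝ) < q := by exact_mod_cast hq1
  have h1 : {F | F ∈ SysBox n d H ∧ ∀ i, eval y (F i) ∈ A i} =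
      {F : Fin r → MvPolynomial (Fin (n + 1)) ℤ | ∀ i, F i ∈
        {G | G ∈ Box n (d i) H ∧ eval y G ∈ A i}} := by
    ext F
    constructor
    · rintro ⟨h1, h2⟩ i
      exact ⟨h1 i, h2 i⟩
    · intro h
      exact ⟨fun i => (h i).1, fun i => (h i).2⟩
  have h2 : ∀ i ∈ (univ : Finset (Fin r)), (Nat.card {G | G ∈ Box n (d i) H ∧ eval y G ∈ A i} : ℝ)
      ≤ (#(A i) : ℝ) * ((2 * ((d i * (n + 1) + 2 : ℕ) : ℝ) + 1) ^ (n + d i).choose n *
        (H : ℝ) ^ ((n + d i).choose n - 1) * (((min H q : ℕ) : ℝ)⁻¹) ^ (d i)) := by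
    intro i _
    have h3 := card_le_sum {G | G ∈ Box n (d i) H ∧ eval y G ∈ A i} (A i)
      (fun c => VanV n (d i) H y c) (fun c _ => finite_vanV n (d i) H y c) (by
        rintro G ⟨hG, hc⟩
        exact ⟨_, hc, hG, rfl⟩)
    refine h3.trans ((sum_le_sum (fun c _ => real_prim y hprim q hq1 k0 hq (d i) H hH c)).trans ?_)
    rw [sum_const, nsmul_eq_mul]
  rw [h1, card_sys_eq, Nat.cast_prod]
  refine (prod_le_prod (fun i _ => Nat.cast_nonneg _) h2).trans ?_
  rw [prod_mul_distrib, prod_mul_distrib, prod_mul_distrib, prod_pow_eq_pow_sum,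
    prod_pow_eq_pow_sum, ← mul_assoc, ← mul_assoc]
  have hC1 : ∏ i, (2 * ((d i * (n + 1) + 2 : ℕ) : ℝ) + 1) ^ (n + d i).choose n = C1 n d := rfl
  rw [hC1]
  have hC := C1_pos n d
  have hA : (0 : ℝ) ≤ ∏ i, (#(A i) : ℝ) := prod_nonneg (fun i _ => Nat.cast_nonneg _)
  apply mul_le_mul_of_nonneg_left _ (by positivity)
  rcases le_total H q with h | h
  · rw [min_eq_left h, inv_pow]
    have : (0 : ℝ) ≤ ((q : ℝ) ^ (∑ i, d i))⁻¹ := by positivity
    linarith
  · rw [min_eq_right h, inv_pow]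
    have : (0 : ℝ) ≤ ((H : ℝ) ^ (∑ i, d i))⁻¹ := by positivity
    linarith

theorem count_two_val {n : ℕ} (d H : ℕ) (hd : 1 ≤ d) (y z : Fin (n + 1) → ℤ)
    (hne : ∃ i j, y i * z j - y j * z i ≠ 0) (a b : ℤ) :
    Nat.card {F | F ∈ Box n d H ∧ eval y F = a ∧ eval z F = b} * ((H + 1) * (H + 1)) ≤
      (2 * (3 * H) + 1) ^ (n + d).choose n := by
  classical
  obtain ⟨k, l, k', l', e, e', he, he', hdet⟩ := two_mono d hd y z hne
  set V : Set (MvPolynomial (Fin (n + 1)) ℤ) := {F | F ∈ Box n d H ∧ eval y F = a ∧ eval z F = b}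
    with hV
  let G : Fin (H + 1) × Fin (H + 1) → MvPolynomial (Fin (n + 1)) ℤ := fun m =>
    monomial (Finsupp.single k e + Finsupp.single l (d - e)) ((m.1 : ℕ) : ℤ) +
      monomial (Finsupp.single k' e' + Finsupp.single l' (d - e')) ((m.2 : ℕ) : ℤ)
  have hG : ∀ m, G m ∈ Box n d (2 * H) := by
    intro m
    have h1 := box_add (box_monomial (B := H) k l e (d - e) (Nat.add_sub_cancel' he) m.1.1
      (Nat.lt_succ_iff.1 m.1.2)) (box_monomial (B := H) k' l' e' (d - e')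
      (Nat.add_sub_cancel' he') m.2.1 (Nat.lt_succ_iff.1 m.2.2))
    rw [two_mul]
    exact h1
  rw [← card_box]
  have hcard : Nat.card V * ((H + 1) * (H + 1)) =
      Nat.card (V × (Fin (H + 1) × Fin (H + 1))) := by
    rw [Nat.card_prod, Nat.card_prod, Nat.card_fin]
  rw [hcard]
  have hmem : ∀ p : V × (Fin (H + 1) × Fin (H + 1)), p.1.1 + G p.2 ∈ Box n d (3 * H) := by
    intro p
    have h1 := box_add p.1.2.1 (hG p.2)
    have h2 : 3 * H = H + 2 * H := by ring
    rw [h2]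
    exact h1
  have : Finite (Box n d (3 * H)) := (finite_box _ _ _).to_subtype
  refine Nat.card_le_card_of_injective (fun p => (⟨_, hmem p⟩ : Box n d (3 * H))) ?_
  rintro ⟨⟨F, hF⟩, m⟩ ⟨⟨F', hF'⟩, m'⟩ h
  have h1 : F + G m = F' + G m' := congrArg Subtype.val h
  have hev : ∀ (Q : Fin (n + 1) → ℤ) (F : MvPolynomial (Fin (n + 1)) ℤ)
      (m : Fin (H + 1) × Fin (H + 1)), eval Q (F + G m) = eval Q F +
        (((m.1 : ℕ) : ℤ) * (Q k ^ e * Q l ^ (d - e)) +
          ((m.2 : ℕ) : ℤ) * (Q k' ^ e' * Q l' ^ (d - e'))) := by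
    intro Q F m
    simp only [G]
    rw [map_add, map_add, eval_mono, eval_mono]
  have h2 := congrArg (eval y) h1
  have h3 := congrArg (eval z) h1
  rw [hev, hev, hF.2.1, hF'.2.1] at h2
  rw [hev, hev, hF.2.2, hF'.2.2] at h3
  have h4 : (((m.1 : ℕ) : ℤ) - ((m'.1 : ℕ) : ℤ)) *
      ((y k ^ e * y l ^ (d - e)) * (z k' ^ e' * z l' ^ (d - e')) -
      (y k' ^ e' * y l' ^ (d - e')) * (z k ^ e * z l ^ (d - e))) = 0 := by
    linear_combination (z k' ^ e' * z l' ^ (d - e')) * h2 - (y k' ^ e' * y l' ^ (d - e')) * h3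
  have h5 : (((m.2 : ℕ) : ℤ) - ((m'.2 : ℕ) : ℤ)) *
      ((y k ^ e * y l ^ (d - e)) * (z k' ^ e' * z l' ^ (d - e')) -
      (y k' ^ e' * y l' ^ (d - e')) * (z k ^ e * z l ^ (d - e))) = 0 := by
    linear_combination (y k ^ e * y l ^ (d - e)) * h3 - (z k ^ e * z l ^ (d - e)) * h2
  have h6 := (mul_eq_zero.1 h4).resolve_right hdet
  have h7 := (mul_eq_zero.1 h5).resolve_right hdet
  have h8 : m = m' := Prod.ext (Fin.ext (by omega)) (Fin.ext (by omega))
  subst h8
  have h9 : F = F' := add_right_cancel h1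
  subst h9
  rfl

theorem real_two_sysA {n r : ℕ} (d : Fin r → ℕ) (hd : ∀ i, 1 ≤ d i) (A : Fin r → Finset ℤ)
    (y z : Fin (n + 1) → ℤ)
    (hne : ∃ i j, y i * z j - y j * z i ≠ 0) (H : ℕ) (hH : 1 ≤ H) :
    (Nat.card {F | F ∈ SysBox n d H ∧ (∀ i, eval y (F i) ∈ A i) ∧ ∀ i, eval z (F i) ∈ A i} : ℝ) ≤
      ((∏ i, (#(A i) : ℝ)) ^ 2 * ∏ i, (7 : ℝ) ^ (n + d i).choose n) *
        (H : ℝ) ^ (∑ i, ((n + d i).choose n - 1)) * ((H : ℝ) ^ r)⁻¹ := by
  have hH0 : (0 : ℝ) < H := by exact_mod_cast hH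
  have h1 : {F | F ∈ SysBox n d H ∧ (∀ i, eval y (F i) ∈ A i) ∧ ∀ i, eval z (F i) ∈ A i} =
      {F : Fin r → MvPolynomial (Fin (n + 1)) ℤ | ∀ i, F i ∈
        {F | F ∈ Box n (d i) H ∧ eval y F ∈ A i ∧ eval z F ∈ A i}} := by
    ext F
    constructor
    · rintro ⟨h1, h2, h3⟩ i
      exact ⟨h1 i, h2 i, h3 i⟩
    · intro h
      exact ⟨fun i => (h i).1, fun i => (h i).2.1, fun i => (h i).2.2⟩
  rw [h1, card_sys_eq, Nat.cast_prod]
  have h2 : ∀ i ∈ (univ : Finset (Fin r)), (Nat.card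
      {F | F ∈ Box n (d i) H ∧ eval y F ∈ A i ∧ eval z F ∈ A i} : ℝ) ≤
      ((#(A i) : ℝ) ^ 2 * (7 : ℝ) ^ (n + d i).choose n) *
        (H : ℝ) ^ ((n + d i).choose n - 1) * (H : ℝ)⁻¹ := by
    intro i _
    have h3 := card_le_sum {G | G ∈ Box n (d i) H ∧ eval y G ∈ A i ∧ eval z G ∈ A i} (A i ×ˢ A i)
      (fun c => {F | F ∈ Box n (d i) H ∧ eval y F = c.1 ∧ eval z F = c.2})
      (fun c _ => (finite_box n (d i) H).subset (fun F hF => hF.1)) (by
        rintro G ⟨hG, hc⟩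
        exact ⟨(_, _), mem_product.2 hc, hG, rfl, rfl⟩)
    have h4 : ∀ c ∈ A i ×ˢ A i, (Nat.card {F | F ∈ Box n (d i) H ∧ eval y F = c.1 ∧
        eval z F = c.2} : ℝ) ≤
        (7 : ℝ) ^ (n + d i).choose n * (H : ℝ) ^ ((n + d i).choose n - 1) * (H : ℝ)⁻¹ := by
      intro c _
      have h := real_of_nat hH (one_le_N n (d i))
        (count_two_val (d i) H (hd i) y z hne c.1 c.2) (by omega)
      refine h.trans ?_
      have h1 : (2 * ((3 : ℕ) : ℝ) + 1) = 7 := by norm_num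
      rw [h1]
      apply mul_le_mul_of_nonneg_left _ (by positivity)
      apply inv_anti₀ hH0
      push_cast
      linarith
    refine h3.trans ((sum_le_sum h4).trans (le_of_eq ?_))
    rw [sum_const, nsmul_eq_mul, card_product]
    push_cast
    ring
  refine (prod_le_prod (fun i _ => Nat.cast_nonneg _) h2).trans (le_of_eq ?_)
  have e1 : ∏ i, (H : ℝ) ^ ((n + d i).choose n - 1) =
      (H : ℝ) ^ (∑ i, ((n + d i).choose n - 1)) := prod_pow_eq_pow_sum _ _ _
  rw [prod_mul_distrib, prod_mul_distrib, prod_mul_distrib, e1, prod_const, card_univ,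
    Fintype.card_fin, inv_pow, prod_pow]

end Pool.Agent.Q256.UP
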