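import Mathlib
import Pool.Agent.Q256.UP.InA

set_option autoImplicit false

namespace Pool.Agent.Q256.UP

open Finset MvPolynomial Pool.Agent.Q256.CI

/-- systems with a large integral point. -/
def IS1 {n r : ℕ} (J : Finset (Fin (n + 1))) (A : Fin r → Finset ℤ) (d : Fin r → ℕ)
    (H R T : ℕ) : Set (Fin r → MvPolynomial (Fin (n + 1)) ℤ) :=
  {F | F ∈ SysBox n d H ∧ ∃ y ∈ IPt J A F T, ∃ k, (R : ℤ) < |y k|}

/-- systems with two different integral points. -/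
def IS2 {n r : ℕ} (J : Finset (Fin (n + 1))) (A : Fin r → Finset ℤ) (d : Fin r → ℕ)
    (H T : ℕ) : Set (Fin r → MvPolynomial (Fin (n + 1)) ℤ) :=
  {F | F ∈ SysBox n d H ∧ ∃ y ∈ IPt J A F T, ∃ z ∈ IPt J A F T, ∃ i j, y i * z j - y j * z i ≠ 0}

/-- the constant of one point. -/
noncomputable def K1 {n r : ℕ} (A : Fin r → Finset ℤ) (d : Fin r → ℕ) : ℝ :=
  (∏ i, (#(A i) : ℝ)) * C1 n d

theorem K1_nonneg {n r : ℕ} (A : Fin r → Finset ℤ) (d : Fin r → ℕ) :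
    0 ≤ K1 (n := n) A d := by
  have h1 := C1_pos n d
  have hA : (0 : ℝ) ≤ ∏ i, (#(A i) : ℝ) := prod_nonneg (fun i _ => Nat.cast_nonneg _)
  unfold K1
  positivity

theorem sphere_int {n r : ℕ} (J : Finset (Fin (n + 1))) (A : Fin r → Finset ℤ) (d : Fin r → ℕ)
    (H q : ℕ) (hH : 1 ≤ H) (hq1 : 1 ≤ q) :
    (Nat.card {F | F ∈ SysBox n d H ∧ ∃ (k : Fin (n + 1)) (y : Fin (n + 1) → ℤ), IsPrim y ∧
      |y k| = q ∧ (∀ j, |y j| ≤ q) ∧ (∀ j ∈ J, |y j| = 1) ∧ ∀ i, eval y (F i) ∈ A i} : ℝ) ≤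
      ((n + 1) * 12 ^ (n + 1) * (q : ℝ) ^ (n - #J)) *
        (K1 (n := n) A d * (H : ℝ) ^ (∑ i, ((n + d i).choose n - 1)) *
        (((q : ℝ) ^ (∑ i, d i))⁻¹ + ((H : ℝ) ^ (∑ i, d i))⁻¹)) := by
  classical
  have hK := K1_nonneg (n := n) A d
  have h := card_le_sum {F | F ∈ SysBox n d H ∧ ∃ (k : Fin (n + 1)) (y : Fin (n + 1) → ℤ),
      IsPrim y ∧ |y k| = q ∧ (∀ j, |y j| ≤ q) ∧ (∀ j ∈ J, |y j| = 1) ∧ ∀ i, eval y (F i) ∈ A i}
      (sph J q)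
      (fun y => {F | F ∈ SysBox n d H ∧ (IsPrim y ∧ ∃ k, |y k| = q) ∧ ∀ j, eval y (F j) ∈ A j})
      (fun i _ => (finite_sys n d H).subset (fun F hF => hF.1)) (by
        rintro F ⟨hF, k, y, hp, hk, hy, hJ, h0⟩
        exact ⟨y, mem_sph J y q k hk hy hJ, hF, ⟨hp, k, hk⟩, h0⟩)
  refine h.trans ?_
  have h2 : ∀ y ∈ sph J q, (Nat.card {F | F ∈ SysBox n d H ∧ (IsPrim y ∧ ∃ k, |y k| = q) ∧
      ∀ j, eval y (F j) ∈ A j} : ℝ) ≤
      K1 (n := n) A d * (H : ℝ) ^ (∑ i, ((n + d i).choose n - 1)) *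
        (((q : ℝ) ^ (∑ i, d i))⁻¹ + ((H : ℝ) ^ (∑ i, d i))⁻¹) := by
    intro y _
    by_cases hp : IsPrim y ∧ ∃ k, |y k| = q
    · obtain ⟨hp1, k, hk⟩ := hp
      refine le_trans ?_ (real_sysA d A y hp1 q hq1 k hk H hH)
      have h4 : Nat.card {F | F ∈ SysBox n d H ∧ (IsPrim y ∧ ∃ k, |y k| = q) ∧
          ∀ j, eval y (F j) ∈ A j} ≤
          Nat.card {F | F ∈ SysBox n d H ∧ ∀ j, eval y (F j) ∈ A j} := by
        simp only [Nat.card_coe_set_eq]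
        exact Set.ncard_le_ncard (fun F hF => ⟨hF.1, hF.2.2⟩)
          ((finite_sys n d H).subset (fun F hF => hF.1))
      exact_mod_cast h4
    · have hem : {F | F ∈ SysBox n d H ∧ (IsPrim y ∧ ∃ k, |y k| = q) ∧
          ∀ j, eval y (F j) ∈ A j} = ∅ := by
        rw [Set.eq_empty_iff_forall_notMem]
        rintro F ⟨_, h, _⟩
        exact hp h
      rw [hem]
      have h0 : (Nat.card (∅ : Set (Fin r → MvPolynomial (Fin (n + 1)) ℤ)) : ℝ) = 0 := by simp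
      rw [h0]
      positivity
  refine (sum_le_sum h2).trans ?_
  rw [sum_const, nsmul_eq_mul]
  exact mul_le_mul_of_nonneg_right (card_sph J q hq1) (by positivity)

theorem tail_int {n r : ℕ} (J : Finset (Fin (n + 1))) (A : Fin r → Finset ℤ) (d : Fin r → ℕ)
    (hJ : #J ≤ n) (hD : n + 2 ≤ ∑ i, d i + #J) (H R T : ℕ) (hH : 1 ≤ H) :
    (Nat.card (IS1 J A d H R T) : ℝ) ≤
      (2 * ((n + 1) * 12 ^ (n + 1)) * K1 (n := n) A d) *
        (H : ℝ) ^ (∑ i, ((n + d i).choose n - 1)) *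
        ((((R : ℝ) + 1) ^ (∑ i, d i + #J - n - 1))⁻¹ +
          (T : ℝ) ^ (n + 1 - #J) * ((H : ℝ) ^ (∑ i, d i))⁻¹) := by
  have hK := K1_nonneg (n := n) A d
  have h := card_le_sum (IS1 J A d H R T) (Ioc R T) (fun q => {F | F ∈ SysBox n d H ∧
      ∃ (k : Fin (n + 1)) (y : Fin (n + 1) → ℤ), IsPrim y ∧
      |y k| = q ∧ (∀ j, |y j| ≤ q) ∧ (∀ j ∈ J, |y j| = 1) ∧ ∀ i, eval y (F i) ∈ A i})
      (fun i _ => (finite_sys n d H).subset (fun F hF => hF.1)) (by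
        rintro F ⟨hF, y, ⟨hp, hT, hJ, h0⟩, ⟨k0, hk0⟩⟩
        obtain ⟨k, -, hk⟩ := exists_max_image (univ : Finset (Fin (n + 1))) (fun k => |y k|)
          ⟨0, mem_univ _⟩
        have h1 : |y k| = ((y k).natAbs : ℤ) := Int.abs_eq_natAbs _
        refine ⟨(y k).natAbs, ?_, hF, k, y, hp, h1, fun j => ?_, hJ, h0⟩
        · have h2 := hk k0 (mem_univ _)
          have h3 := hT k
          rw [h1] at h2 h3
          rw [mem_Ioc]
          constructor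
          · have : (R : ℤ) < ((y k).natAbs : ℤ) := lt_of_lt_of_le hk0 h2
            exact_mod_cast this
          · exact_mod_cast h3
        · rw [← h1]; exact hk j (mem_univ _))
  refine h.trans ?_
  set M : ℝ := (H : ℝ) ^ (∑ i, ((n + d i).choose n - 1)) with hM
  set D : ℕ := ∑ i, d i with hDdef
  set e : ℕ := n - #J with he
  have hDe : e + 2 ≤ D := by omega
  have h1 : ∀ q ∈ Ioc R T, (Nat.card {F | F ∈ SysBox n d H ∧
      ∃ (k : Fin (n + 1)) (y : Fin (n + 1) → ℤ), IsPrim y ∧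
      |y k| = q ∧ (∀ j, |y j| ≤ q) ∧ (∀ j ∈ J, |y j| = 1) ∧ ∀ i, eval y (F i) ∈ A i} : ℝ) ≤
      ((n + 1) * 12 ^ (n + 1) * K1 (n := n) A d * M) *
        ((((R : ℝ) + 1) ^ (D - e - 2))⁻¹ * ((q : ℝ) ^ 2)⁻¹ + (T : ℝ) ^ e * ((H : ℝ) ^ D)⁻¹) := by
    intro q hq
    rw [mem_Ioc] at hq
    refine (sphere_int J A d H q hH (by omega)).trans ?_
    rw [← hM, ← hDdef, ← he]
    have e1 : ((n : ℝ) + 1) * 12 ^ (n + 1) * (q : ℝ) ^ e * (K1 (n := n) A d * M *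
        (((q : ℝ) ^ D)⁻¹ + ((H : ℝ) ^ D)⁻¹)) = ((n + 1) * 12 ^ (n + 1) * K1 (n := n) A d * M) *
        ((q : ℝ) ^ e * ((q : ℝ) ^ D)⁻¹ + (q : ℝ) ^ e * ((H : ℝ) ^ D)⁻¹) := by ring
    rw [e1]
    apply mul_le_mul_of_nonneg_left _ (by positivity)
    have hq0 : (0 : ℝ) < q := by exact_mod_cast (by omega : 0 < q)
    apply add_le_add
    · have e2 : (q : ℝ) ^ e * ((q : ℝ) ^ D)⁻¹ = ((q : ℝ) ^ (D - e - 2))⁻¹ * ((q : ℝ) ^ 2)⁻¹ := by
        have e3 : (q : ℝ) ^ D = (q : ℝ) ^ e * (q : ℝ) ^ (D - e - 2) * (q : ℝ) ^ 2 := by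
          rw [← pow_add, ← pow_add]; congr 1; omega
        rw [e3]
        field_simp
      rw [e2]
      apply mul_le_mul_of_nonneg_right _ (by positivity)
      apply inv_anti₀ (by positivity)
      apply pow_le_pow_left₀ (by positivity)
      have : R + 1 ≤ q := hq.1
      exact_mod_cast this
    · apply mul_le_mul_of_nonneg_right _ (by positivity)
      apply pow_le_pow_left₀ hq0.le
      exact_mod_cast hq.2
  refine (sum_le_sum h1).trans ?_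
  rw [← mul_sum, sum_add_distrib, ← mul_sum, sum_const, nsmul_eq_mul]
  have h2 := sumQ R T
  have h3 : (#(Ioc R T) : ℝ) ≤ T := by
    rw [Nat.card_Ioc]; exact_mod_cast Nat.sub_le _ _
  have e4 : (((R : ℝ) + 1) ^ (D + #J - n - 1))⁻¹ =
      (((R : ℝ) + 1) ^ (D - e - 2))⁻¹ * ((R : ℝ) + 1)⁻¹ := by
    rw [← mul_inv, ← pow_succ]; congr 2; omega
  have e5 : n + 1 - #J = e + 1 := by omega
  rw [e4, e5]
  have hM0 : 0 ≤ M := by positivity
  calc ((n : ℝ) + 1) * 12 ^ (n + 1) * K1 (n := n) A d * M * ((((R : ℝ) + 1) ^ (D - e - 2))⁻¹ *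
        ∑ q ∈ Ioc R T, ((q : ℝ) ^ 2)⁻¹ + (#(Ioc R T) : ℝ) * ((T : ℝ) ^ e * ((H : ℝ) ^ D)⁻¹)) ≤
      ((n : ℝ) + 1) * 12 ^ (n + 1) * K1 (n := n) A d * M * ((((R : ℝ) + 1) ^ (D - e - 2))⁻¹ *
        (2 / ((R : ℝ) + 1)) + 2 * (T * ((T : ℝ) ^ e * ((H : ℝ) ^ D)⁻¹))) := by
        apply mul_le_mul_of_nonneg_left _ (by positivity)
        apply add_le_add
        · exact mul_le_mul_of_nonneg_left h2 (by positivity)
        · have i1 : (#(Ioc R T) : ℝ) * ((T : ℝ) ^ e * ((H : ℝ) ^ D)⁻¹) ≤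
              T * ((T : ℝ) ^ e * ((H : ℝ) ^ D)⁻¹) :=
            mul_le_mul_of_nonneg_right h3 (by positivity)
          have i2 : 0 ≤ T * ((T : ℝ) ^ e * ((H : ℝ) ^ D)⁻¹) := by positivity
          linarith
    _ = _ := by rw [pow_succ (T : ℝ) e]; ring

/-- the constant of the main theorem. -/
noncomputable def K2 {n r : ℕ} (A : Fin r → Finset ℤ) (d : Fin r → ℕ) : ℝ :=
  2 * ((n + 1) * 12 ^ (n + 1)) * K1 (n := n) A d +
    36 ^ (n + 1) * ((∏ i, (#(A i) : ℝ)) ^ 2 * ∏ i, (7 : ℝ) ^ (n + d i).choose n)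

theorem K2_nonneg {n r : ℕ} (A : Fin r → Finset ℤ) (d : Fin r → ℕ) :
    0 ≤ K2 (n := n) A d := by
  have h1 := K1_nonneg (n := n) A d
  have h7 : 0 < ∏ i, (7 : ℝ) ^ (n + d i).choose n := prod_pos (fun i _ => by positivity)
  have hA : (0 : ℝ) ≤ ∏ i, (#(A i) : ℝ) := prod_nonneg (fun i _ => Nat.cast_nonneg _)
  unfold K2
  positivity

theorem two_int {n r : ℕ} (J : Finset (Fin (n + 1))) (A : Fin r → Finset ℤ) (d : Fin r → ℕ)
    (hd : ∀ i, 1 ≤ d i) (hJ : #J ≤ n) (hD : n + 2 ≤ ∑ i, d i + #J) (H T : ℕ) (hH : 1 ≤ H) :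
    (Nat.card (IS2 J A d H T) : ℝ) ≤ K2 (n := n) A d *
      (H : ℝ) ^ (∑ i, ((n + d i).choose n - 1)) *
      ((H : ℝ) ^ (-((r : ℝ) * (((∑ i, d i : ℕ) : ℝ) + #J - n - 1) /
          (((∑ i, d i : ℕ) : ℝ) + n + 1 - #J))) +
        (T : ℝ) ^ (n + 1 - #J) * ((H : ℝ) ^ (∑ i, d i))⁻¹) := by
  classical
  have hK := K1_nonneg (n := n) A d
  have h7 : 0 < ∏ i, (7 : ℝ) ^ (n + d i).choose n := prod_pos (fun i _ => by positivity)
  have hA : (0 : ℝ) ≤ ∏ i, (#(A i) : ℝ) := prod_nonneg (fun i _ => Nat.cast_nonneg _)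
  set D : ℕ := ∑ i, d i with hDdef
  have hH0 : (0 : ℝ) < H := by exact_mod_cast hH
  have hH1 : (1 : ℝ) ≤ H := by exact_mod_cast hH
  have hJr : (#J : ℝ) ≤ n := by exact_mod_cast hJ
  have hDr : (n : ℝ) + 2 ≤ (D : ℝ) + #J := by exact_mod_cast hD
  have hD0 : (0 : ℝ) ≤ D := Nat.cast_nonneg _
  have hDn : (0 : ℝ) < (D : ℝ) + n + 1 - #J := by linarith
  set R : ℕ := ⌊(H : ℝ) ^ ((r : ℝ) / ((D : ℝ) + n + 1 - #J))⌋₊ with hR
  have hρ1 : (1 : ℝ) ≤ (H : ℝ) ^ ((r : ℝ) / ((D : ℝ) + n + 1 - #J)) :=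
    Real.one_le_rpow hH1 (by positivity)
  have hR1 : (R : ℝ) ≤ (H : ℝ) ^ ((r : ℝ) / ((D : ℝ) + n + 1 - #J)) :=
    Nat.floor_le (by positivity)
  have hR2 : (H : ℝ) ^ ((r : ℝ) / ((D : ℝ) + n + 1 - #J)) < R + 1 := Nat.lt_floor_add_one _
  have hR3 : 1 ≤ R := Nat.le_floor (by exact_mod_cast hρ1)
  have hR3r : (1 : ℝ) ≤ R := by exact_mod_cast hR3
  let I : Finset (Fin (n + 1) → ℤ) := Fintype.piFinset
    (fun j => if j ∈ J then ({(1 : ℤ), -1} : Finset ℤ) else Icc (-(R : ℤ)) R)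
  have hI : (#I : ℝ) ≤ 6 ^ (n + 1) * (R : ℝ) ^ (n + 1 - #J) := by
    have hI1 : #I ≤ 2 ^ #J * (2 * R + 1) ^ (n + 1 - #J) := by
      simp only [I]
      rw [Fintype.card_piFinset]
      have h1 : ∀ j ∈ (univ : Finset (Fin (n + 1))),
          #(if j ∈ J then ({(1 : ℤ), -1} : Finset ℤ) else Icc (-(R : ℤ)) R) ≤
          if j ∈ J then 2 else 2 * R + 1 := by
        intro j _
        by_cases hJ : j ∈ J
        · rw [if_pos hJ, if_pos hJ]; exact card_le_two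
        · rw [if_neg hJ, if_neg hJ, Int.card_Icc]; omega
      refine (prod_le_prod' h1).trans ?_
      rw [prod_ite, prod_const, prod_const]
      have h2 : #{x ∈ (univ : Finset (Fin (n + 1))) | x ∈ J} = #J := by
        rw [filter_mem_eq_inter, univ_inter]
      have h3 : #{x ∈ (univ : Finset (Fin (n + 1))) | x ∉ J} = n + 1 - #J := by
        have h4 := card_filter_add_card_filter_not (s := (univ : Finset (Fin (n + 1))))
          (fun x => x ∈ J)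
        rw [h2, card_univ, Fintype.card_fin] at h4
        omega
      rw [h2, h3]
    have hI2 : (#I : ℝ) ≤ ((2 ^ #J * (2 * R + 1) ^ (n + 1 - #J) : ℕ) : ℝ) := by exact_mod_cast hI1
    refine hI2.trans ?_
    push_cast
    have i1 : (2 : ℝ) ^ #J ≤ 2 ^ (n + 1) := pow_le_pow_right₀ (by norm_num) (by omega)
    have i2 : (2 * (R : ℝ) + 1) ^ (n + 1 - #J) ≤ 3 ^ (n + 1) * (R : ℝ) ^ (n + 1 - #J) := by
      calc (2 * (R : ℝ) + 1) ^ (n + 1 - #J) ≤ (3 * R) ^ (n + 1 - #J) :=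
            pow_le_pow_left₀ (by positivity) (by linarith) _
        _ = 3 ^ (n + 1 - #J) * (R : ℝ) ^ (n + 1 - #J) := mul_pow _ _ _
        _ ≤ _ := by
            apply mul_le_mul_of_nonneg_right _ (by positivity)
            exact pow_le_pow_right₀ (by norm_num) (Nat.sub_le _ _)
    calc (2 : ℝ) ^ #J * (2 * (R : ℝ) + 1) ^ (n + 1 - #J) ≤
          2 ^ (n + 1) * (3 ^ (n + 1) * (R : ℝ) ^ (n + 1 - #J)) :=
          mul_le_mul i1 i2 (by positivity) (by positivity)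
      _ = _ := by rw [← mul_assoc, ← mul_pow]; norm_num
  have hmemI : ∀ P : Fin (n + 1) → ℤ, (∀ k, |P k| ≤ R) → (∀ j ∈ J, |P j| = 1) → P ∈ I := by
    intro P hP hPJ
    simp only [I, Fintype.mem_piFinset]
    intro j
    by_cases hjJ : j ∈ J
    · rw [if_pos hjJ, mem_insert, mem_singleton]
      have h0 := hPJ j hjJ
      rcases abs_choice (P j) with h1 | h1
      · left; rw [← h0, h1]
      · right; rw [← h0, h1, neg_neg]
    · rw [if_neg hjJ, mem_Icc, ← abs_le]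
      exact hP j
  set M : ℝ := (H : ℝ) ^ (∑ i, ((n + d i).choose n - 1)) with hM
  let V : (Fin (n + 1) → ℤ) × (Fin (n + 1) → ℤ) → Set (Fin r → MvPolynomial (Fin (n + 1)) ℤ) :=
    fun i => {F | F ∈ SysBox n d H ∧ (∃ a b, i.1 a * i.2 b - i.1 b * i.2 a ≠ 0) ∧
      (∀ j, eval i.1 (F j) ∈ A j) ∧ ∀ j, eval i.2 (F j) ∈ A j}
  have h1 := card_union3 (IS2 J A d H T) (IS1 J A d H R T)
    {F | F ∈ SysBox n d H ∧ ∃ i ∈ I ×ˢ I, F ∈ V i} ∅
    ((finite_sys n d H).subset (fun F hF => hF.1)) ((finite_sys n d H).subset (fun F hF => hF.1))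
    Set.finite_empty (by
      rintro F ⟨hF, y, hy, z, hz, hne⟩
      left
      by_cases h : ∃ k, (R : ℤ) < |y k|
      · left; exact ⟨hF, y, hy, h⟩
      by_cases h' : ∃ k, (R : ℤ) < |z k|
      · left; exact ⟨hF, z, hz, h'⟩
      right
      push Not at h h'
      exact ⟨hF, (y, z), mem_product.2 ⟨hmemI y h hy.2.2.1, hmemI z h' hz.2.2.1⟩, hF, hne,
        hy.2.2.2, hz.2.2.2⟩)
  have h2 := card_le_sum {F | F ∈ SysBox n d H ∧ ∃ i ∈ I ×ˢ I, F ∈ V i} (I ×ˢ I) V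
    (fun i _ => (finite_sys n d H).subset (fun F hF => hF.1)) (fun F hF => hF.2)
  set L : ℝ := (∏ i, (#(A i) : ℝ)) ^ 2 * ∏ i, (7 : ℝ) ^ (n + d i).choose n with hL
  have hL0 : 0 ≤ L := mul_nonneg (sq_nonneg _) h7.le
  have hK2 : K2 (n := n) A d = 2 * ((n + 1) * 12 ^ (n + 1)) * K1 (n := n) A d +
      36 ^ (n + 1) * L := rfl
  have hreal : ∀ y z : Fin (n + 1) → ℤ, (∃ a b, y a * z b - y b * z a ≠ 0) →
      (Nat.card {F | F ∈ SysBox n d H ∧ (∀ i, eval y (F i) ∈ A i) ∧ ∀ i, eval z (F i) ∈ A i} : ℝ)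
      ≤ L * M * ((H : ℝ) ^ r)⁻¹ := fun y z hne => real_two_sysA d hd A y z hne H hH
  clear_value L
  have h3 : ∀ i ∈ I ×ˢ I, (Nat.card (V i) : ℝ) ≤ L * M * ((H : ℝ) ^ r)⁻¹ := by
    rintro ⟨y, z⟩ _
    by_cases hne : ∃ a b, y a * z b - y b * z a ≠ 0
    · refine le_trans ?_ (hreal y z hne)
      have h4 : Nat.card (V (y, z)) ≤ Nat.card
          {F | F ∈ SysBox n d H ∧ (∀ i, eval y (F i) ∈ A i) ∧ ∀ i, eval z (F i) ∈ A i} := by
        simp only [Nat.card_coe_set_eq]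
        exact Set.ncard_le_ncard (fun F hF => ⟨hF.1, hF.2.2⟩)
          ((finite_sys n d H).subset (fun F hF => hF.1))
      exact_mod_cast h4
    · have hem : V (y, z) = ∅ := by
        rw [Set.eq_empty_iff_forall_notMem]
        rintro F ⟨_, h, _⟩
        exact hne h
      rw [hem]
      have h0 : (Nat.card (∅ : Set (Fin r → MvPolynomial (Fin (n + 1)) ℤ)) : ℝ) = 0 := by simp
      rw [h0]
      positivity
  have h5 : (Nat.card {F | F ∈ SysBox n d H ∧ ∃ i ∈ I ×ˢ I, F ∈ V i} : ℝ) ≤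
      (36 ^ (n + 1) * L) * M *
        (H : ℝ) ^ (-((r : ℝ) * ((D : ℝ) + #J - n - 1) / ((D : ℝ) + n + 1 - #J))) := by
    refine h2.trans ((sum_le_sum h3).trans ?_)
    rw [sum_const, nsmul_eq_mul, card_product]
    push_cast
    have h6 : (#I : ℝ) * #I ≤ 36 ^ (n + 1) *
        (H : ℝ) ^ ((r : ℝ) / ((D : ℝ) + n + 1 - #J) * (2 * ((n : ℝ) + 1 - #J))) := by
      calc (#I : ℝ) * #I ≤ (6 ^ (n + 1) * (R : ℝ) ^ (n + 1 - #J)) *
            (6 ^ (n + 1) * (R : ℝ) ^ (n + 1 - #J)) :=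
            mul_le_mul hI hI (Nat.cast_nonneg _) (by positivity)
        _ = 36 ^ (n + 1) * (R : ℝ) ^ (2 * (n + 1 - #J)) := by
            have e0 : (36 : ℝ) ^ (n + 1) = 6 ^ (n + 1) * 6 ^ (n + 1) := by
              rw [← mul_pow]; norm_num
            rw [e0, two_mul, pow_add]; ring
        _ ≤ 36 ^ (n + 1) * ((H : ℝ) ^ ((r : ℝ) / ((D : ℝ) + n + 1 - #J))) ^
            (2 * (n + 1 - #J)) := by
            apply mul_le_mul_of_nonneg_left _ (by positivity)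
            exact pow_le_pow_left₀ (Nat.cast_nonneg _) hR1 _
        _ = _ := by
            rw [← Real.rpow_natCast ((H : ℝ) ^ ((r : ℝ) / ((D : ℝ) + n + 1 - #J)))
              (2 * (n + 1 - #J)), ← Real.rpow_mul hH0.le]
            rw [Nat.cast_mul, Nat.cast_sub (by omega)]
            push_cast; rfl
    have h7' : (H : ℝ) ^ ((r : ℝ) / ((D : ℝ) + n + 1 - #J) * (2 * ((n : ℝ) + 1 - #J))) *
        ((H : ℝ) ^ r)⁻¹ =
        (H : ℝ) ^ (-((r : ℝ) * ((D : ℝ) + #J - n - 1) / ((D : ℝ) + n + 1 - #J))) := by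
      rw [← Real.rpow_natCast (H : ℝ) r, ← Real.rpow_neg hH0.le, ← Real.rpow_add hH0]
      congr 1
      have := hDn.ne'
      field_simp
      ring
    calc (#I : ℝ) * #I * (L * M * ((H : ℝ) ^ r)⁻¹) ≤
          (36 ^ (n + 1) * (H : ℝ) ^ ((r : ℝ) / ((D : ℝ) + n + 1 - #J) *
            (2 * ((n : ℝ) + 1 - #J)))) * (L * M * ((H : ℝ) ^ r)⁻¹) :=
          mul_le_mul_of_nonneg_right h6 (by positivity)
      _ = 36 ^ (n + 1) * L * M *
          ((H : ℝ) ^ ((r : ℝ) / ((D : ℝ) + n + 1 - #J) * (2 * ((n : ℝ) + 1 - #J))) *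
            ((H : ℝ) ^ r)⁻¹) := by ring
      _ = _ := by rw [h7']
  have h8 := tail_int J A d hJ hD H R T hH
  rw [← hM, ← hDdef] at h8
  have h9 : (((R : ℝ) + 1) ^ (D + #J - n - 1))⁻¹ ≤
      (H : ℝ) ^ (-((r : ℝ) * ((D : ℝ) + #J - n - 1) / ((D : ℝ) + n + 1 - #J))) := by
    rw [Real.rpow_neg hH0.le]
    apply inv_anti₀ (by positivity)
    calc (H : ℝ) ^ ((r : ℝ) * ((D : ℝ) + #J - n - 1) / ((D : ℝ) + n + 1 - #J)) =
          ((H : ℝ) ^ ((r : ℝ) / ((D : ℝ) + n + 1 - #J))) ^ (D + #J - n - 1) := by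
          rw [← Real.rpow_natCast ((H : ℝ) ^ ((r : ℝ) / ((D : ℝ) + n + 1 - #J)))
            (D + #J - n - 1), ← Real.rpow_mul hH0.le]
          congr 1
          rw [Nat.cast_sub (by omega), Nat.cast_sub (by omega)]
          push_cast
          ring
      _ ≤ _ := pow_le_pow_left₀ (by positivity) hR2.le _
  have h10 : (Nat.card (∅ : Set (Fin r → MvPolynomial (Fin (n + 1)) ℤ)) : ℝ) = 0 := by simp
  rw [h10, add_zero] at h1
  refine h1.trans ((add_le_add h8 h5).trans ?_)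
  set u : ℝ := (H : ℝ) ^ (-((r : ℝ) * ((D : ℝ) + #J - n - 1) / ((D : ℝ) + n + 1 - #J))) with hu
  set v : ℝ := (T : ℝ) ^ (n + 1 - #J) * ((H : ℝ) ^ D)⁻¹ with hv
  have hM0 : 0 ≤ M := by positivity
  have hv0 : 0 ≤ v := by positivity
  have hu0 : 0 ≤ u := by positivity
  set c1 : ℝ := 2 * ((n + 1) * 12 ^ (n + 1)) * K1 (n := n) A d with hc1
  have hc10 : 0 ≤ c1 := by positivity
  have i1 : c1 * M * ((((R : ℝ) + 1) ^ (D + #J - n - 1))⁻¹ + v) ≤ c1 * M * (u + v) := by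
    apply mul_le_mul_of_nonneg_left _ (mul_nonneg hc10 hM0)
    linarith
  have i2 : 0 ≤ 36 ^ (n + 1) * L * M * v := by positivity
  have i3 : K2 (n := n) A d * M * (u + v) = c1 * M * (u + v) + 36 ^ (n + 1) * L * M * u +
      36 ^ (n + 1) * L * M * v := by
    rw [hK2]; ring
  rw [i3]
  linarith

end Pool.Agent.Q256.UP
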