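import Mathlib
import Pool.Agent.Q256.UP.InB

set_option autoImplicit false

namespace Pool.Agent.Q256.UP

open Finset MvPolynomial Pool.Agent.Q256.CI

/-- many forms take a given small value at a small point. -/
theorem lower_val (n d : ℕ) (y : Fin (n + 1) → ℤ) (j0 : Fin (n + 1)) (hy0 : y j0 = 1)
    (hy : ∀ k, |y k| ≤ 1) (a : ℤ) (H : ℕ) (ha : 2 * |a| ≤ H) :
    ((H : ℝ) / (2 * ((n + d).choose n : ℕ))) ^ ((n + d).choose n - 1) ≤
      Nat.card (VanV n d H y a) := by
  classical
  set N := (n + d).choose n with hN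
  have hN1 : 1 ≤ N := one_le_N n d
  have hNr : (0 : ℝ) < N := by exact_mod_cast hN1
  set B := H / (2 * N) with hB
  set α0 : Fin (n + 1) →₀ ℕ := Finsupp.single j0 d with hα0
  set S : Finset (Fin (n + 1) →₀ ℕ) :=
    (Finset.finsuppAntidiag (univ : Finset (Fin (n + 1))) d).erase α0 with hS
  have hScard : #S = N - 1 := by
    rw [hS, card_erase_of_mem, card_anti]
    rw [mem_anti, hα0]; simp
  have hBN : 2 * N * B ≤ H := Nat.mul_div_le H (2 * N)
  have hval : ∀ G ∈ SBox S B, 2 * |eval y G| ≤ H := by
    intro G hG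
    rw [eval_eq']
    have h1 : ∀ α ∈ G.support, |G.coeff α * ∏ i, y i ^ α i| ≤ (B : ℤ) := by
      intro α _
      rw [abs_mul, abs_prod]
      have h2 : ∏ i, |y i ^ α i| ≤ 1 := by
        apply prod_le_one (fun i _ => abs_nonneg _)
        intro i _
        rw [abs_pow]
        exact pow_le_one₀ (abs_nonneg _) (hy i)
      calc |G.coeff α| * ∏ i, |y i ^ α i| ≤ B * 1 :=
            mul_le_mul (hG.1 α) h2 (prod_nonneg (fun i _ => abs_nonneg _)) (by positivity)
        _ = B := mul_one _
    have h2 := (abs_sum_le_sum_abs (fun α => G.coeff α * ∏ i, y i ^ α i) G.support).trans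
      (sum_le_sum h1)
    rw [sum_const, nsmul_eq_mul] at h2
    have h3 : #G.support ≤ N := by
      have := card_le_card hG.2
      rw [hScard] at this
      omega
    have h4 : ((#G.support : ℕ) : ℤ) * B ≤ N * B := by
      apply mul_le_mul_of_nonneg_right _ (by positivity)
      exact_mod_cast h3
    have h5 : ((2 * N * B : ℕ) : ℤ) ≤ H := by exact_mod_cast hBN
    push_cast at h5
    linarith
  have hy1 : ∀ c : ℤ, eval y (monomial α0 c) = c := by
    intro c
    rw [eval_monomial, hα0, Finsupp.prod_single_index (by simp), hy0, one_pow, mul_one]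
  have hcard : (2 * B + 1) ^ (N - 1) ≤ Nat.card (VanV n d H y a) := by
    rw [← hScard, ← card_sbox]
    have : Finite (VanV n d H y a) := (finite_vanV n d H y a).to_subtype
    have hmem : ∀ G : SBox S B, G.1 + monomial α0 (a - eval y G.1) ∈ VanV n d H y a := by
      intro G
      have hv := hval G.1 G.2
      refine ⟨⟨?_, fun α => ?_⟩, ?_⟩
      · apply IsHomogeneous.add
        · have : G.1 ∈ Box n d B := by
            rw [box_eq]
            exact ⟨G.2.1, G.2.2.trans (erase_subset _ _)⟩
          exact this.1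
        · apply isHomogeneous_monomial
          rw [hα0, Finsupp.degree_single]
      · rw [coeff_add, coeff_monomial]
        by_cases hα : α0 = α
        · rw [if_pos hα]
          have h0 : G.1.coeff α = 0 := by
            by_contra h
            have := G.2.2 (mem_support_iff.2 h)
            rw [hS, mem_erase] at this
            exact this.1 hα.symm
          rw [h0, zero_add]
          have := abs_sub a (eval y G.1)
          linarith
        · rw [if_neg hα, add_zero]
          refine (G.2.1 α).trans ?_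
          have : B ≤ H := by
            have : B ≤ 2 * N * B := Nat.le_mul_of_pos_left _ (by omega)
            omega
          exact_mod_cast this
      · rw [map_add, hy1]; ring
    refine Nat.card_le_card_of_injective (fun G => (⟨_, hmem G⟩ : VanV n d H y a)) ?_
    intro G G' h
    have h1 : G.1 + monomial α0 (a - eval y G.1) = G'.1 + monomial α0 (a - eval y G'.1) :=
      congrArg Subtype.val h
    apply Subtype.ext
    ext α
    by_cases hα : α0 = α
    · have h0 : ∀ G : SBox S B, G.1.coeff α = 0 := by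
        intro G
        by_contra h
        have := G.2.2 (mem_support_iff.2 h)
        rw [hS, mem_erase] at this
        exact this.1 hα.symm
      rw [h0, h0]
    · have h2 := congrArg (coeff α) h1
      rw [coeff_add, coeff_add, coeff_monomial, coeff_monomial, if_neg hα, if_neg hα, add_zero,
        add_zero] at h2
      exact h2
  have h1 : ((2 * B + 1 : ℕ) : ℝ) ^ (N - 1) ≤ Nat.card (VanV n d H y a) := by exact_mod_cast hcard
  refine le_trans ?_ h1
  apply pow_le_pow_left₀ (by positivity)
  rw [div_le_iff₀ (by positivity)]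
  have h2 : H < 2 * N * (B + 1) := by
    have := Nat.lt_mul_div_succ H (by omega : 0 < 2 * N)
    exact this
  have h3 : (H : ℝ) ≤ 2 * N * (B + 1) := by exact_mod_cast h2.le
  push_cast
  have hB0 : (0 : ℝ) ≤ B := Nat.cast_nonneg _
  nlinarith

theorem lower_int {n r : ℕ} (J : Finset (Fin (n + 1))) (A : Fin r → Finset ℤ) (d : Fin r → ℕ)
    (a : Fin r → ℤ) (ha : ∀ i, a i ∈ A i) (H T : ℕ) (hT : 1 ≤ T) (hH : ∀ i, 2 * |a i| ≤ H) :
    (∏ i, (1 / (2 * ((n + d i).choose n : ℕ) : ℝ)) ^ ((n + d i).choose n - 1)) *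
      (H : ℝ) ^ (∑ i, ((n + d i).choose n - 1)) ≤
      Nat.card {F | F ∈ SysBox n d H ∧ (IPt J A F T).Nonempty} := by
  classical
  obtain ⟨j0, hj0⟩ : ∃ j0 : Fin (n + 1), J.Nonempty → j0 ∈ J := by
    rcases J.eq_empty_or_nonempty with h | ⟨j, hj⟩
    · exact ⟨0, fun h2 => absurd h h2.ne_empty⟩
    · exact ⟨j, fun _ => hj⟩
  let y : Fin (n + 1) → ℤ := fun k => if k ∈ J ∨ k = j0 then 1 else 0
  have hy0 : y j0 = 1 := by simp [y]
  have hy : ∀ k, |y k| ≤ 1 := by
    intro k
    simp only [y]
    split_ifs <;> simp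
  have h1 : Nat.card {F : Fin r → MvPolynomial (Fin (n + 1)) ℤ | ∀ i, F i ∈
      VanV n (d i) H y (a i)} ≤ Nat.card {F | F ∈ SysBox n d H ∧ (IPt J A F T).Nonempty} := by
    simp only [Nat.card_coe_set_eq]
    apply Set.ncard_le_ncard _ ((finite_sys n d H).subset (fun F hF => hF.1))
    intro F hF
    refine ⟨fun i => (hF i).1, y, ⟨Pi.single j0 1, ?_⟩, fun k => ?_, fun j hj => ?_, fun i => ?_⟩
    · rw [Finset.sum_eq_single j0]
      · simp [hy0]
      · intro b _ hb; rw [Pi.single_eq_of_ne hb]; simp
      · intro h; exact absurd (mem_univ _) h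
    · exact (hy k).trans (by exact_mod_cast hT)
    · simp [y, hj]
    · rw [(hF i).2]; exact ha i
  rw [card_sys_eq] at h1
  have h2 : ((∏ i, Nat.card (VanV n (d i) H y (a i)) : ℕ) : ℝ) ≤
      (Nat.card {F | F ∈ SysBox n d H ∧ (IPt J A F T).Nonempty} : ℝ) := by exact_mod_cast h1
  refine le_trans ?_ h2
  rw [Nat.cast_prod, ← prod_pow_eq_pow_sum, ← prod_mul_distrib]
  refine prod_le_prod (fun i _ => by positivity) (fun i _ => ?_)
  refine le_trans (le_of_eq ?_) (lower_val n (d i) y j0 hy0 hy (a i) H (hH i))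
  rw [← mul_pow]
  congr 1
  ring

end Pool.Agent.Q256.UP
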